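import Mathlib

/-!
# Partitioning the sphere into quarter great circles: definitions

A point `X = (x, y)` of the chart `Pt` stands for the direction of the vector `(1, x, y)` in
3-space (gnomonic chart).  `D X Y` is minus the inner product of `(1, X)` and `(1, Y)`; the segment
from `X` to `Y` is a quarter of a great circle exactly when `D X Y = 0`, and longer than a quarter
exactly when `D X Y > 0`.

A *wall* is a segment `[O, V]` with `D O V > 0`.  It contains the points `Nn O V` (nearer to `O`)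
and `Nn V O` (nearer to `V`) with `D (Nn O V) (Nn V O) = 0`; the arc `Fa O V` of the partition is the
segment between them.

A *cell* is a triangle `(O; U, V)` with small wall `[O, U]`, large wall `[O, V]` and third side
`[U, V]`; its region `reg` is the closed triangle without `[O, Nn U O]` and without `[Nn O V, V]`.
-/

set_option autoImplicit false

namespace Pool.Agent.GreatArcs

/-- A point `(x,y)` stands for the direction of the vector `(1,x,y)` in 3-space. -/
abbrev Pt := ℝ × ℝ

/-- minus the inner product of `(1,X)` and `(1,Y)` -/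
def D (X Y : Pt) : ℝ := -(1 + X.1 * Y.1 + X.2 * Y.2)

/-- orientation determinant `det (U - O, V - O)` -/
def orr (O U V : Pt) : ℝ := (U.1 - O.1) * (V.2 - O.2) - (V.1 - O.1) * (U.2 - O.2)

/-- the point `P + t (Q - P)` -/
def lp (P Q : Pt) (t : ℝ) : Pt := (P.1 + t * (Q.1 - P.1), P.2 + t * (Q.2 - P.2))

/-- closed segment -/
def seg (P Q : Pt) : Set Pt := {X | ∃ t : ℝ, 0 ≤ t ∧ t ≤ 1 ∧ X = lp P Q t}

/-- the number `z` of a wall: a root of `d z^2 - 2 p q z + p q d` -/
noncomputable def wz (O V : Pt) : ℝ :=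
  (D O O * D V V - Real.sqrt ((D O O * D V V) ^ 2 - (D O O * D V V) * (D O V) ^ 2)) / D O V

/-- position parameter on a wall -/
noncomputable def nu (O V : Pt) : ℝ := wz O V / (-(D V V) + wz O V)

/-- the division point of the wall `[O,V]` nearer to `O` -/
noncomputable def Nn (O V : Pt) : Pt := lp O V (nu O V)

/-- the arc of the partition on the wall `[O,V]` -/
noncomputable def Fa (O V : Pt) : Set Pt := seg (Nn O V) (Nn V O)

/-- `a` is a quarter of a great circle, in the chart -/
def IsArc (a : Set Pt) : Prop := ∃ P Q : Pt, D P Q = 0 ∧ a = seg P Q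

/-- a triangle `(O; U, V)` -/
structure Cell where
  /-- apex: common end of the two walls -/
  O : Pt
  /-- other end of the small wall -/
  U : Pt
  /-- other end of the large wall -/
  V : Pt

/-- closed triangle -/
def tri (c : Cell) : Set Pt :=
  {X | ∃ a b : ℝ, 0 ≤ a ∧ 0 ≤ b ∧ a + b ≤ 1 ∧
    X = (c.O.1 + a * (c.U.1 - c.O.1) + b * (c.V.1 - c.O.1),
         c.O.2 + a * (c.U.2 - c.O.2) + b * (c.V.2 - c.O.2))}

/-- the part `[Nn O V, V]` of the large wall, which is not in the region of the cell -/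
noncomputable def lrem (c : Cell) : Set Pt := seg (Nn c.O c.V) c.V

/-- the part `[O, Nn U O]` of the small wall, which is not in the region of the cell -/
noncomputable def srem (c : Cell) : Set Pt := seg c.O (Nn c.U c.O)

/-- the region of a cell -/
noncomputable def reg (c : Cell) : Set Pt := tri c \ (srem c ∪ lrem c)

/-- cells with the apex on the left (negative second coordinate) -/
structure VR (c : Cell) : Prop where
  yO : c.O.2 < 0
  yU : 0 < c.U.2
  yUV : c.U.2 < c.V.2
  xO : 0 ≤ c.O.1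
  xOU : c.O.1 ≤ c.U.1
  xUV : c.U.1 ≤ c.V.1
  det : 0 ≤ c.U.1 * c.V.2 - c.V.1 * c.U.2
  ori : 0 < orr c.O c.U c.V
  sig : 0 < D c.O c.U

/-- cells with the apex on the right (positive second coordinate) -/
structure VL (c : Cell) : Prop where
  yVU : c.V.2 < c.U.2
  yU : c.U.2 < 0
  yO : 0 < c.O.2
  xV : 0 ≤ c.V.1
  xVU : c.V.1 ≤ c.U.1
  xUO : c.U.1 ≤ c.O.1
  ori : 0 < orr c.O c.U c.V
  sig : 0 < D c.O c.U

/-- valid cells -/
def Valid (c : Cell) : Prop := VR c ∨ VL c

/-- the quantity that contracts -/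
noncomputable def Phi (c : Cell) : ℝ := max (D c.O c.U) (4 / 5 * D c.O c.V)

/-- the relation between a cell and its children that is used for nests -/
structure Rel (c d : Cell) : Prop where
  phi : Phi d ≤ 5 / 6 * Phi c
  sub : tri d ⊆ tri c
  dis : Disjoint (tri d) (lrem c)
  red : tri d \ lrem d ⊆ reg c

/-- `s` is the union of pairwise disjoint sets satisfying `A`. -/
def Splits {X : Type*} (A : Set X → Prop) (s : Set X) : Prop :=
  ∃ F : Set (Set X), (∀ a ∈ F, A a) ∧ F.PairwiseDisjoint id ∧ ⋃₀ F = s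

/-! ## Coordinate lemmas -/

@[simp] theorem lp_fst (P Q : Pt) (t : ℝ) : (lp P Q t).1 = P.1 + t * (Q.1 - P.1) := rfl
@[simp] theorem lp_snd (P Q : Pt) (t : ℝ) : (lp P Q t).2 = P.2 + t * (Q.2 - P.2) := rfl

theorem D_comm (X Y : Pt) : D X Y = D Y X := by unfold D; ring

theorem D_self_neg (X : Pt) : D X X ≤ -1 := by
  unfold D; nlinarith [mul_self_nonneg X.1, mul_self_nonneg X.2]

theorem D_lp_right (X P Q : Pt) (t : ℝ) : D X (lp P Q t) = D X P + t * (D X Q - D X P) := by
  simp only [D, lp_fst, lp_snd]; ring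

theorem D_lp_left (X P Q : Pt) (t : ℝ) : D (lp P Q t) X = D P X + t * (D Q X - D P X) := by
  simp only [D, lp_fst, lp_snd]; ring

@[simp] theorem lp_zero (P Q : Pt) : lp P Q 0 = P := by ext <;> simp
@[simp] theorem lp_one (P Q : Pt) : lp P Q 1 = Q := by ext <;> simp

theorem lp_swap (P Q : Pt) (t : ℝ) : lp P Q t = lp Q P (1 - t) := by
  ext <;> simp only [lp_fst, lp_snd] <;> ring

theorem left_mem_seg (P Q : Pt) : P ∈ seg P Q := ⟨0, le_refl 0, zero_le_one, (lp_zero P Q).symm⟩

theorem right_mem_seg (P Q : Pt) : Q ∈ seg P Q := ⟨1, zero_le_one, le_refl 1, (lp_one P Q).symm⟩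

theorem seg_comm (P Q : Pt) : seg P Q = seg Q P := by
  have key : ∀ A B : Pt, seg A B ⊆ seg B A := by
    rintro A B X ⟨t, h0, h1, rfl⟩
    exact ⟨1 - t, by linarith, by linarith, lp_swap A B t⟩
  exact Set.Subset.antisymm (key P Q) (key Q P)

theorem Fa_comm (O V : Pt) : Fa O V = Fa V O := seg_comm _ _

theorem orr_lp (P Q X Y : Pt) (t : ℝ) :
    orr P Q (lp X Y t) = orr P Q X + t * (orr P Q Y - orr P Q X) := by
  simp only [orr, lp_fst, lp_snd]; ring

/-- the region is contained in the closed triangle -/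
theorem reg_subset_tri (c : Cell) : reg c ⊆ tri c := Set.sdiff_subset

/-! ## Closed triangles -/

theorem O_mem_tri (c : Cell) : c.O ∈ tri c := ⟨0, 0, le_refl 0, le_refl 0, by norm_num, by
  ext <;> simp⟩

theorem U_mem_tri (c : Cell) : c.U ∈ tri c := ⟨1, 0, zero_le_one, le_refl 0, by norm_num, by
  ext <;> simp⟩

theorem V_mem_tri (c : Cell) : c.V ∈ tri c := ⟨0, 1, le_refl 0, zero_le_one, by norm_num, by
  ext <;> simp⟩

theorem tri_lp {c : Cell} {X Y : Pt} (hX : X ∈ tri c) (hY : Y ∈ tri c) {t : ℝ} (h0 : 0 ≤ t)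
    (h1 : t ≤ 1) : lp X Y t ∈ tri c := by
  obtain ⟨a, b, ha, hb, hab, rfl⟩ := hX
  obtain ⟨a', b', ha', hb', hab', rfl⟩ := hY
  refine ⟨a + t * (a' - a), b + t * (b' - b), ?_, ?_, ?_, ?_⟩
  · nlinarith [mul_nonneg h0 ha', mul_nonneg (sub_nonneg.2 h1) ha]
  · nlinarith [mul_nonneg h0 hb', mul_nonneg (sub_nonneg.2 h1) hb]
  · nlinarith [mul_nonneg h0 (sub_nonneg.2 hab'), mul_nonneg (sub_nonneg.2 h1) (sub_nonneg.2 hab)]
  · ext <;> simp only [lp_fst, lp_snd] <;> ring

theorem tri_sub {c d : Cell} (hO : d.O ∈ tri c) (hU : d.U ∈ tri c) (hV : d.V ∈ tri c) :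
    tri d ⊆ tri c := by
  obtain ⟨a1, b1, ha1, hb1, hab1, e1⟩ := hO
  obtain ⟨a2, b2, ha2, hb2, hab2, e2⟩ := hU
  obtain ⟨a3, b3, ha3, hb3, hab3, e3⟩ := hV
  rintro X ⟨a, b, ha, hb, hab, rfl⟩
  have hc : 0 ≤ 1 - a - b := by linarith
  refine ⟨(1 - a - b) * a1 + a * a2 + b * a3, (1 - a - b) * b1 + a * b2 + b * b3, ?_, ?_, ?_, ?_⟩
  · have := mul_nonneg hc ha1
    have := mul_nonneg ha ha2
    have := mul_nonneg hb ha3
    linarith
  · have := mul_nonneg hc hb1
    have := mul_nonneg ha hb2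
    have := mul_nonneg hb hb3
    linarith
  · have := mul_nonneg hc (sub_nonneg.2 hab1)
    have := mul_nonneg ha (sub_nonneg.2 hab2)
    have := mul_nonneg hb (sub_nonneg.2 hab3)
    nlinarith
  · rw [e1, e2, e3]
    ext <;> simp only <;> ring

end Pool.Agent.GreatArcs
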