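import Mathlib
import Pool.Agent.GreatArcs.Base

/-! # Module WALL: the division points of a wall -/

set_option autoImplicit false

namespace Pool.Agent.GreatArcs

/-- algebra of the division parameters -/
theorem wall_alg {p q d r z : ℝ} (hp : 1 ≤ p) (hq : 1 ≤ q) (hd : 0 < d) (hgap : 0 < p * q - d ^ 2)
    (hr0 : 0 ≤ r) (hr2 : r ^ 2 = (p * q) ^ 2 - (p * q) * d ^ 2) (hz : z = (p * q - r) / d) :
    d * z ^ 2 - 2 * p * q * z + p * q * d = 0 ∧ d / 2 ≤ z ∧ z < d ∧ z ^ 2 < p * q := by
  have hzd : z * d = p * q - r := by rw [hz]; field_simp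
  have hpq : 0 < p * q := by positivity
  have hdd : 0 < d ^ 2 := by positivity
  have hr_lo : p * q - d ^ 2 < r := by
    by_contra hcon
    push Not at hcon
    nlinarith
  have hr_hi : r ≤ p * q - d ^ 2 / 2 := by
    by_contra hcon
    push Not at hcon
    nlinarith
  have h1 : z < d := by
    by_contra hcon
    push Not at hcon
    nlinarith
  have h2 : d / 2 ≤ z := by
    by_contra hcon
    push Not at hcon
    nlinarith
  have h3 : d * z ^ 2 - 2 * p * q * z + p * q * d = 0 := by
    have : d * (d * z ^ 2 - 2 * p * q * z + p * q * d) = 0 := by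
      have e : d * (d * z ^ 2 - 2 * p * q * z + p * q * d) =
        (z * d) ^ 2 - 2 * p * q * (z * d) + p * q * d ^ 2 := by ring
      rw [e, hzd]
      nlinarith
    rcases mul_eq_zero.1 this with h | h
    · exact absurd h hd.ne'
    · exact h
  refine ⟨h3, h2, h1, ?_⟩
  have h4 : 0 < d * (p * q - z ^ 2) := by
    have : d * (p * q - z ^ 2) = 2 * (p * q) * (d - z) := by linarith
    rw [this]
    have : 0 < d - z := by linarith
    positivity
  by_contra hcon
  push Not at hcon
  nlinarith

/-- Properties of the division points of a wall.  (Apply also with `O` and `V` exchanged.) -/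
theorem wall {O V : Pt} (h : 0 < D O V) :
    0 < nu O V ∧ nu O V + nu V O < 1 ∧ D (Nn O V) (Nn V O) = 0 ∧ 0 < D (Nn O V) V ∧
      D (Nn O V) V ≤ D O V / 2 := by
  have hOO := D_self_neg O
  have hVV := D_self_neg V
  have hgap : 0 < (-D O O) * (-D V V) - D O V ^ 2 := by
    have e : (-D O O) * (-D V V) - D O V ^ 2 =
        (O.1 - V.1) ^ 2 + (O.2 - V.2) ^ 2 + (O.1 * V.2 - V.1 * O.2) ^ 2 := by
      unfold D; ring
    rw [e]
    by_contra hcon
    have h1 : (O.1 - V.1) ^ 2 = 0 := by
      nlinarith [sq_nonneg (O.1 - V.1), sq_nonneg (O.2 - V.2), sq_nonneg (O.1 * V.2 - V.1 * O.2)]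
    have h2 : (O.2 - V.2) ^ 2 = 0 := by
      nlinarith [sq_nonneg (O.1 - V.1), sq_nonneg (O.2 - V.2), sq_nonneg (O.1 * V.2 - V.1 * O.2)]
    have h3 : O.1 = V.1 := by
      have := pow_eq_zero_iff (two_ne_zero) |>.1 h1
      linarith
    have h4 : O.2 = V.2 := by
      have := pow_eq_zero_iff (two_ne_zero) |>.1 h2
      linarith
    have : O = V := Prod.ext h3 h4
    rw [this] at h
    linarith [D_self_neg V]
  have hcomm : wz V O = wz O V := by
    unfold wz
    rw [D_comm V O, mul_comm (D V V) (D O O)]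
  have hprod : D O O * D V V = (-D O O) * (-D V V) := by ring
  have hrr := Real.sqrt_nonneg ((-D O O * -D V V) ^ 2 - (-D O O * -D V V) * (D O V) ^ 2)
  have hwz : wz O V = ((-D O O) * (-D V V) -
      Real.sqrt ((-D O O * -D V V) ^ 2 - (-D O O * -D V V) * (D O V) ^ 2)) / D O V := by
    unfold wz; rw [hprod]
  have hsq : Real.sqrt ((-D O O * -D V V) ^ 2 - (-D O O * -D V V) * (D O V) ^ 2) ^ 2 =
      (-D O O * -D V V) ^ 2 - (-D O O * -D V V) * (D O V) ^ 2 := by
    refine Real.sq_sqrt ?_
    have : (-D O O * -D V V) ^ 2 - (-D O O * -D V V) * (D O V) ^ 2 =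
      (-D O O * -D V V) * ((-D O O) * (-D V V) - D O V ^ 2) := by ring
    rw [this]
    have h1 : 0 < -D O O * -D V V := by nlinarith
    positivity
  obtain ⟨k1, k2, k3, k4⟩ := wall_alg (p := -D O O) (q := -D V V) (by linarith) (by linarith) h
    hgap hrr hsq hwz
  have nu1 : nu O V = wz O V / (-(D V V) + wz O V) := rfl
  have nu2 : nu V O = wz O V / (-(D O O) + wz O V) := by unfold nu; rw [hcomm]
  have hDOV' : D V O = D O V := D_comm V O
  -- generalize
  have e3 : D (Nn O V) (Nn V O) = (1 - nu O V) * (1 - nu V O) * D O V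
      + (1 - nu O V) * nu V O * D O O + nu O V * (1 - nu V O) * D V V
      + nu O V * nu V O * D O V := by
    unfold Nn
    rw [D_lp_left, D_lp_right, D_lp_right, hDOV']; ring
  have e4 : D (Nn O V) V = (1 - nu O V) * D O V + nu O V * D V V := by
    unfold Nn
    rw [D_lp_left]; ring
  rw [e3, e4, nu1, nu2]
  generalize D O V = d at *
  generalize wz O V = z at *
  obtain ⟨p, hp⟩ : ∃ p, p = -D O O := ⟨_, rfl⟩
  obtain ⟨q, hq⟩ : ∃ q, q = -D V V := ⟨_, rfl⟩
  have hp' : D O O = -p := by linarith
  have hq' : D V V = -q := by linarith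
  rw [hp', hq'] at *
  simp only [neg_neg] at *
  have hp1 : 1 ≤ p := by linarith
  have hq1 : 1 ≤ q := by linarith
  have hz0 : 0 < z := by linarith
  have hpz : 0 < p + z := by linarith
  have hqz : 0 < q + z := by linarith
  refine ⟨by positivity, ?_, ?_, ?_, ?_⟩
  · rw [div_add_div _ _ hqz.ne' hpz.ne', div_lt_one (by positivity)]
    nlinarith
  · have e5 : (1 - z / (q + z)) * (1 - z / (p + z)) * d + (1 - z / (q + z)) * (z / (p + z)) * -p +
        z / (q + z) * (1 - z / (p + z)) * -q + z / (q + z) * (z / (p + z)) * d =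
        (d * z ^ 2 - 2 * p * q * z + p * q * d) / ((q + z) * (p + z)) := by
      field_simp; ring
    have e6 : d * z ^ 2 - 2 * p * q * z + p * q * d = 0 := by
      rw [hp, hq]; linarith [k1]
    rw [e5, e6, zero_div]
  · have : (1 - z / (q + z)) * d + z / (q + z) * -q = q * (d - z) / (q + z) := by
      field_simp; ring
    rw [this]
    have : 0 < d - z := by linarith
    positivity
  · have : (1 - z / (q + z)) * d + z / (q + z) * -q = q * (d - z) / (q + z) := by
      field_simp; ring
    rw [this, div_le_iff₀ hqz]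
    have h1 : d - z ≤ d / 2 := by linarith
    have h2 : q * (d - z) ≤ q * (d / 2) := mul_le_mul_of_nonneg_left h1 (by linarith)
    have h3 : 0 ≤ d / 2 * z := by positivity
    nlinarith

end Pool.Agent.GreatArcs
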