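import Mathlib
import Pool.Agent.GreatArcs.Base
import Pool.Agent.GreatArcs.Wall

/-! # Module KIDS: the children of a valid cell are valid -/

set_option autoImplicit false

namespace Pool.Agent.GreatArcs

/-- in a right cell the small wall is strictly shorter than the large wall -/
theorem kids_VR_lt {c : Cell} (h : VR c) : D c.O c.U < D c.O c.V := by
  obtain ⟨yO, yU, yUV, xO, xOU, xUV, det, ori, sig⟩ := h
  have h0 : (c.V.1 - c.U.1) * c.U.2 ≤ c.U.1 * (c.V.2 - c.U.2) := by nlinarith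
  have h1 : c.O.1 * ((c.V.1 - c.U.1) * c.U.2) ≤ c.O.1 * (c.U.1 * (c.V.2 - c.U.2)) :=
    mul_le_mul_of_nonneg_left h0 xO
  have h2 : 0 < (c.V.2 - c.U.2) * (D c.O c.U + 1) := mul_pos (by linarith) (by linarith)
  have h3 : (c.V.2 - c.U.2) * (D c.O c.U + 1) ≤ c.U.2 * (D c.O c.V - D c.O c.U) := by
    unfold D
    nlinarith
  have h4 : 0 < c.U.2 * (D c.O c.V - D c.O c.U) := lt_of_lt_of_le h2 h3
  have h5 := (mul_pos_iff_of_pos_left yU).1 h4
  linarith

/-- in a left cell the small wall is strictly shorter than the large wall -/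
theorem kids_VL_lt {c : Cell} (h : VL c) : D c.O c.U < D c.O c.V := by
  obtain ⟨yVU, yU, yO, xV, xVU, xUO, ori, sig⟩ := h
  have h1 : 0 ≤ c.O.1 * (c.U.1 - c.V.1) := mul_nonneg (by linarith) (by linarith)
  have h2 : 0 < c.O.2 * (c.U.2 - c.V.2) := mul_pos yO (by linarith)
  unfold D
  nlinarith

theorem kids_tau_pos {c : Cell} (h : Valid c) : 0 < D c.O c.V := by
  rcases h with h | h
  · exact h.sig.trans (kids_VR_lt h)
  · exact h.sig.trans (kids_VL_lt h)

/-- points of the large wall before the division point are at distance more than a quarter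
from `V` -/
theorem kids_D_pos {c : Cell} (h : Valid c) {s : ℝ} (hs' : s ≤ nu c.O c.V) :
    0 < D (lp c.O c.V s) c.V := by
  have h0 := kids_tau_pos h
  obtain ⟨-, -, -, h1, -⟩ := wall h0
  unfold Nn at h1
  rw [D_lp_left] at h1 ⊢
  have h2 := D_self_neg c.V
  have h3 : s * (D c.O c.V - D c.V c.V) ≤ nu c.O c.V * (D c.O c.V - D c.V c.V) :=
    mul_le_mul_of_nonneg_right hs' (by linarith)
  linarith

theorem kids_nu_lt {c : Cell} (h : Valid c) : nu c.O c.V < 1 := by
  have h0 := kids_tau_pos h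
  have h1 := wall h0
  have h2 := wall (O := c.V) (V := c.O) (by rw [D_comm]; exact h0)
  linarith [h1.2.1, h2.1]

/-- first coordinate of a point of a segment -/
theorem kids_conv {a b t m : ℝ} (h0 : 0 ≤ t) (h1 : t ≤ 1) (ha : m ≤ a) (hb : m ≤ b) :
    m ≤ a + t * (b - a) := by
  have h2 := mul_nonneg h0 (sub_nonneg.2 hb)
  have h3 := mul_nonneg (sub_nonneg.2 h1) (sub_nonneg.2 ha)
  nlinarith

theorem kids_conv' {a b t m : ℝ} (h0 : 0 ≤ t) (h1 : t ≤ 1) (ha : a ≤ m) (hb : b ≤ m) :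
    a + t * (b - a) ≤ m := by
  have h2 := mul_nonneg h0 (sub_nonneg.2 hb)
  have h3 := mul_nonneg (sub_nonneg.2 h1) (sub_nonneg.2 ha)
  nlinarith

theorem kids_pos {a b t : ℝ} (h0 : 0 ≤ t) (h1 : t ≤ 1) (ha : 0 < a) (hb : 0 < b) :
    0 < a + t * (b - a) := by
  rcases h0.lt_or_eq with h | h
  · have h2 := mul_pos h hb
    have h3 := mul_nonneg (sub_nonneg.2 h1) ha.le
    nlinarith
  · rw [← h]; linarith

theorem kids_neg {a b t : ℝ} (h0 : 0 ≤ t) (h1 : t ≤ 1) (ha : a < 0) (hb : b < 0) :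
    a + t * (b - a) < 0 := by
  have := kids_pos h0 h1 (neg_pos.2 ha) (neg_pos.2 hb)
  nlinarith

theorem kids_VR_y {c : Cell} (h : VR c) {s : ℝ} (hs : 0 ≤ s) (hs' : s ≤ nu c.O c.V) :
    (lp c.O c.V s).2 < 0 := by
  have h1 := kids_D_pos (Or.inl h) hs'
  have h2 := kids_nu_lt (Or.inl h)
  have hx : 0 ≤ (lp c.O c.V s).1 := by
    rw [lp_fst]
    exact kids_conv hs (by linarith) h.xO (by linarith [h.xO, h.xOU, h.xUV])
  have hV : 0 ≤ c.V.1 := by linarith [h.xO, h.xOU, h.xUV]
  have h3 := mul_nonneg hx hV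
  unfold D at h1
  have h4 : (lp c.O c.V s).2 * c.V.2 < 0 := by linarith
  have h5 : 0 < c.V.2 := h.yU.trans h.yUV
  by_contra hcon
  push Not at hcon
  have := mul_nonneg hcon h5.le
  linarith

theorem kids_VL_y {c : Cell} (h : VL c) {s : ℝ} (hs : 0 ≤ s) (hs' : s ≤ nu c.O c.V) :
    0 < (lp c.O c.V s).2 := by
  have h1 := kids_D_pos (Or.inr h) hs'
  have h2 := kids_nu_lt (Or.inr h)
  have hx : 0 ≤ (lp c.O c.V s).1 := by
    rw [lp_fst]
    exact kids_conv hs (by linarith) (by linarith [h.xV, h.xVU, h.xUO]) h.xV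
  have hV : 0 ≤ c.V.1 := h.xV
  have h3 := mul_nonneg hx hV
  unfold D at h1
  have h4 : (lp c.O c.V s).2 * c.V.2 < 0 := by linarith
  have h5 : c.V.2 < 0 := h.yVU.trans h.yU
  by_contra hcon
  push Not at hcon
  have := mul_nonneg_of_nonpos_of_nonpos hcon h5.le
  linarith

/-- numerical consequences of validity -/
theorem valid_facts {c : Cell} (hc : Valid c) :
    0 < D c.O c.U ∧ D c.O c.U < D c.O c.V ∧ D c.U c.V < 0 ∧
      D c.O c.U - D c.U c.V ≤ D c.O c.V - D c.V c.V ∧
      D (Nn c.O c.V) c.U < D (Nn c.O c.V) c.V ∧ 0 < orr c.O c.U c.V := by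
  have hnu0 : 0 < nu c.O c.V := (wall (kids_tau_pos hc)).1
  have hnu1 := kids_nu_lt hc
  have hD := kids_D_pos hc (le_refl (nu c.O c.V))
  rcases hc with h | h
  · have hy := kids_VR_y h hnu0.le le_rfl
    have hlt := kids_VR_lt h
    obtain ⟨yO, yU, yUV, xO, xOU, xUV, det, ori, sig⟩ := h
    have hx : 0 ≤ (lp c.O c.V (nu c.O c.V)).1 := by
      rw [lp_fst]
      exact kids_conv hnu0.le hnu1.le xO (by linarith)
    have hU1 : 0 ≤ c.U.1 := by linarith
    have hV1 : 0 ≤ c.V.1 := by linarith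
    have hV2 : 0 < c.V.2 := by linarith
    refine ⟨sig, hlt, ?_, ?_, ?_, ori⟩
    · have h1 := mul_nonneg hU1 hV1
      have h2 := mul_pos yU hV2
      unfold D
      linarith
    · have h1 : 0 ≤ (c.V.1 - c.O.1) * (c.V.1 - c.U.1) := mul_nonneg (by linarith) (by linarith)
      have h2 : 0 ≤ (c.V.2 - c.O.2) * (c.V.2 - c.U.2) := mul_nonneg (by linarith) (by linarith)
      unfold D
      nlinarith
    · change D (lp c.O c.V (nu c.O c.V)) c.U < D (lp c.O c.V (nu c.O c.V)) c.V
      generalize lp c.O c.V (nu c.O c.V) = N at *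
      have h0 : (c.V.1 - c.U.1) * c.V.2 ≤ c.V.1 * (c.V.2 - c.U.2) := by nlinarith
      have h1 : N.1 * ((c.V.1 - c.U.1) * c.V.2) ≤ N.1 * (c.V.1 * (c.V.2 - c.U.2)) :=
        mul_le_mul_of_nonneg_left h0 hx
      have h2 : 0 < (c.V.2 - c.U.2) * (D N c.V + 1) := mul_pos (by linarith) (by linarith)
      have h3 : (c.V.2 - c.U.2) * (D N c.V + 1) ≤ c.V.2 * (D N c.V - D N c.U) := by
        unfold D
        nlinarith
      have h4 : 0 < c.V.2 * (D N c.V - D N c.U) := lt_of_lt_of_le h2 h3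
      have h5 := (mul_pos_iff_of_pos_left hV2).1 h4
      linarith
  · have hy := kids_VL_y h hnu0.le le_rfl
    have hlt := kids_VL_lt h
    obtain ⟨yVU, yU, yO, xV, xVU, xUO, ori, sig⟩ := h
    have hx : 0 ≤ (lp c.O c.V (nu c.O c.V)).1 := by
      rw [lp_fst]
      exact kids_conv hnu0.le hnu1.le (by linarith) xV
    have hU1 : 0 ≤ c.U.1 := by linarith
    have hV2 : c.V.2 < 0 := by linarith
    refine ⟨sig, hlt, ?_, ?_, ?_, ori⟩
    · have h1 := mul_nonneg hU1 xV
      have h2 := mul_pos_of_neg_of_neg yU hV2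
      unfold D
      linarith
    · have h1 : 0 ≤ (c.O.1 - c.V.1) * (c.U.1 - c.V.1) := mul_nonneg (by linarith) (by linarith)
      have h2 : 0 ≤ (c.O.2 - c.V.2) * (c.U.2 - c.V.2) := mul_nonneg (by linarith) (by linarith)
      unfold D
      nlinarith
    · change D (lp c.O c.V (nu c.O c.V)) c.U < D (lp c.O c.V (nu c.O c.V)) c.V
      generalize lp c.O c.V (nu c.O c.V) = N at *
      have h1 : 0 ≤ N.1 * (c.U.1 - c.V.1) := mul_nonneg hx (by linarith)
      have h2 : 0 < N.2 * (c.U.2 - c.V.2) := mul_pos hy (by linarith)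
      unfold D
      nlinarith

theorem kids_orrA (c : Cell) (s s' e : ℝ) :
    orr (lp c.U c.V e) (lp c.O c.V s') (lp c.O c.V s) = (1 - e) * (s' - s) * orr c.O c.U c.V := by
  simp only [orr, lp_fst, lp_snd]; ring

theorem kids_orrB (c : Cell) (s e e' : ℝ) :
    orr (lp c.O c.V s) (lp c.U c.V e) (lp c.U c.V e') = (1 - s) * (e' - e) * orr c.O c.U c.V := by
  simp only [orr, lp_fst, lp_snd]; ring

theorem kids_orrC (c : Cell) (s e : ℝ) :
    ((lp c.U c.V e).1 - (lp c.O c.V s).1) * (c.V.2 - c.O.2) =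
      (1 - e) * orr c.O c.U c.V +
        (c.V.1 - c.O.1) * ((lp c.U c.V e).2 - (lp c.O c.V s).2) := by
  simp only [orr, lp_fst, lp_snd]; ring

/-- x-order of the points of the third side and of the large wall, right cells -/
theorem kids_VR_x {c : Cell} (h : VR c) {s e : ℝ} (he1 : e < 1)
    (hy : (lp c.O c.V s).2 < (lp c.U c.V e).2) : (lp c.O c.V s).1 ≤ (lp c.U c.V e).1 := by
  have h1 := kids_orrC c s e
  have h2 : 0 < (1 - e) * orr c.O c.U c.V := mul_pos (by linarith) h.ori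
  have h3 : 0 ≤ (c.V.1 - c.O.1) * ((lp c.U c.V e).2 - (lp c.O c.V s).2) :=
    mul_nonneg (by linarith [h.xOU, h.xUV]) (by linarith)
  have h4 : 0 < c.V.2 - c.O.2 := by linarith [h.yO, h.yU, h.yUV]
  by_contra hcon
  push Not at hcon
  have h5 := mul_neg_of_neg_of_pos (sub_neg.2 hcon) h4
  linarith

theorem kids_VL_x {c : Cell} (h : VL c) {s e : ℝ} (he1 : e < 1)
    (hy : (lp c.U c.V e).2 < (lp c.O c.V s).2) : (lp c.U c.V e).1 ≤ (lp c.O c.V s).1 := by
  have h1 := kids_orrC c s e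
  have h2 : 0 < (1 - e) * orr c.O c.U c.V := mul_pos (by linarith) h.ori
  have h3 : 0 ≤ (c.V.1 - c.O.1) * ((lp c.U c.V e).2 - (lp c.O c.V s).2) :=
    mul_nonneg_of_nonpos_of_nonpos (by linarith [h.xUO, h.xVU]) (by linarith)
  have h4 : c.V.2 - c.O.2 < 0 := by linarith [h.yO, h.yU, h.yVU]
  by_contra hcon
  push Not at hcon
  have h5 := mul_neg_of_pos_of_neg (sub_pos.2 hcon) h4
  linarith

/-- children of the opposite kind, apex on the third side -/
theorem kidA_valid {c : Cell} (hc : Valid c) {s s' e : ℝ} (hs : 0 ≤ s) (hss : s < s')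
    (hs' : s' < nu c.O c.V) (he : 0 ≤ e) (he1 : e < 1)
    (hD : 0 < D (lp c.O c.V s') (lp c.U c.V e)) :
    Valid ⟨lp c.U c.V e, lp c.O c.V s', lp c.O c.V s⟩ := by
  have hnu1 := kids_nu_lt hc
  have hori : 0 < orr (lp c.U c.V e) (lp c.O c.V s') (lp c.O c.V s) := by
    rw [kids_orrA]
    have : 0 < orr c.O c.U c.V := by
      rcases hc with h | h
      · exact h.ori
      · exact h.ori
    exact mul_pos (mul_pos (by linarith) (by linarith)) this
  have hsig : 0 < D (lp c.U c.V e) (lp c.O c.V s') := by rw [D_comm]; exact hD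
  rcases hc with h | h
  · right
    have hyS' := kids_VR_y h (by linarith : (0:ℝ) ≤ s') hs'.le
    have hyE : 0 < (lp c.U c.V e).2 := by
      rw [lp_snd]; exact kids_pos he he1.le h.yU (h.yU.trans h.yUV)
    have hx := kids_VR_x (s := s') h he1 (by linarith)
    have hOV2 : 0 < c.V.2 - c.O.2 := by linarith [h.yO, h.yU, h.yUV]
    have hOV1 : 0 ≤ c.V.1 - c.O.1 := by linarith [h.xOU, h.xUV]
    refine ⟨?_, hyS', hyE, ?_, ?_, hx, hori, hsig⟩
    · simp only [lp_snd]
      have := mul_lt_mul_of_pos_right hss hOV2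
      linarith
    · simp only [lp_fst]
      exact kids_conv hs (by linarith) h.xO (by linarith [h.xO])
    · simp only [lp_fst]
      have := mul_le_mul_of_nonneg_right hss.le hOV1
      linarith
  · left
    have hyS' := kids_VL_y h (by linarith : (0:ℝ) ≤ s') hs'.le
    have hyE : (lp c.U c.V e).2 < 0 := by
      rw [lp_snd]; exact kids_neg he he1.le h.yU (h.yVU.trans h.yU)
    have hx := kids_VL_x (s := s') h he1 (by linarith)
    have hOV2 : 0 < c.O.2 - c.V.2 := by linarith [h.yO, h.yU, h.yVU]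
    have hOV1 : 0 ≤ c.O.1 - c.V.1 := by linarith [h.xUO, h.xVU]
    refine ⟨hyE, hyS', ?_, ?_, hx, ?_, ?_, hori, hsig⟩
    · simp only [lp_snd]
      have := mul_lt_mul_of_pos_right hss hOV2
      linarith
    · simp only [lp_fst]
      exact kids_conv he he1.le (by linarith [h.xV, h.xVU]) h.xV
    · simp only [lp_fst]
      have := mul_le_mul_of_nonneg_right hss.le hOV1
      linarith
    · have h1 : (lp c.O c.V s').1 * (lp c.O c.V s).2 - (lp c.O c.V s).1 * (lp c.O c.V s').2
          = (s' - s) * (c.V.1 * c.O.2 + c.O.1 * (-c.V.2)) := by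
        simp only [lp_fst, lp_snd]; ring
      change 0 ≤ (lp c.O c.V s').1 * (lp c.O c.V s).2 - (lp c.O c.V s).1 * (lp c.O c.V s').2
      rw [h1]
      have h2 := mul_nonneg h.xV h.yO.le
      have h3 : 0 ≤ c.O.1 * (-c.V.2) := mul_nonneg (by linarith [h.xV, h.xVU, h.xUO])
        (by linarith [h.yU, h.yVU])
      exact mul_nonneg (by linarith) (by linarith)

/-- children of the same kind, apex on the large wall -/
theorem kidB_valid {c : Cell} (hc : Valid c) {s e e' : ℝ} (hs : 0 < s)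
    (hs' : s < nu c.O c.V) (he : 0 ≤ e) (hee : e < e') (he1 : e' < 1)
    (hD : 0 < D (lp c.O c.V s) (lp c.U c.V e)) :
    Valid ⟨lp c.O c.V s, lp c.U c.V e, lp c.U c.V e'⟩ := by
  have hnu1 := kids_nu_lt hc
  have hori : 0 < orr (lp c.O c.V s) (lp c.U c.V e) (lp c.U c.V e') := by
    rw [kids_orrB]
    have : 0 < orr c.O c.U c.V := by
      rcases hc with h | h
      · exact h.ori
      · exact h.ori
    exact mul_pos (mul_pos (by linarith) (by linarith)) this
  have he1' : e < 1 := hee.trans he1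
  rcases hc with h | h
  · left
    have hyS := kids_VR_y h hs.le hs'.le
    have hyE : 0 < (lp c.U c.V e).2 := by
      rw [lp_snd]; exact kids_pos he he1'.le h.yU (h.yU.trans h.yUV)
    have hx := kids_VR_x (s := s) h he1' (by linarith)
    refine ⟨hyS, hyE, ?_, ?_, hx, ?_, ?_, hori, hD⟩
    · simp only [lp_snd]
      have := mul_lt_mul_of_pos_right hee (by linarith [h.yUV] : (0:ℝ) < c.V.2 - c.U.2)
      linarith
    · simp only [lp_fst]
      exact kids_conv hs.le (by linarith) h.xO (by linarith [h.xO, h.xOU, h.xUV])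
    · simp only [lp_fst]
      have := mul_le_mul_of_nonneg_right hee.le (by linarith [h.xUV] : (0:ℝ) ≤ c.V.1 - c.U.1)
      linarith
    · have h1 : (lp c.U c.V e).1 * (lp c.U c.V e').2 - (lp c.U c.V e').1 * (lp c.U c.V e).2
          = (e' - e) * (c.U.1 * c.V.2 - c.V.1 * c.U.2) := by
        simp only [lp_fst, lp_snd]; ring
      change 0 ≤ (lp c.U c.V e).1 * (lp c.U c.V e').2 - (lp c.U c.V e').1 * (lp c.U c.V e).2
      rw [h1]
      exact mul_nonneg (by linarith) h.det
  · right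
    have hyS := kids_VL_y h hs.le hs'.le
    have hyE : (lp c.U c.V e).2 < 0 := by
      rw [lp_snd]; exact kids_neg he he1'.le h.yU (h.yVU.trans h.yU)
    have hx := kids_VL_x (s := s) h he1' (by linarith)
    refine ⟨?_, hyE, hyS, ?_, ?_, hx, hori, hD⟩
    · simp only [lp_snd]
      have := mul_lt_mul_of_pos_right hee (by linarith [h.yVU] : (0:ℝ) < c.U.2 - c.V.2)
      linarith
    · simp only [lp_fst]
      exact kids_conv (by linarith) he1.le (by linarith [h.xV, h.xVU]) h.xV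
    · simp only [lp_fst]
      have := mul_le_mul_of_nonneg_right hee.le (by linarith [h.xVU] : (0:ℝ) ≤ c.U.1 - c.V.1)
      linarith

end Pool.Agent.GreatArcs
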