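import Mathlib
import Pool.Agent.GreatArcs.Base

/-! # Module NEST: abstract lemmas on partitions -/

set_option autoImplicit false

open Set

namespace Pool.Agent.GreatArcs

variable {X : Type*}

/-- telescoping, natural number indices -/
theorem tele_nat (A P : ℕ → Set X) (h : ∀ n, A n = P n ∪ A (n + 1))
    (hd : ∀ n, Disjoint (P n) (A (n + 1))) (he : ⋂ n, A n = ∅) :
    A 0 = ⋃ n, P n ∧ ∀ m n, m ≠ n → Disjoint (P m) (P n) := by
  have hanti : Antitone A := by
    refine antitone_nat_of_succ_le fun n => ?_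
    rw [h n]; exact subset_union_right
  have hPA : ∀ n, P n ⊆ A n := fun n => by
    have := h n
    intro x hx
    rw [this]; exact Or.inl hx
  refine ⟨Subset.antisymm ?_ ?_, ?_⟩
  · intro x hx
    by_contra hcon
    have hall : ∀ n, x ∈ A n := by
      intro n
      induction n with
      | zero => exact hx
      | succ k ih =>
        rw [h k] at ih
        rcases ih with ih | ih
        · exact absurd (mem_iUnion.2 ⟨k, ih⟩) hcon
        · exact ih
    have : x ∈ ⋂ n, A n := mem_iInter.2 hall
    rw [he] at this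
    exact this
  · intro x hx
    obtain ⟨n, hn⟩ := mem_iUnion.1 hx
    exact hanti (Nat.zero_le n) (hPA n hn)
  · have key : ∀ m n, m < n → Disjoint (P m) (P n) := by
      intro m n hmn
      refine (hd m).mono_right ?_
      exact (hPA n).trans (hanti hmn)
    intro m n hmn
    rcases lt_or_gt_of_ne hmn with h1 | h1
    · exact key m n h1
    · exact (key n m h1).symm

/-- telescoping, integer indices -/
theorem tele_int (A P : ℤ → Set X) (h : ∀ n, A n = P n ∪ A (n + 1))
    (hd : ∀ n, Disjoint (P n) (A (n + 1))) (he : ⋂ n, A n = ∅) :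
    (⋃ n, A n) = ⋃ n, P n ∧ ∀ m n, m ≠ n → Disjoint (P m) (P n) := by
  have hanti : Antitone A := by
    refine antitone_int_of_succ_le fun n => ?_
    rw [h n]; exact subset_union_right
  have hPA : ∀ n, P n ⊆ A n := fun n => by
    have := h n
    intro x hx
    rw [this]; exact Or.inl hx
  refine ⟨Subset.antisymm ?_ ?_, ?_⟩
  · intro x hx
    obtain ⟨n0, hn0⟩ := mem_iUnion.1 hx
    by_contra hcon
    have hup : ∀ k : ℕ, x ∈ A (n0 + k) := by
      intro k
      induction k with
      | zero => simpa using hn0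
      | succ k ih =>
        rw [h (n0 + k)] at ih
        rcases ih with ih | ih
        · exact absurd (mem_iUnion.2 ⟨_, ih⟩) hcon
        · have e : n0 + ((k + 1 : ℕ) : ℤ) = n0 + (k : ℤ) + 1 := by push_cast; ring
          rw [e]; exact ih
    have hall : ∀ n, x ∈ A n := by
      intro n
      rcases le_total n n0 with h1 | h1
      · exact hanti h1 hn0
      · obtain ⟨k, hk⟩ := Int.le.dest h1
        rw [← hk]; exact hup k
    have : x ∈ ⋂ n, A n := mem_iInter.2 hall
    rw [he] at this
    exact this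
  · intro x hx
    obtain ⟨n, hn⟩ := mem_iUnion.1 hx
    exact mem_iUnion.2 ⟨n, hPA n hn⟩
  · have key : ∀ m n, m < n → Disjoint (P m) (P n) := by
      intro m n hmn
      refine (hd m).mono_right ?_
      exact (hPA n).trans (hanti hmn)
    intro m n hmn
    rcases lt_or_gt_of_ne hmn with h1 | h1
    · exact key m n h1
    · exact (key n m h1).symm

/-- a single set with the property splits -/
theorem splits_of_mem {A : Set X → Prop} {s : Set X} (h : A s) : Splits A s :=
  ⟨{s}, by rintro a rfl; exact h, pairwiseDisjoint_singleton _ _, sUnion_singleton s⟩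

theorem splits_iUnion {A : Set X → Prop} {ι : Type*} (f : ι → Set X)
    (hd : ∀ i j, i ≠ j → Disjoint (f i) (f j)) (h : ∀ i, Splits A (f i)) :
    Splits A (⋃ i, f i) := by
  choose F hF hdis hU using h
  refine ⟨⋃ i, F i, ?_, ?_, ?_⟩
  · intro a ha
    obtain ⟨i, hi⟩ := mem_iUnion.1 ha
    exact hF i a hi
  · intro a ha b hb hab
    obtain ⟨i, hi⟩ := mem_iUnion.1 ha
    obtain ⟨j, hj⟩ := mem_iUnion.1 hb
    by_cases hij : i = j
    · subst hij
      exact hdis i hi hj hab
    · have h1 : a ⊆ f i := by rw [← hU i]; exact subset_sUnion_of_mem hi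
      have h2 : b ⊆ f j := by rw [← hU j]; exact subset_sUnion_of_mem hj
      exact (hd i j hij).mono h1 h2
  · rw [sUnion_iUnion]
    exact iUnion_congr hU

theorem splits_union {A : Set X → Prop} {s t : Set X} (hs : Splits A s) (ht : Splits A t)
    (hd : Disjoint s t) : Splits A (s ∪ t) := by
  rw [union_eq_iUnion]
  refine splits_iUnion _ ?_ ?_
  · intro i j hij
    cases i <;> cases j
    · exact absurd rfl hij
    · exact hd.symm
    · exact hd
    · exact absurd rfl hij
  · intro b
    cases b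
    · exact ht
    · exact hs

/-- transport by an injective map -/
theorem splits_image {Y : Type*} {A : Set X → Prop} {B : Set Y → Prop} (f : X → Y)
    (hf : Function.Injective f) (hAB : ∀ a, A a → B (f '' a)) {s : Set X} (hs : Splits A s) :
    Splits B (f '' s) := by
  obtain ⟨F, hF, hdis, hU⟩ := hs
  refine ⟨(fun a => f '' a) '' F, ?_, ?_, ?_⟩
  · rintro _ ⟨a, ha, rfl⟩
    exact hAB a (hF a ha)
  · rintro _ ⟨a, ha, rfl⟩ _ ⟨b, hb, rfl⟩ hab
    have hne : a ≠ b := fun e => hab (by rw [e])
    exact (disjoint_image_iff hf).2 (hdis ha hb hne)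
  · rw [← hU, sUnion_image, sUnion_eq_biUnion, image_iUnion₂]

/-- cells along an index sequence -/
def walk {C : Type*} (kid : C → ℕ → C) (c : C) (u : ℕ → ℕ) : ℕ → C
  | 0 => c
  | n + 1 => kid (walk kid c u n) (u n)

/-- the abstract nest lemma -/
theorem nest {C : Type*} (Arc : Set X → Prop) (Val : C → Prop) (R : C → C → Prop)
    (rg : C → Set X)
    (hstep : ∀ c, Val c → ∃ (arc : ℕ → Set X) (kid : ℕ → C), (∀ n, Arc (arc n)) ∧
      (∀ n, Val (kid n) ∧ R c (kid n)) ∧ rg c = (⋃ n, arc n) ∪ ⋃ n, rg (kid n) ∧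
      (∀ m n, m ≠ n → Disjoint (arc m) (arc n)) ∧
      (∀ m n, m ≠ n → Disjoint (rg (kid m)) (rg (kid n))) ∧
      ∀ m n, Disjoint (arc m) (rg (kid n)))
    (hnest : ∀ f : ℕ → C, (∀ n, Val (f n)) → (∀ n, R (f n) (f (n + 1))) →
      Arc (⋂ n, rg (f n))) (c : C) (hc : Val c) : Splits Arc (rg c) := by
  classical
  have hstep' : ∀ c : {c : C // Val c}, ∃ (arc : ℕ → Set X) (kid : ℕ → {c : C // Val c}),
      (∀ n, Arc (arc n)) ∧
      (∀ n, R c.1 (kid n).1) ∧ rg c.1 = (⋃ n, arc n) ∪ ⋃ n, rg (kid n).1 ∧
      (∀ m n, m ≠ n → Disjoint (arc m) (arc n)) ∧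
      (∀ m n, m ≠ n → Disjoint (rg (kid m).1) (rg (kid n).1)) ∧
      ∀ m n, Disjoint (arc m) (rg (kid n).1) := by
    rintro ⟨c, hc⟩
    obtain ⟨arc, kid, h1, h2, h3, h4, h5, h6⟩ := hstep c hc
    exact ⟨arc, fun n => ⟨kid n, (h2 n).1⟩, h1, fun n => (h2 n).2, h3, h4, h5, h6⟩
  choose arc kid hArc hR hcov hd1 hd2 hd3 using hstep'
  set c0 : {c : C // Val c} := ⟨c, hc⟩ with hc0
  let W : (ℕ → ℕ) → ℕ → {c : C // Val c} := walk kid c0
  have W0 : ∀ u, W u 0 = c0 := fun u => rfl
  have Ws : ∀ u n, W u (n + 1) = kid (W u n) (u n) := fun u n => rfl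
  have hkid : ∀ c n, rg (kid c n).1 ⊆ rg c.1 := by
    intro c n x hx
    rw [hcov c]
    exact Or.inr (mem_iUnion.2 ⟨n, hx⟩)
  have harc : ∀ c n, arc c n ⊆ rg c.1 := by
    intro c n x hx
    rw [hcov c]
    exact Or.inl (mem_iUnion.2 ⟨n, hx⟩)
  have hWanti : ∀ u, Antitone fun n => rg (W u n).1 := by
    intro u
    refine antitone_nat_of_succ_le fun n => ?_
    show rg (W u (n + 1)).1 ⊆ rg (W u n).1
    rw [Ws]; exact hkid _ _
  have huniq : ∀ (x : X) (u v : ℕ → ℕ) (n : ℕ), x ∈ rg (W u n).1 → x ∈ rg (W v n).1 →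
      W u n = W v n := by
    intro x u v n
    induction n with
    | zero => intro _ _; rfl
    | succ n ih =>
      intro hu hv
      have e := ih (hWanti u (Nat.le_succ n) hu) (hWanti v (Nat.le_succ n) hv)
      rw [Ws] at hu hv ⊢
      rw [Ws, e]
      rw [e] at hu
      by_cases huv : u n = v n
      · rw [huv]
      · exact absurd hv (Set.disjoint_left.1 (hd2 (W v n) _ _ huv) hu)
  refine ⟨{a | ∃ u n m, a = arc (W u n) m} ∪ {a | ∃ u, a = ⋂ n, rg (W u n).1}, ?_, ?_, ?_⟩
  · rintro a (⟨u, n, m, rfl⟩ | ⟨u, rfl⟩)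
    · exact hArc _ _
    · refine hnest (fun n => (W u n).1) (fun n => (W u n).2) (fun n => ?_)
      show R (W u n).1 (W u (n + 1)).1
      rw [Ws]; exact hR _ _
  · intro a ha b hb hab
    show Disjoint a b
    rw [Set.disjoint_left]
    intro x hxa hxb
    apply hab
    -- a point of an arc at level `n` is not in the next walk cell
    have key : ∀ (u v : ℕ → ℕ) (n m : ℕ), x ∈ arc (W u n) m → x ∉ rg (W v (n + 1)).1 := by
      intro u v n m h1 h2
      have e := huniq x u v n (harc _ _ h1) (hWanti v (Nat.le_succ n) h2)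
      rw [Ws] at h2
      rw [e] at h1
      exact Set.disjoint_left.1 (hd3 (W v n) m (v n)) h1 h2
    have key2 : ∀ (u v : ℕ → ℕ) (n m n' m' : ℕ), x ∈ arc (W u n) m → x ∈ arc (W v n') m' →
        n' ≤ n := by
      intro u v n m n' m' h1 h2
      by_contra hlt
      push Not at hlt
      exact key u v n m h1 (hWanti v hlt (harc _ _ h2))
    rcases ha with ⟨u, n, m, rfl⟩ | ⟨u, rfl⟩ <;> rcases hb with ⟨v, n', m', rfl⟩ | ⟨v, rfl⟩
    · have hn : n = n' := le_antisymm (key2 v u n' m' n m hxb hxa) (key2 u v n m n' m' hxa hxb)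
      subst hn
      have e := huniq x u v n (harc _ _ hxa) (harc _ _ hxb)
      rw [e] at hxa ⊢
      by_cases hm : m = m'
      · rw [hm]
      · exact absurd hxb (Set.disjoint_left.1 (hd1 (W v n) _ _ hm) hxa)
    · exact absurd (mem_iInter.1 hxb (n + 1)) (key u v n m hxa)
    · exact absurd (mem_iInter.1 hxa (n' + 1)) (key v u n' m' hxb)
    · refine iInter_congr fun n => ?_
      rw [huniq x u v n (mem_iInter.1 hxa n) (mem_iInter.1 hxb n)]
  · refine Subset.antisymm ?_ ?_
    · rintro x ⟨a, (⟨u, n, m, rfl⟩ | ⟨u, rfl⟩), hx⟩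
      · have := hWanti u (Nat.zero_le n) (harc _ _ hx)
        exact this
      · exact mem_iInter.1 hx 0
    · intro x hx
      -- greedy choice of the child containing `x`
      let T : {c : C // Val c} → ℕ := fun c =>
        if h : ∃ n, x ∈ rg (kid c n).1 then h.choose else 0
      have hT : ∀ c, (∃ n, x ∈ rg (kid c n).1) → x ∈ rg (kid c (T c)).1 := by
        intro c h
        have : T c = h.choose := dif_pos h
        rw [this]; exact h.choose_spec
      let st : ℕ → {c : C // Val c} := fun n => Nat.rec c0 (fun _ c => kid c (T c)) n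
      let u : ℕ → ℕ := fun n => T (st n)
      have hst : ∀ n, W u n = st n := by
        intro n
        induction n with
        | zero => rfl
        | succ n ih =>
          rw [Ws, ih]
      by_cases hall : ∀ n, x ∈ rg (W u n).1
      · exact ⟨_, Or.inr ⟨u, rfl⟩, mem_iInter.2 hall⟩
      · push Not at hall
        have hfind := Nat.find_spec hall
        have hmin : ∀ m < Nat.find hall, x ∈ rg (W u m).1 := fun m hm => by
          by_contra hcon
          exact Nat.find_min hall hm hcon
        rcases Nat.eq_zero_or_pos (Nat.find hall) with h0 | hpos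
        · rw [h0] at hfind
          exact absurd hx hfind
        · obtain ⟨k, hk⟩ := Nat.exists_eq_succ_of_ne_zero hpos.ne'
          rw [hk] at hfind
          have hxk : x ∈ rg (W u k).1 := hmin k (by rw [hk]; exact Nat.lt_succ_self k)
          have hno : ¬ ∃ n, x ∈ rg (kid (W u k) n).1 := by
            intro hex
            apply hfind
            show x ∈ rg (W u (k + 1)).1
            rw [Ws]
            have : u k = T (W u k) := by
              show T (st k) = T (W u k)
              rw [hst]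
            rw [this]
            exact hT _ hex
          rw [hcov] at hxk
          rcases hxk with hxk | hxk
          · obtain ⟨m, hm⟩ := mem_iUnion.1 hxk
            exact ⟨_, Or.inl ⟨u, k, m, rfl⟩, hm⟩
          · obtain ⟨m, hm⟩ := mem_iUnion.1 hxk
            exact absurd ⟨m, hm⟩ hno

end Pool.Agent.GreatArcs
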