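import Mathlib

/-! # Module SEQ: existence of the zigzag parameters -/

set_option autoImplicit false

open Filter Topology

namespace Pool.Agent.GreatArcs

/-- the sequence `a, b, c, ...` that tends to `L` geometrically from `c` on -/
noncomputable def seqmk (a b c L : ℝ) : ℕ → ℝ
  | 0 => a
  | 1 => b
  | (n + 2) => L - (L - c) * (1 / 2) ^ n

theorem seqmk_two (a b c L : ℝ) (n : ℕ) : seqmk a b c L (n + 2) = L - (L - c) * (1 / 2) ^ n := rfl

theorem seqmk_strictMono {a b c L : ℝ} (hab : a < b) (hbc : b < c) (hcL : c < L) :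
    StrictMono (seqmk a b c L) := by
  apply strictMono_nat_of_lt_succ
  intro n
  match n with
  | 0 => exact hab
  | 1 =>
    change b < L - (L - c) * (1 / 2) ^ 0
    rw [pow_zero]; linarith
  | (n + 2) =>
    change L - (L - c) * (1 / 2) ^ n < L - (L - c) * (1 / 2) ^ (n + 1)
    have h1 : (0 : ℝ) < (1 / 2) ^ n := by positivity
    have h2 : 0 < (L - c) * (1 / 2) ^ n := mul_pos (by linarith) h1
    rw [pow_succ]
    nlinarith

theorem seqmk_lt {a b c L : ℝ} (hab : a < b) (hbc : b < c) (hcL : c < L) (n : ℕ) :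
    seqmk a b c L n < L := by
  match n with
  | 0 => change a < L; linarith
  | 1 => change b < L; linarith
  | (n + 2) =>
    change L - (L - c) * (1 / 2) ^ n < L
    have h1 : (0 : ℝ) < (1 / 2) ^ n := by positivity
    have h2 : 0 < (L - c) * (1 / 2) ^ n := mul_pos (by linarith) h1
    linarith

theorem seqmk_ge {a b c L : ℝ} (hcL : c < L) (n : ℕ) : c ≤ seqmk a b c L (n + 2) := by
  rw [seqmk_two]
  have h1 : ((1 : ℝ) / 2) ^ n ≤ 1 := pow_le_one₀ (by norm_num) (by norm_num)
  have h2 : (L - c) * (1 / 2) ^ n ≤ (L - c) * 1 := mul_le_mul_of_nonneg_left h1 (by linarith)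
  linarith

theorem seqmk_tendsto (a b c L : ℝ) : Tendsto (seqmk a b c L) atTop (𝓝 L) := by
  rw [← tendsto_add_atTop_iff_nat 2]
  have h : Tendsto (fun n : ℕ => ((1 : ℝ) / 2) ^ n) atTop (𝓝 0) :=
    tendsto_pow_atTop_nhds_zero_of_lt_one (by norm_num) (by norm_num)
  have h2 : Tendsto (fun n : ℕ => L - (L - c) * ((1 : ℝ) / 2) ^ n) atTop
      (𝓝 (L - (L - c) * 0)) := (h.const_mul (L - c)).const_sub L
  rw [mul_zero, sub_zero] at h2
  exact h2

/-- `g s e` is `D (lp O V s) (lp U V e)` for a cell with `D O U = σ`, `D O V = τ`,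
`D U V = -n1`, `D V V = -n2`. -/
theorem seqs (σ τ n1 n2 α : ℝ) (g : ℝ → ℝ → ℝ)
    (hg : ∀ s e, g s e = (1 - e) * (σ - s * (σ + n1)) + e * (τ - s * (τ + n2)))
    (hσ : 0 < σ) (hτ : σ < τ) (h1 : 0 < n1) (h2 : 0 < n2) (h12 : σ + n1 ≤ τ + n2)
    (hα0 : 0 < α) (hα1 : α < 1) (hρ : 0 < g α 1) (hρ2 : g α 1 ≤ τ / 2)
    (hmon : g α 0 < g α 1) :
    ∃ s e : ℕ → ℝ, s 0 = 0 ∧ e 0 = 0 ∧ StrictMono s ∧ StrictMono e ∧ (∀ k, s k < α) ∧
      (∀ k, e k < 1) ∧ Tendsto s atTop (𝓝 α) ∧ Tendsto e atTop (𝓝 1) ∧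
      (∀ k, 0 < g (s k) (e k)) ∧ (∀ k, 0 < g (s (k + 1)) (e k)) ∧
      g (s 1) (e 0) ≤ 2 / 3 * τ ∧ ∀ k, g (s (k + 1)) (e (k + 1)) ≤ 2 / 3 * τ := by
  set A : ℝ := σ + n1 with hA
  set B : ℝ := τ + n2 with hB
  have hA0 : 0 < A := by linarith
  have hB0 : 0 < B := by linarith
  rw [hg] at hρ hρ2
  rw [hg, hg] at hmon
  -- the number s#
  set t : ℝ := τ / (3 * B) with ht
  have htB : t * B = τ / 3 := by rw [ht]; field_simp
  have ht0 : 0 < t := div_pos (by linarith) (by linarith)
  have htα : 3 / 2 * t ≤ α := by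
    by_contra hcon
    push Not at hcon
    have := mul_lt_mul_of_pos_right hcon hB0
    linarith
  set u : ℝ := σ / (2 * A) with hu
  have huA : u * A = σ / 2 := by rw [hu]; field_simp
  have hu0 : 0 < u := div_pos hσ (by linarith)
  set s1 : ℝ := min t u with hs1
  have hs10 : 0 < s1 := lt_min ht0 hu0
  have hs1t : s1 ≤ t := min_le_left _ _
  have hs1u : s1 ≤ u := min_le_right _ _
  -- f1 > f0 up to α
  have hd : ∀ s ≤ α, 0 < (τ - s * B) - (σ - s * A) := by
    intro s hs
    have h3 : s * (B - A) ≤ α * (B - A) := mul_le_mul_of_nonneg_right hs (by linarith)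
    linarith
  have hs1A : s1 * A ≤ σ / 2 := by
    rw [← huA]; exact mul_le_mul_of_nonneg_right hs1u hA0.le
  have hs1B : s1 * B ≤ τ / 3 := by
    rw [← htB]; exact mul_le_mul_of_nonneg_right hs1t hB0.le
  have hF0 : 0 < σ - s1 * A := by linarith
  have hF1 : σ - s1 * A < 2 / 3 * τ := by
    rcases min_choice t u with h | h
    · have := hd t (by linarith)
      rw [hs1, h]
      linarith
    · rw [hs1, h, huA]
      linarith
  have hF2 : 2 / 3 * τ ≤ τ - s1 * B := by linarith
  set F : ℝ := σ - s1 * A with hF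
  set G : ℝ := τ - s1 * B with hG
  set c : ℝ := (F + 2 / 3 * τ) / 2 with hc
  have hGF : 0 < G - F := by linarith
  set e1 : ℝ := (c - F) / (G - F) with he1
  have he1' : e1 * (G - F) = c - F := div_mul_cancel₀ _ hGF.ne'
  have he10 : 0 < e1 := div_pos (by linarith) hGF
  have he11 : e1 < 1 := (div_lt_one hGF).2 (by linarith)
  set s2 : ℝ := t + s1 / 4 with hs2
  have hs12 : s1 < s2 := by linarith
  have hs2α : s2 < α := by linarith
  -- e*
  set P : ℝ := σ - α * A with hP
  set Q : ℝ := τ - α * B with hQ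
  have hQ0 : 0 < Q := by linarith
  have hPQ : P < Q := by linarith
  set es : ℝ := 1 - Q / (2 * (Q - P)) with hes
  have hes1 : es < 1 := by
    have : 0 < Q / (2 * (Q - P)) := div_pos hQ0 (by linarith)
    linarith
  have hesP : (1 - es) * (Q - P) = Q / 2 := by
    rw [hes]
    have : Q - P ≠ 0 := by linarith
    field_simp
    ring
  set e2 : ℝ := max es ((1 + e1) / 2) with he2
  have he21 : e2 < 1 := max_lt hes1 (by linarith)
  have he12 : e1 < e2 := lt_of_lt_of_le (by linarith) (le_max_right _ _)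
  have hese : es ≤ e2 := le_max_left _ _
  -- positivity in the tail
  have hpos : ∀ s e : ℝ, s ≤ α → e2 ≤ e → e < 1 → 0 < g s e := by
    intro s e hs he he'
    rw [hg]
    have h3 : s * A ≤ α * A := mul_le_mul_of_nonneg_right hs hA0.le
    have h4 : s * B ≤ α * B := mul_le_mul_of_nonneg_right hs hB0.le
    have h5 : (1 - e) * P ≤ (1 - e) * (σ - s * A) :=
      mul_le_mul_of_nonneg_left (by linarith) (by linarith)
    have h6 : e * Q ≤ e * (τ - s * B) :=
      mul_le_mul_of_nonneg_left (by linarith) (by linarith)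
    have h7 : (1 - e) * (Q - P) ≤ (1 - es) * (Q - P) :=
      mul_le_mul_of_nonneg_right (by linarith) (by linarith)
    have h8 : (1 - e) * P + e * Q = Q - (1 - e) * (Q - P) := by ring
    linarith
  refine ⟨seqmk 0 s1 s2 α, seqmk 0 e1 e2 1, rfl, rfl, seqmk_strictMono hs10 hs12 hs2α,
    seqmk_strictMono he10 he12 he21, seqmk_lt hs10 hs12 hs2α, seqmk_lt he10 he12 he21,
    seqmk_tendsto _ _ _ _, seqmk_tendsto _ _ _ _, ?_, ?_, ?_, ?_⟩
  · intro k
    match k with
    | 0 =>
      change 0 < g 0 0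
      rw [hg]; linarith
    | 1 =>
      change 0 < g s1 e1
      rw [hg]
      have : (1 - e1) * F + e1 * G = c := by linarith
      rw [this]; linarith
    | (k + 2) =>
      exact hpos _ _ (seqmk_lt hs10 hs12 hs2α _).le (seqmk_ge he21 k)
        (seqmk_lt he10 he12 he21 _)
  · intro k
    match k with
    | 0 =>
      change 0 < g s1 0
      rw [hg]; linarith
    | 1 =>
      have e : seqmk 0 s1 s2 α (1 + 1) = s2 := by
        change α - (α - s2) * (1 / 2) ^ 0 = s2
        rw [pow_zero]; ring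
      rw [e]
      change 0 < g s2 e1
      rw [hg]
      have h3 : (1 - e1) * F + e1 * G = c := by linarith
      have h4 : (s2 - s1) * ((1 - e1) * A + e1 * B) ≤ (s2 - s1) * B := by
        apply mul_le_mul_of_nonneg_left _ (by linarith)
        have := mul_nonneg (by linarith : (0:ℝ) ≤ 1 - e1) (by linarith : 0 ≤ B - A)
        linarith
      have h5 : (1 - e1) * (σ - s2 * A) + e1 * (τ - s2 * B) =
          (1 - e1) * F + e1 * G - (s2 - s1) * ((1 - e1) * A + e1 * B) := by
        rw [hF, hG]; ring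
      have h6 : (s2 - s1) * B = τ / 3 - 3 / 4 * (s1 * B) := by
        rw [hs2, ← htB]; ring
      have h7 : 0 < s1 * B := mul_pos hs10 hB0
      linarith
    | (k + 2) =>
      exact hpos _ _ (seqmk_lt hs10 hs12 hs2α _).le (seqmk_ge he21 k)
        (seqmk_lt he10 he12 he21 _)
  · change g s1 0 ≤ _
    rw [hg]; linarith
  · intro k
    match k with
    | 0 =>
      change g s1 e1 ≤ _
      rw [hg]
      have : (1 - e1) * F + e1 * G = c := by linarith
      rw [this]; linarith
    | (k + 1) =>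
      have hs : seqmk 0 s1 s2 α (k + 2) ≤ α := (seqmk_lt hs10 hs12 hs2α _).le
      have hs' : s2 ≤ seqmk 0 s1 s2 α (k + 2) := seqmk_ge hs2α k
      have he : seqmk 0 e1 e2 1 (k + 2) < 1 := seqmk_lt he10 he12 he21 _
      change g (seqmk 0 s1 s2 α (k + 2)) (seqmk 0 e1 e2 1 (k + 2)) ≤ _
      generalize seqmk 0 s1 s2 α (k + 2) = s at *
      generalize seqmk 0 e1 e2 1 (k + 2) = e at *
      rw [hg]
      have h3 := hd s hs
      have h4 : 0 ≤ (1 - e) * ((τ - s * B) - (σ - s * A)) := mul_nonneg (by linarith) h3.le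
      have h5 : t * B ≤ s * B := mul_le_mul_of_nonneg_right (by linarith) hB0.le
      linarith

end Pool.Agent.GreatArcs
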