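import Mathlib
import Pool.Agent.GreatArcs.Base
import Pool.Agent.GreatArcs.Wall

/-! # Module ZIG: cutting off one cell

`below l1 l2 Z S E` is the part of `{l1 ≥ 0} ∩ {l2 ≥ 0}` on or below the wall `[S,E]`, where `S` lies
on the line `l1 = 0` and `E` on the line `l2 = 0`, without `[S, Nn E S]` and without `Z`. -/

set_option autoImplicit false

namespace Pool.Agent.GreatArcs

/-- affine function with coefficients `k` -/
def aff (k : ℝ × ℝ × ℝ) (X : Pt) : ℝ := k.1 + k.2.1 * X.1 + k.2.2 * X.2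

/-- points on or below the wall `[S,E]` -/
noncomputable def below (l1 l2 : ℝ × ℝ × ℝ) (Z : Set Pt) (S E : Pt) : Set Pt :=
  {X | 0 ≤ aff l1 X ∧ 0 ≤ aff l2 X ∧ 0 ≤ orr S E X} \ (seg S (Nn E S) ∪ Z)

/-- the point with coordinates `a`, `b` in the frame `(O; U, V)` -/
def zpt (O U V : Pt) (a b : ℝ) : Pt :=
  (O.1 + a * (U.1 - O.1) + b * (V.1 - O.1), O.2 + a * (U.2 - O.2) + b * (V.2 - O.2))

theorem zpt_inj {O U V : Pt} (h : orr O U V ≠ 0) {a b a' b' : ℝ}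
    (e : zpt O U V a b = zpt O U V a' b') : a = a' ∧ b = b' := by
  have e1 := congrArg Prod.fst e
  have e2 := congrArg Prod.snd e
  simp only [zpt] at e1 e2
  have h1 : (a - a') * orr O U V = 0 := by
    unfold orr
    linear_combination (V.2 - O.2) * e1 - (V.1 - O.1) * e2
  have h2 : (b - b') * orr O U V = 0 := by
    unfold orr
    linear_combination (U.1 - O.1) * e2 - (U.2 - O.2) * e1
  constructor
  · have := (mul_eq_zero.1 h1).resolve_right h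
    linarith
  · have := (mul_eq_zero.1 h2).resolve_right h
    linarith

theorem exists_zpt {O U V : Pt} (h : orr O U V ≠ 0) (X : Pt) : ∃ a b : ℝ, X = zpt O U V a b := by
  refine ⟨orr O X V / orr O U V, orr O U X / orr O U V, ?_⟩
  have h1 : orr O X V / orr O U V * orr O U V = orr O X V := div_mul_cancel₀ _ h
  have h2 : orr O U X / orr O U V * orr O U V = orr O U X := div_mul_cancel₀ _ h
  generalize orr O X V / orr O U V = a at *
  generalize orr O U X / orr O U V = b at *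
  ext
  · apply mul_right_cancel₀ h
    simp only [zpt]
    have e : orr O X V * (U.1 - O.1) + orr O U X * (V.1 - O.1) = (X.1 - O.1) * orr O U V := by
      unfold orr; ring
    linear_combination -(U.1 - O.1) * h1 - (V.1 - O.1) * h2 - e
  · apply mul_right_cancel₀ h
    simp only [zpt]
    have e : orr O X V * (U.2 - O.2) + orr O U X * (V.2 - O.2) = (X.2 - O.2) * orr O U V := by
      unfold orr; ring
    linear_combination -(U.2 - O.2) * h1 - (V.2 - O.2) * h2 - e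

theorem zpt_mem_tri {O U V : Pt} (h : orr O U V ≠ 0) (a b : ℝ) :
    zpt O U V a b ∈ tri ⟨O, U, V⟩ ↔ 0 ≤ a ∧ 0 ≤ b ∧ a + b ≤ 1 := by
  constructor
  · rintro ⟨a', b', h1, h2, h3, e⟩
    obtain ⟨rfl, rfl⟩ := zpt_inj (a := a) (b := b) (a' := a') (b' := b') h e
    exact ⟨h1, h2, h3⟩
  · rintro ⟨h1, h2, h3⟩
    exact ⟨a, b, h1, h2, h3, rfl⟩

theorem zpt_mem_segV {O U V : Pt} (h : orr O U V ≠ 0) {s1 s2 : ℝ} (hs : s1 ≤ s2) (a b : ℝ) :
    zpt O U V a b ∈ seg (lp O V s1) (lp O V s2) ↔ a = 0 ∧ s1 ≤ b ∧ b ≤ s2 := by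
  constructor
  · rintro ⟨t, h0, h1, e⟩
    have e' : lp (lp O V s1) (lp O V s2) t = zpt O U V 0 (s1 + t * (s2 - s1)) := by
      ext <;> simp only [zpt, lp_fst, lp_snd] <;> ring
    rw [e'] at e
    obtain ⟨rfl, rfl⟩ := zpt_inj h e
    have h2 := mul_nonneg h0 (sub_nonneg.2 hs)
    have h3 := mul_nonneg (sub_nonneg.2 h1) (sub_nonneg.2 hs)
    exact ⟨rfl, by linarith, by linarith⟩
  · rintro ⟨rfl, h1, h2⟩
    rcases hs.lt_or_eq with h3 | h3
    · refine ⟨(b - s1) / (s2 - s1), div_nonneg (by linarith) (by linarith),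
        (div_le_one (by linarith)).2 (by linarith), ?_⟩
      have h4 : (b - s1) / (s2 - s1) * (s2 - s1) = b - s1 := div_mul_cancel₀ _ (by linarith)
      ext
      · simp only [zpt, lp_fst]
        linear_combination (O.1 - V.1) * h4
      · simp only [zpt, lp_snd]
        linear_combination (O.2 - V.2) * h4
    · refine ⟨0, le_rfl, zero_le_one, ?_⟩
      have h4 : b = s1 := by linarith
      subst h4
      ext <;> simp only [zpt, lp_fst, lp_snd] <;> ring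

theorem zpt_swap (O U V : Pt) (a b : ℝ) : zpt O U V a b = zpt O V U b a := by
  ext <;> simp only [zpt] <;> ring

theorem orr_swap (O U V : Pt) : orr O V U = - orr O U V := by
  unfold orr; ring

theorem zpt_mem_segU {O U V : Pt} (h : orr O U V ≠ 0) {s1 s2 : ℝ} (hs : s1 ≤ s2) (a b : ℝ) :
    zpt O U V a b ∈ seg (lp O U s1) (lp O U s2) ↔ b = 0 ∧ s1 ≤ a ∧ a ≤ s2 := by
  rw [zpt_swap]
  refine zpt_mem_segV ?_ hs b a
  rw [orr_swap]
  exact neg_ne_zero.2 h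

theorem aff_zpt (k : ℝ × ℝ × ℝ) (O U V : Pt) (a b : ℝ) :
    aff k (zpt O U V a b) = (1 - a - b) * aff k O + a * aff k U + b * aff k V := by
  simp only [aff, zpt]; ring

/-- cutting off the cell `(E; S', S)` -/
theorem stepA (l1 l2 : ℝ × ℝ × ℝ) (Z : Set Pt) (S S' E : Pt) (h1S : aff l1 S = 0)
    (h1S' : aff l1 S' = 0) (h1E : 0 < aff l1 E) (h2E : aff l2 E = 0) (h2S : 0 < aff l2 S)
    (h2S' : 0 < aff l2 S') (hor : 0 < orr S E S') (hD : 0 < D S E) (hD' : 0 < D S' E)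
    (hZ : ∀ X ∈ Z, 0 ≤ aff l1 X → 0 ≤ aff l2 X → 0 < orr S' E X) :
    below l1 l2 Z S E = (reg ⟨E, S', S⟩ ∪ Fa S' E) ∪ below l1 l2 Z S' E ∧
      Disjoint (reg ⟨E, S', S⟩) (Fa S' E) ∧
      Disjoint (reg ⟨E, S', S⟩) (below l1 l2 Z S' E) ∧
      Disjoint (Fa S' E) (below l1 l2 Z S' E) := by
  have hw : orr E S' S = orr S E S' := by unfold orr; ring
  have hne : orr E S' S ≠ 0 := by rw [hw]; exact hor.ne'
  obtain ⟨n1, n2, -, -, -⟩ := wall hD
  obtain ⟨m1, m2, -, -, -⟩ := wall (O := E) (V := S) (by rw [D_comm]; exact hD)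
  obtain ⟨n1', n2', -, -, -⟩ := wall hD'
  obtain ⟨m1', m2', -, -, -⟩ := wall (O := E) (V := S') (by rw [D_comm]; exact hD')
  have c1 : ∀ a b, zpt E S' S a b ∈ seg S (Nn E S) ↔ a = 0 ∧ nu E S ≤ b ∧ b ≤ 1 := by
    intro a b
    rw [seg_comm]
    have := zpt_mem_segV hne (s1 := nu E S) (s2 := 1) (by linarith) a b
    rwa [lp_one] at this
  have c2 : ∀ a b, zpt E S' S a b ∈ seg E (Nn S' E) ↔ b = 0 ∧ 0 ≤ a ∧ a ≤ 1 - nu S' E := by
    intro a b
    have e1 : Nn S' E = lp E S' (1 - nu S' E) := lp_swap _ _ _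
    rw [e1]
    have := zpt_mem_segU hne (s1 := 0) (s2 := 1 - nu S' E) (by linarith) a b
    rwa [lp_zero] at this
  have c3 : ∀ a b, zpt E S' S a b ∈ Fa S' E ↔ b = 0 ∧ nu E S' ≤ a ∧ a ≤ 1 - nu S' E := by
    intro a b
    have e1 : Nn S' E = lp E S' (1 - nu S' E) := lp_swap _ _ _
    unfold Fa
    rw [e1, seg_comm]
    exact zpt_mem_segU hne (by linarith) a b
  have c4 : ∀ a b, zpt E S' S a b ∈ seg S' (Nn E S') ↔ b = 0 ∧ nu E S' ≤ a ∧ a ≤ 1 := by
    intro a b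
    rw [seg_comm]
    have := zpt_mem_segU hne (s1 := nu E S') (s2 := 1) (by linarith) a b
    rwa [lp_one] at this
  have c5 : ∀ a b, zpt E S' S a b ∈ seg (Nn E S) S ↔ a = 0 ∧ nu E S ≤ b ∧ b ≤ 1 := by
    intro a b
    rw [seg_comm]
    exact c1 a b
  have f1 : ∀ a b, aff l1 (zpt E S' S a b) = (1 - a - b) * aff l1 E := by
    intro a b
    rw [aff_zpt, h1S, h1S']; ring
  have f2 : ∀ a b, aff l2 (zpt E S' S a b) = a * aff l2 S' + b * aff l2 S := by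
    intro a b
    rw [aff_zpt, h2E]; ring
  have f3 : ∀ a b, orr S E (zpt E S' S a b) = a * orr S E S' := by
    intro a b
    simp only [orr, zpt]; ring
  have f4 : ∀ a b, orr S' E (zpt E S' S a b) = -b * orr S E S' := by
    intro a b
    simp only [orr, zpt]; ring
  have r : ∀ a b, zpt E S' S a b ∈ reg ⟨E, S', S⟩ ↔ (0 ≤ a ∧ 0 ≤ b ∧ a + b ≤ 1) ∧
      ¬ (b = 0 ∧ 0 ≤ a ∧ a ≤ 1 - nu S' E) ∧ ¬ (a = 0 ∧ nu E S ≤ b ∧ b ≤ 1) := by
    intro a b
    unfold reg srem lrem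
    rw [Set.mem_sdiff, Set.mem_union, not_or, zpt_mem_tri hne]
    simp only
    rw [c2, c5]
  have g1 : ∀ a b, (0 ≤ (1 - a - b) * aff l1 E) ↔ a + b ≤ 1 := by
    intro a b
    constructor
    · intro h
      have := nonneg_of_mul_nonneg_left h h1E
      linarith
    · intro h
      exact mul_nonneg (by linarith) h1E.le
  have g3 : ∀ a, (0 ≤ a * orr S E S') ↔ 0 ≤ a := by
    intro a
    constructor
    · intro h
      exact nonneg_of_mul_nonneg_left h hor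
    · intro h
      exact mul_nonneg h hor.le
  have g4 : ∀ b, (0 ≤ -b * orr S E S') ↔ b ≤ 0 := by
    intro b
    rw [g3]
    exact neg_nonneg
  have g5 : ∀ b, (0 < -b * orr S E S') ↔ b < 0 := by
    intro b
    rw [mul_pos_iff_of_pos_right hor]
    exact neg_pos
  have L : ∀ a b, zpt E S' S a b ∈ below l1 l2 Z S E ↔
      (a + b ≤ 1 ∧ 0 ≤ a * aff l2 S' + b * aff l2 S ∧ 0 ≤ a) ∧
        ¬ (a = 0 ∧ nu E S ≤ b ∧ b ≤ 1) ∧ zpt E S' S a b ∉ Z := by
    intro a b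
    unfold below
    rw [Set.mem_sdiff, Set.mem_union, not_or, Set.mem_ofPred_eq, c1, f1, f2, f3, g1, g3]
  have R : ∀ a b, zpt E S' S a b ∈ below l1 l2 Z S' E ↔
      (a + b ≤ 1 ∧ 0 ≤ a * aff l2 S' + b * aff l2 S ∧ b ≤ 0) ∧
        ¬ (b = 0 ∧ nu E S' ≤ a ∧ a ≤ 1) ∧ zpt E S' S a b ∉ Z := by
    intro a b
    unfold below
    rw [Set.mem_sdiff, Set.mem_union, not_or, Set.mem_ofPred_eq, c4, f1, f2, f4, g1, g4]
  have hZ' : ∀ a b, a + b ≤ 1 → 0 ≤ a * aff l2 S' + b * aff l2 S → 0 ≤ b →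
      zpt E S' S a b ∉ Z := by
    intro a b h1 h2 h3 h4
    have := hZ _ h4 (by rw [f1, g1]; exact h1) (by rw [f2]; exact h2)
    rw [f4, g5] at this
    linarith
  refine ⟨?_, ?_, ?_, ?_⟩
  · ext X
    obtain ⟨a, b, rfl⟩ := exists_zpt hne X
    rw [Set.mem_union, Set.mem_union, L, R, r, c3]
    constructor
    · rintro ⟨⟨h1, h2, h3⟩, h4, h5⟩
      rcases lt_trichotomy b 0 with hb | hb | hb
      · right
        exact ⟨⟨h1, h2, hb.le⟩, fun h => hb.ne h.1, h5⟩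
      · rcases lt_or_ge (1 - nu S' E) a with ha | ha
        · left; left
          refine ⟨⟨h3, hb.ge, h1⟩, fun h => ?_, h4⟩
          linarith [h.2.2]
        · rcases lt_or_ge a (nu E S') with ha' | ha'
          · right
            refine ⟨⟨h1, h2, hb.le⟩, fun h => ?_, h5⟩
            linarith [h.2.1]
          · left; right
            exact ⟨hb, ha', ha⟩
      · left; left
        exact ⟨⟨h3, hb.le, h1⟩, fun h => hb.ne' h.1, h4⟩
    · rintro ((⟨⟨h1, h2, h3⟩, h4, h5⟩ | ⟨h1, h2, h3⟩) | ⟨⟨h1, h2, h3⟩, h4, h5⟩)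
      · have h6 : 0 ≤ a * aff l2 S' + b * aff l2 S :=
          add_nonneg (mul_nonneg h1 h2S'.le) (mul_nonneg h2 h2S.le)
        exact ⟨⟨h3, h6, h1⟩, h5, hZ' a b h3 h6 h2⟩
      · have h0 : 0 < a := by linarith
        have h6 : 0 ≤ a * aff l2 S' + b * aff l2 S := by
          rw [h1, zero_mul, add_zero]
          exact mul_nonneg h0.le h2S'.le
        have h7 : a + b ≤ 1 := by linarith
        exact ⟨⟨h7, h6, h0.le⟩, fun h => h0.ne' h.1, hZ' a b h7 h6 h1.ge⟩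
      · have h6 : b * aff l2 S ≤ 0 := mul_nonpos_of_nonpos_of_nonneg h3 h2S.le
        have h7 : 0 ≤ a := nonneg_of_mul_nonneg_left (by linarith : 0 ≤ a * aff l2 S') h2S'
        refine ⟨⟨h1, h2, h7⟩, fun h => ?_, h5⟩
        linarith [h.2.1]
  · rw [Set.disjoint_left]
    intro X
    obtain ⟨a, b, rfl⟩ := exists_zpt hne X
    rw [r, c3]
    rintro ⟨⟨h1, h2, h3⟩, h4, h5⟩ ⟨h6, h7, h8⟩
    exact h4 ⟨h6, h1, h8⟩
  · rw [Set.disjoint_left]
    intro X
    obtain ⟨a, b, rfl⟩ := exists_zpt hne X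
    rw [r, R]
    rintro ⟨⟨h1, h2, h3⟩, h4, h5⟩ ⟨⟨h6, h7, h8⟩, h9, h10⟩
    have hb : b = 0 := le_antisymm h8 h2
    have ha : ¬ a ≤ 1 - nu S' E := fun h => h4 ⟨hb, h1, h⟩
    exact h9 ⟨hb, by linarith, by linarith⟩
  · rw [Set.disjoint_left]
    intro X
    obtain ⟨a, b, rfl⟩ := exists_zpt hne X
    rw [R, c3]
    rintro ⟨h6, h7, h8⟩ ⟨⟨h1, h2, h3⟩, h4, h5⟩
    exact h4 ⟨h6, h7, by linarith⟩

/-- cutting off the cell `(S; E, E')` -/
theorem stepB (l1 l2 : ℝ × ℝ × ℝ) (Z : Set Pt) (S E E' : Pt) (h1S : aff l1 S = 0)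
    (h2S : 0 < aff l2 S) (h2E : aff l2 E = 0) (h2E' : aff l2 E' = 0) (h1E : 0 < aff l1 E)
    (h1E' : 0 < aff l1 E') (hor : 0 < orr S E E') (hD : 0 < D S E) (hD' : 0 < D S E')
    (hZ : ∀ X ∈ Z, 0 ≤ aff l1 X → 0 ≤ aff l2 X → 0 < orr S E' X) :
    below l1 l2 Z S E = (reg ⟨S, E, E'⟩ ∪ Fa S E') ∪ below l1 l2 Z S E' ∧
      Disjoint (reg ⟨S, E, E'⟩) (Fa S E') ∧
      Disjoint (reg ⟨S, E, E'⟩) (below l1 l2 Z S E') ∧
      Disjoint (Fa S E') (below l1 l2 Z S E') := by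
  have hne : orr S E E' ≠ 0 := hor.ne'
  obtain ⟨n1, n2, -, -, -⟩ := wall hD
  obtain ⟨m1, m2, -, -, -⟩ := wall (O := E) (V := S) (by rw [D_comm]; exact hD)
  obtain ⟨n1', n2', -, -, -⟩ := wall hD'
  obtain ⟨m1', m2', -, -, -⟩ := wall (O := E') (V := S) (by rw [D_comm]; exact hD')
  have c1 : ∀ a b, zpt S E E' a b ∈ seg S (Nn E S) ↔ b = 0 ∧ 0 ≤ a ∧ a ≤ 1 - nu E S := by
    intro a b
    have e1 : Nn E S = lp S E (1 - nu E S) := lp_swap _ _ _
    rw [e1]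
    have := zpt_mem_segU hne (s1 := 0) (s2 := 1 - nu E S) (by linarith) a b
    rwa [lp_zero] at this
  have c2 : ∀ a b, zpt S E E' a b ∈ seg (Nn S E') E' ↔ a = 0 ∧ nu S E' ≤ b ∧ b ≤ 1 := by
    intro a b
    have := zpt_mem_segV hne (s1 := nu S E') (s2 := 1) (by linarith) a b
    rwa [lp_one] at this
  have c3 : ∀ a b, zpt S E E' a b ∈ Fa S E' ↔ a = 0 ∧ nu S E' ≤ b ∧ b ≤ 1 - nu E' S := by
    intro a b
    have e1 : Nn E' S = lp S E' (1 - nu E' S) := lp_swap _ _ _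
    unfold Fa
    rw [e1]
    exact zpt_mem_segV hne (by linarith) a b
  have c4 : ∀ a b, zpt S E E' a b ∈ seg S (Nn E' S) ↔ a = 0 ∧ 0 ≤ b ∧ b ≤ 1 - nu E' S := by
    intro a b
    have e1 : Nn E' S = lp S E' (1 - nu E' S) := lp_swap _ _ _
    rw [e1]
    have := zpt_mem_segV hne (s1 := 0) (s2 := 1 - nu E' S) (by linarith) a b
    rwa [lp_zero] at this
  have f1 : ∀ a b, aff l1 (zpt S E E' a b) = a * aff l1 E + b * aff l1 E' := by
    intro a b
    rw [aff_zpt, h1S]; ring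
  have f2 : ∀ a b, aff l2 (zpt S E E' a b) = (1 - a - b) * aff l2 S := by
    intro a b
    rw [aff_zpt, h2E, h2E']; ring
  have f3 : ∀ a b, orr S E (zpt S E E' a b) = b * orr S E E' := by
    intro a b
    simp only [orr, zpt]; ring
  have f4 : ∀ a b, orr S E' (zpt S E E' a b) = -a * orr S E E' := by
    intro a b
    simp only [orr, zpt]; ring
  have r : ∀ a b, zpt S E E' a b ∈ reg ⟨S, E, E'⟩ ↔ (0 ≤ a ∧ 0 ≤ b ∧ a + b ≤ 1) ∧
      ¬ (b = 0 ∧ 0 ≤ a ∧ a ≤ 1 - nu E S) ∧ ¬ (a = 0 ∧ nu S E' ≤ b ∧ b ≤ 1) := by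
    intro a b
    unfold reg srem lrem
    rw [Set.mem_sdiff, Set.mem_union, not_or, zpt_mem_tri hne]
    simp only
    rw [c1, c2]
  have g1 : ∀ a b, (0 ≤ (1 - a - b) * aff l2 S) ↔ a + b ≤ 1 := by
    intro a b
    constructor
    · intro h
      have := nonneg_of_mul_nonneg_left h h2S
      linarith
    · intro h
      exact mul_nonneg (by linarith) h2S.le
  have g3 : ∀ a, (0 ≤ a * orr S E E') ↔ 0 ≤ a := by
    intro a
    constructor
    · intro h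
      exact nonneg_of_mul_nonneg_left h hor
    · intro h
      exact mul_nonneg h hor.le
  have g4 : ∀ a, (0 ≤ -a * orr S E E') ↔ a ≤ 0 := by
    intro a
    rw [g3]
    exact neg_nonneg
  have g5 : ∀ a, (0 < -a * orr S E E') ↔ a < 0 := by
    intro a
    rw [mul_pos_iff_of_pos_right hor]
    exact neg_pos
  have L : ∀ a b, zpt S E E' a b ∈ below l1 l2 Z S E ↔
      (0 ≤ a * aff l1 E + b * aff l1 E' ∧ a + b ≤ 1 ∧ 0 ≤ b) ∧
        ¬ (b = 0 ∧ 0 ≤ a ∧ a ≤ 1 - nu E S) ∧ zpt S E E' a b ∉ Z := by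
    intro a b
    unfold below
    rw [Set.mem_sdiff, Set.mem_union, not_or, Set.mem_ofPred_eq, c1, f1, f2, f3, g1, g3]
  have R : ∀ a b, zpt S E E' a b ∈ below l1 l2 Z S E' ↔
      (0 ≤ a * aff l1 E + b * aff l1 E' ∧ a + b ≤ 1 ∧ a ≤ 0) ∧
        ¬ (a = 0 ∧ 0 ≤ b ∧ b ≤ 1 - nu E' S) ∧ zpt S E E' a b ∉ Z := by
    intro a b
    unfold below
    rw [Set.mem_sdiff, Set.mem_union, not_or, Set.mem_ofPred_eq, c4, f1, f2, f4, g1, g4]
  have hZ' : ∀ a b, 0 ≤ a * aff l1 E + b * aff l1 E' → a + b ≤ 1 → 0 ≤ a →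
      zpt S E E' a b ∉ Z := by
    intro a b h1 h2 h3 h4
    have := hZ _ h4 (by rw [f1]; exact h1) (by rw [f2, g1]; exact h2)
    rw [f4, g5] at this
    linarith
  refine ⟨?_, ?_, ?_, ?_⟩
  · ext X
    obtain ⟨a, b, rfl⟩ := exists_zpt hne X
    rw [Set.mem_union, Set.mem_union, L, R, r, c3]
    constructor
    · rintro ⟨⟨h1, h2, h3⟩, h4, h5⟩
      rcases lt_trichotomy a 0 with ha | ha | ha
      · right
        exact ⟨⟨h1, h2, ha.le⟩, fun h => ha.ne h.1, h5⟩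
      · rcases lt_or_ge (1 - nu E' S) b with hb | hb
        · right
          refine ⟨⟨h1, h2, ha.le⟩, fun h => ?_, h5⟩
          linarith [h.2.2]
        · rcases lt_or_ge b (nu S E') with hb' | hb'
          · left; left
            refine ⟨⟨ha.ge, h3, h2⟩, h4, fun h => ?_⟩
            linarith [h.2.1]
          · left; right
            exact ⟨ha, hb', hb⟩
      · left; left
        exact ⟨⟨ha.le, h3, h2⟩, h4, fun h => ha.ne' h.1⟩
    · rintro ((⟨⟨h1, h2, h3⟩, h4, h5⟩ | ⟨h1, h2, h3⟩) | ⟨⟨h1, h2, h3⟩, h4, h5⟩)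
      · have h6 : 0 ≤ a * aff l1 E + b * aff l1 E' :=
          add_nonneg (mul_nonneg h1 h1E.le) (mul_nonneg h2 h1E'.le)
        exact ⟨⟨h6, h3, h2⟩, h4, hZ' a b h6 h3 h1⟩
      · have h0 : 0 < b := by linarith
        have h6 : 0 ≤ a * aff l1 E + b * aff l1 E' := by
          rw [h1, zero_mul, zero_add]
          exact mul_nonneg h0.le h1E'.le
        have h7 : a + b ≤ 1 := by linarith
        exact ⟨⟨h6, h7, h0.le⟩, fun h => h0.ne' h.1, hZ' a b h6 h7 h1.ge⟩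
      · have h6 : a * aff l1 E ≤ 0 := mul_nonpos_of_nonpos_of_nonneg h3 h1E.le
        have h7 : 0 ≤ b := nonneg_of_mul_nonneg_left (by linarith : 0 ≤ b * aff l1 E') h1E'
        refine ⟨⟨h1, h2, h7⟩, fun h => ?_, h5⟩
        exact h4 ⟨le_antisymm h3 h.2.1, h7, by linarith [h.1]⟩
  · rw [Set.disjoint_left]
    intro X
    obtain ⟨a, b, rfl⟩ := exists_zpt hne X
    rw [r, c3]
    rintro ⟨⟨h1, h2, h3⟩, h4, h5⟩ ⟨h6, h7, h8⟩
    exact h5 ⟨h6, h7, by linarith⟩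
  · rw [Set.disjoint_left]
    intro X
    obtain ⟨a, b, rfl⟩ := exists_zpt hne X
    rw [r, R]
    rintro ⟨⟨h1, h2, h3⟩, h4, h5⟩ ⟨⟨h6, h7, h8⟩, h9, h10⟩
    have ha : a = 0 := le_antisymm h8 h1
    have hb : ¬ nu S E' ≤ b := fun h => h5 ⟨ha, h, by linarith⟩
    exact h9 ⟨ha, h2, by linarith⟩
  · rw [Set.disjoint_left]
    intro X
    obtain ⟨a, b, rfl⟩ := exists_zpt hne X
    rw [R, c3]
    rintro ⟨h6, h7, h8⟩ ⟨⟨h1, h2, h3⟩, h4, h5⟩
    exact h4 ⟨h6, by linarith, h8⟩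

end Pool.Agent.GreatArcs
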