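import Mathlib
import Pool.Agent.GreatArcs.Base
import Pool.Agent.GreatArcs.Nest
import Pool.Agent.GreatArcs.Wall
import Pool.Agent.GreatArcs.Seq
import Pool.Agent.GreatArcs.Kids
import Pool.Agent.GreatArcs.Zig

/-! # Module DECOMP: the decomposition of one cell -/

set_option autoImplicit false

open Set

namespace Pool.Agent.GreatArcs

theorem isArc_Fa {O V : Pt} (h : 0 < D O V) : IsArc (Fa O V) :=
  ⟨Nn O V, Nn V O, (wall h).2.2.1, rfl⟩

/-- coefficients of `X ↦ orr O X V` -/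
def dcL1 (c : Cell) : ℝ × ℝ × ℝ :=
  (-c.O.1 * (c.V.2 - c.O.2) + (c.V.1 - c.O.1) * c.O.2, c.V.2 - c.O.2, -(c.V.1 - c.O.1))

/-- coefficients of `X ↦ orr X U V` -/
def dcL2 (c : Cell) : ℝ × ℝ × ℝ :=
  (c.U.1 * c.V.2 - c.V.1 * c.U.2, c.U.2 - c.V.2, c.V.1 - c.U.1)

theorem dc_aff1 (c : Cell) (X : Pt) : aff (dcL1 c) X = orr c.O X c.V := by
  simp only [aff, dcL1, orr]; ring

theorem dc_aff2 (c : Cell) (X : Pt) : aff (dcL2 c) X = orr X c.U c.V := by
  simp only [aff, dcL2, orr]; ring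

theorem dc_l1_S (c : Cell) (s : ℝ) : orr c.O (lp c.O c.V s) c.V = 0 := by
  simp only [orr, lp_fst, lp_snd]; ring

theorem dc_l1_E (c : Cell) (e : ℝ) :
    orr c.O (lp c.U c.V e) c.V = (1 - e) * orr c.O c.U c.V := by
  simp only [orr, lp_fst, lp_snd]; ring

theorem dc_l2_S (c : Cell) (s : ℝ) :
    orr (lp c.O c.V s) c.U c.V = (1 - s) * orr c.O c.U c.V := by
  simp only [orr, lp_fst, lp_snd]; ring

theorem dc_l2_E (c : Cell) (e : ℝ) : orr (lp c.U c.V e) c.U c.V = 0 := by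
  simp only [orr, lp_fst, lp_snd]; ring

theorem dc_l3_S (c : Cell) (s : ℝ) :
    orr c.O c.U (lp c.O c.V s) = s * orr c.O c.U c.V := by
  simp only [orr, lp_fst, lp_snd]; ring

theorem dc_l3_E (c : Cell) (e : ℝ) :
    orr c.O c.U (lp c.U c.V e) = e * orr c.O c.U c.V := by
  simp only [orr, lp_fst, lp_snd]; ring

theorem dc_SES (c : Cell) (s e r : ℝ) :
    orr (lp c.O c.V s) (lp c.U c.V e) (lp c.O c.V r) = (1 - e) * (r - s) * orr c.O c.U c.V := by
  simp only [orr, lp_fst, lp_snd]; ring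

theorem dc_SEE (c : Cell) (s e r : ℝ) :
    orr (lp c.O c.V s) (lp c.U c.V e) (lp c.U c.V r) = (1 - s) * (r - e) * orr c.O c.U c.V := by
  simp only [orr, lp_fst, lp_snd]; ring

/-- a point of the plane with `l1 = 0` is on the line `OV` -/
theorem dc_on_OV {c : Cell} (hw : 0 < orr c.O c.U c.V) {X : Pt} (h : orr c.O X c.V = 0) :
    ∃ t, X = lp c.O c.V t := by
  refine ⟨orr c.O c.U X / orr c.O c.U c.V, ?_⟩
  have hw' := hw.ne'
  ext
  · simp only [lp_fst]
    rw [← sub_eq_zero]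
    have : (X.1 - (c.O.1 + orr c.O c.U X / orr c.O c.U c.V * (c.V.1 - c.O.1))) =
        (orr c.O X c.V) * (c.U.1 - c.O.1) / orr c.O c.U c.V := by
      field_simp
      simp only [orr]; ring
    rw [this, h]; simp
  · simp only [lp_snd]
    rw [← sub_eq_zero]
    have : (X.2 - (c.O.2 + orr c.O c.U X / orr c.O c.U c.V * (c.V.2 - c.O.2))) =
        (orr c.O X c.V) * (c.U.2 - c.O.2) / orr c.O c.U c.V := by
      field_simp
      simp only [orr]; ring
    rw [this, h]; simp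

/-- barycentric coordinates -/
theorem dc_cramer {c : Cell} (hw : 0 < orr c.O c.U c.V) (X : Pt) :
    X = (c.O.1 + (orr c.O X c.V / orr c.O c.U c.V) * (c.U.1 - c.O.1) +
          (orr c.O c.U X / orr c.O c.U c.V) * (c.V.1 - c.O.1),
         c.O.2 + (orr c.O X c.V / orr c.O c.U c.V) * (c.U.2 - c.O.2) +
          (orr c.O c.U X / orr c.O c.U c.V) * (c.V.2 - c.O.2)) := by
  have hw' := hw.ne'
  ext
  · simp only
    field_simp
    simp only [orr]; ring
  · simp only
    field_simp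
    simp only [orr]; ring

theorem dc_sum (c : Cell) (X : Pt) :
    orr c.O X c.V + orr X c.U c.V + orr c.O c.U X = orr c.O c.U c.V := by
  simp only [orr]; ring

/-- the closed triangle as an intersection of half-planes -/
theorem dc_tri_iff {c : Cell} (hw : 0 < orr c.O c.U c.V) (X : Pt) :
    X ∈ tri c ↔ 0 ≤ orr c.O X c.V ∧ 0 ≤ orr X c.U c.V ∧ 0 ≤ orr c.O c.U X := by
  constructor
  · rintro ⟨a, b, ha, hb, hab, rfl⟩
    have e1 : orr c.O (c.O.1 + a * (c.U.1 - c.O.1) + b * (c.V.1 - c.O.1),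
         c.O.2 + a * (c.U.2 - c.O.2) + b * (c.V.2 - c.O.2)) c.V = a * orr c.O c.U c.V := by
      simp only [orr]; ring
    have e2 : orr (c.O.1 + a * (c.U.1 - c.O.1) + b * (c.V.1 - c.O.1),
         c.O.2 + a * (c.U.2 - c.O.2) + b * (c.V.2 - c.O.2)) c.U c.V =
          (1 - a - b) * orr c.O c.U c.V := by
      simp only [orr]; ring
    have e3 : orr c.O c.U (c.O.1 + a * (c.U.1 - c.O.1) + b * (c.V.1 - c.O.1),
         c.O.2 + a * (c.U.2 - c.O.2) + b * (c.V.2 - c.O.2)) = b * orr c.O c.U c.V := by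
      simp only [orr]; ring
    rw [e1, e2, e3]
    exact ⟨mul_nonneg ha hw.le, mul_nonneg (by linarith) hw.le, mul_nonneg hb hw.le⟩
  · rintro ⟨h1, h2, h3⟩
    refine ⟨orr c.O X c.V / orr c.O c.U c.V, orr c.O c.U X / orr c.O c.U c.V,
      div_nonneg h1 hw.le, div_nonneg h3 hw.le, ?_, dc_cramer hw X⟩
    rw [← add_div, div_le_one hw]
    have := dc_sum c X
    linarith

/-- points of `lrem` -/
theorem dc_lrem_pos {c : Cell} {X : Pt} (h1 : nu c.O c.V < 1) (hX : X ∈ lrem c) :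
    ∃ r, nu c.O c.V ≤ r ∧ r ≤ 1 ∧ X = lp c.O c.V r := by
  obtain ⟨t, h0, h1', rfl⟩ := hX
  refine ⟨nu c.O c.V + t * (1 - nu c.O c.V), ?_, ?_, ?_⟩
  · have := mul_nonneg h0 (sub_nonneg.2 h1.le); linarith
  · nlinarith [mul_nonneg (sub_nonneg.2 h1') (sub_nonneg.2 h1.le)]
  · ext <;> simp only [Nn, lp_fst, lp_snd] <;> ring

theorem dc_mem_lrem {c : Cell} {r : ℝ} (h1 : nu c.O c.V < 1) (hr : nu c.O c.V ≤ r)
    (hr1 : r ≤ 1) : lp c.O c.V r ∈ lrem c := by
  have h1' : (0 : ℝ) < 1 - nu c.O c.V := by linarith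
  refine ⟨(r - nu c.O c.V) / (1 - nu c.O c.V), div_nonneg (by linarith) h1'.le, ?_, ?_⟩
  · rw [div_le_one h1']; linarith
  · have h2 := h1'.ne'
    ext
    · simp only [Nn, lp_fst]
      field_simp
      ring
    · simp only [Nn, lp_snd]
      field_simp
      ring

/-- a zigzag in a cell -/
structure ZZ (c : Cell) (s e : ℕ → ℝ) : Prop where
  s0 : s 0 = 0
  e0 : e 0 = 0
  hs : StrictMono s
  he : StrictMono e
  hsα : ∀ k, s k < nu c.O c.V
  he1 : ∀ k, e k < 1
  slim : Filter.Tendsto s Filter.atTop (nhds (nu c.O c.V))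
  elim : Filter.Tendsto e Filter.atTop (nhds 1)
  D1 : ∀ k, 0 < D (lp c.O c.V (s k)) (lp c.U c.V (e k))
  D2 : ∀ k, 0 < D (lp c.O c.V (s (k + 1))) (lp c.U c.V (e k))
  D3 : D (lp c.O c.V (s 1)) (lp c.U c.V (e 0)) ≤ 2 / 3 * D c.O c.V
  D4 : ∀ k, D (lp c.O c.V (s (k + 1))) (lp c.U c.V (e (k + 1))) ≤ 2 / 3 * D c.O c.V

theorem exists_ZZ {c : Cell} (hc : Valid c) : ∃ s e : ℕ → ℝ, ZZ c s e := by
  obtain ⟨hσ, hτ, hUV, h12, hmon, hw⟩ := valid_facts hc
  have hτ0 : 0 < D c.O c.V := hσ.trans hτ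
  obtain ⟨wα0, wsum, wD, wρ, wρ2⟩ := wall hτ0
  have hτ0' : 0 < D c.V c.O := by rwa [D_comm]
  have wβ0 := (wall hτ0').1
  obtain ⟨s, e, s0, e0, hs, he, hsα, he1, hslim, helim, hg1, hg2, hg3, hg4⟩ :=
    seqs (D c.O c.U) (D c.O c.V) (-D c.U c.V) (-D c.V c.V) (nu c.O c.V)
      (fun s e => D (lp c.O c.V s) (lp c.U c.V e))
      (by intro s e; simp only [D, lp_fst, lp_snd]; ring) hσ hτ (by linarith)
      (by have := D_self_neg c.V; linarith) (by linarith) wα0 (by linarith)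
      (by simpa [Nn] using wρ) (by simpa [Nn] using wρ2) (by simpa [Nn] using hmon)
  exact ⟨s, e, s0, e0, hs, he, hsα, he1, hslim, helim, hg1, hg2, hg3, hg4⟩

/-- cut points on the large wall -/
noncomputable def dcS (c : Cell) (s : ℕ → ℝ) (n : ℕ) : Pt := lp c.O c.V (s ((n + 1) / 2))

/-- cut points on the third side -/
noncomputable def dcE (c : Cell) (e : ℕ → ℝ) (n : ℕ) : Pt := lp c.U c.V (e (n / 2))

/-- the children -/
noncomputable def dcKid (c : Cell) (s e : ℕ → ℝ) (n : ℕ) : Cell :=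
  if Even n then ⟨dcE c e n, dcS c s (n + 1), dcS c s n⟩ else ⟨dcS c s n, dcE c e n, dcE c e (n + 1)⟩

/-- the arcs -/
noncomputable def dcArc (c : Cell) (s e : ℕ → ℝ) (n : ℕ) : Set Pt :=
  Fa (dcS c s (n + 1)) (dcE c e (n + 1))

/-- what remains -/
noncomputable def dcA (c : Cell) (s e : ℕ → ℝ) (n : ℕ) : Set Pt :=
  below (dcL1 c) (dcL2 c) (lrem c) (dcS c s n) (dcE c e n)

theorem dcKid_even (c : Cell) (s e : ℕ → ℝ) (k : ℕ) :
    dcKid c s e (2 * k) =
      ⟨lp c.U c.V (e k), lp c.O c.V (s (k + 1)), lp c.O c.V (s k)⟩ := by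
  have h1 : Even (2 * k) := even_two_mul k
  have e1 : (2 * k) / 2 = k := by omega
  have e2 : (2 * k + 1) / 2 = k := by omega
  have e3 : (2 * k + 1 + 1) / 2 = k + 1 := by omega
  simp only [dcKid, if_pos h1, dcS, dcE, e1, e2, e3]

theorem dcKid_odd (c : Cell) (s e : ℕ → ℝ) (k : ℕ) :
    dcKid c s e (2 * k + 1) =
      ⟨lp c.O c.V (s (k + 1)), lp c.U c.V (e k), lp c.U c.V (e (k + 1))⟩ := by
  have h1 : ¬ Even (2 * k + 1) := by
    rw [Nat.not_even_iff_odd]; exact odd_two_mul_add_one k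
  have e1 : (2 * k + 1) / 2 = k := by omega
  have e3 : (2 * k + 1 + 1) / 2 = k + 1 := by omega
  simp only [dcKid, if_neg h1, dcS, dcE, e1, e3]

theorem dcArc_even (c : Cell) (s e : ℕ → ℝ) (k : ℕ) :
    dcArc c s e (2 * k) = Fa (lp c.O c.V (s (k + 1))) (lp c.U c.V (e k)) := by
  have e2 : (2 * k + 1) / 2 = k := by omega
  have e3 : (2 * k + 1 + 1) / 2 = k + 1 := by omega
  simp only [dcArc, dcS, dcE, e2, e3]

theorem dcArc_odd (c : Cell) (s e : ℕ → ℝ) (k : ℕ) :
    dcArc c s e (2 * k + 1) = Fa (lp c.O c.V (s (k + 1))) (lp c.U c.V (e (k + 1))) := by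
  have e2 : (2 * k + 1 + 1) / 2 = k + 1 := by omega
  have e3 : (2 * k + 1 + 1 + 1) / 2 = k + 1 := by omega
  simp only [dcArc, dcS, dcE, e2, e3]

theorem dcA_even (c : Cell) (s e : ℕ → ℝ) (k : ℕ) :
    dcA c s e (2 * k) =
      below (dcL1 c) (dcL2 c) (lrem c) (lp c.O c.V (s k)) (lp c.U c.V (e k)) := by
  have e1 : (2 * k) / 2 = k := by omega
  have e2 : (2 * k + 1) / 2 = k := by omega
  simp only [dcA, dcS, dcE, e1, e2]

theorem dcA_odd (c : Cell) (s e : ℕ → ℝ) (k : ℕ) :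
    dcA c s e (2 * k + 1) =
      below (dcL1 c) (dcL2 c) (lrem c) (lp c.O c.V (s (k + 1))) (lp c.U c.V (e k)) := by
  have e2 : (2 * k + 1) / 2 = k := by omega
  have e3 : (2 * k + 1 + 1) / 2 = k + 1 := by omega
  simp only [dcA, dcS, dcE, e2, e3]

theorem nu_lt_one {c : Cell} (hc : Valid c) : nu c.O c.V < 1 := by
  obtain ⟨hσ, hτ, hUV, h12, hmon, hw⟩ := valid_facts hc
  have hτ0 : 0 < D c.O c.V := hσ.trans hτ
  have wsum := (wall hτ0).2.1
  have hτ0' : 0 < D c.V c.O := by rwa [D_comm]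
  have wβ0 := (wall hτ0').1
  linarith

namespace ZZ

variable {c : Cell} {s e : ℕ → ℝ}

theorem s_nonneg (z : ZZ c s e) (k : ℕ) : 0 ≤ s k := by
  rw [← z.s0]; exact z.hs.monotone (Nat.zero_le k)

theorem e_nonneg (z : ZZ c s e) (k : ℕ) : 0 ≤ e k := by
  rw [← z.e0]; exact z.he.monotone (Nat.zero_le k)

theorem s_pos (z : ZZ c s e) (k : ℕ) : 0 < s (k + 1) := by
  rw [← z.s0]; exact z.hs (Nat.succ_pos k)

theorem e_pos (z : ZZ c s e) (k : ℕ) : 0 < e (k + 1) := by
  rw [← z.e0]; exact z.he (Nat.succ_pos k)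

theorem stepE (z : ZZ c s e) (hc : Valid c) (k : ℕ) :
    dcA c s e (2 * k) = (reg (dcKid c s e (2 * k)) ∪ dcArc c s e (2 * k)) ∪ dcA c s e (2 * k + 1) ∧
      Disjoint (reg (dcKid c s e (2 * k))) (dcArc c s e (2 * k)) ∧
      Disjoint (reg (dcKid c s e (2 * k))) (dcA c s e (2 * k + 1)) ∧
      Disjoint (dcArc c s e (2 * k)) (dcA c s e (2 * k + 1)) := by
  have hw := (valid_facts hc).2.2.2.2.2
  have hα1 := nu_lt_one hc
  rw [dcA_even, dcKid_even, dcArc_even, dcA_odd]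
  have hs1 : s k < 1 := (z.hsα k).trans hα1
  have hs1' : s (k + 1) < 1 := (z.hsα (k + 1)).trans hα1
  have hlt : s k < s (k + 1) := z.hs (Nat.lt_succ_self k)
  refine stepA _ _ _ _ _ _ ?_ ?_ ?_ ?_ ?_ ?_ ?_ (z.D1 k) (z.D2 k) ?_
  · rw [dc_aff1, dc_l1_S]
  · rw [dc_aff1, dc_l1_S]
  · rw [dc_aff1, dc_l1_E]
    exact mul_pos (by linarith [z.he1 k]) hw
  · rw [dc_aff2, dc_l2_E]
  · rw [dc_aff2, dc_l2_S]
    exact mul_pos (by linarith) hw
  · rw [dc_aff2, dc_l2_S]
    exact mul_pos (by linarith) hw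
  · rw [dc_SES]
    exact mul_pos (mul_pos (by linarith [z.he1 k]) (by linarith)) hw
  · intro X hX _ _
    obtain ⟨r, hr, hr1, rfl⟩ := dc_lrem_pos hα1 hX
    rw [dc_SES]
    exact mul_pos (mul_pos (by linarith [z.he1 k]) (by linarith [z.hsα (k + 1)])) hw

theorem stepO (z : ZZ c s e) (hc : Valid c) (k : ℕ) :
    dcA c s e (2 * k + 1) = (reg (dcKid c s e (2 * k + 1)) ∪ dcArc c s e (2 * k + 1)) ∪
        dcA c s e (2 * k + 1 + 1) ∧
      Disjoint (reg (dcKid c s e (2 * k + 1))) (dcArc c s e (2 * k + 1)) ∧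
      Disjoint (reg (dcKid c s e (2 * k + 1))) (dcA c s e (2 * k + 1 + 1)) ∧
      Disjoint (dcArc c s e (2 * k + 1)) (dcA c s e (2 * k + 1 + 1)) := by
  have hw := (valid_facts hc).2.2.2.2.2
  have hα1 := nu_lt_one hc
  rw [dcA_odd, dcKid_odd, dcArc_odd, show 2 * k + 1 + 1 = 2 * (k + 1) by ring, dcA_even]
  have hs1' : s (k + 1) < 1 := (z.hsα (k + 1)).trans hα1
  have hlt : e k < e (k + 1) := z.he (Nat.lt_succ_self k)
  refine stepB _ _ _ _ _ _ ?_ ?_ ?_ ?_ ?_ ?_ ?_ (z.D2 k) (z.D1 (k + 1)) ?_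
  · rw [dc_aff1, dc_l1_S]
  · rw [dc_aff2, dc_l2_S]
    exact mul_pos (by linarith) hw
  · rw [dc_aff2, dc_l2_E]
  · rw [dc_aff2, dc_l2_E]
  · rw [dc_aff1, dc_l1_E]
    exact mul_pos (by linarith [z.he1 k]) hw
  · rw [dc_aff1, dc_l1_E]
    exact mul_pos (by linarith [z.he1 (k + 1)]) hw
  · rw [dc_SEE]
    exact mul_pos (mul_pos (by linarith) (by linarith)) hw
  · intro X hX _ _
    obtain ⟨r, hr, hr1, rfl⟩ := dc_lrem_pos hα1 hX
    rw [dc_SES]
    exact mul_pos (mul_pos (by linarith [z.he1 (k + 1)]) (by linarith [z.hsα (k + 1)])) hw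

theorem step (z : ZZ c s e) (hc : Valid c) (n : ℕ) :
    dcA c s e n = (reg (dcKid c s e n) ∪ dcArc c s e n) ∪ dcA c s e (n + 1) ∧
      Disjoint (reg (dcKid c s e n)) (dcArc c s e n) ∧
      Disjoint (reg (dcKid c s e n)) (dcA c s e (n + 1)) ∧
      Disjoint (dcArc c s e n) (dcA c s e (n + 1)) := by
  rcases Nat.even_or_odd' n with ⟨k, rfl | rfl⟩
  · exact z.stepE hc k
  · exact z.stepO hc k

theorem A_zero (z : ZZ c s e) (hc : Valid c) : dcA c s e 0 = reg c := by
  have hw := (valid_facts hc).2.2.2.2.2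
  have h0 : dcA c s e 0 = below (dcL1 c) (dcL2 c) (lrem c) c.O c.U := by
    have := dcA_even c s e 0
    simpa [z.s0, z.e0] using this
  rw [h0]
  ext X
  simp only [below, reg, srem, mem_sdiff, mem_ofPred_eq, dc_aff1, dc_aff2, dc_tri_iff hw]

theorem A_inter (z : ZZ c s e) (hc : Valid c) : ⋂ n, dcA c s e n = ∅ := by
  have hw := (valid_facts hc).2.2.2.2.2
  have hα1 := nu_lt_one hc
  rw [eq_empty_iff_forall_notMem]
  intro X hX
  rw [mem_iInter] at hX
  have hA : ∀ k, 0 ≤ orr (lp c.O c.V (s k)) (lp c.U c.V (e k)) X := by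
    intro k
    have := hX (2 * k)
    rw [dcA_even] at this
    exact this.1.2.2
  have h1 : 0 ≤ orr c.O X c.V := by
    have := (hX 0).1.1
    rwa [dc_aff1] at this
  have h2 : 0 ≤ orr X c.U c.V := by
    have := (hX 0).1.2.1
    rwa [dc_aff2] at this
  have hnot : X ∉ lrem c := fun h => (hX 0).2 (Or.inr h)
  -- the limit
  have hlim : Filter.Tendsto (fun k => orr (lp c.O c.V (s k)) (lp c.U c.V (e k)) X)
      Filter.atTop (nhds (orr (lp c.O c.V (nu c.O c.V)) (lp c.U c.V 1) X)) := by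
    simp only [orr, lp_fst, lp_snd]
    have hs := z.slim
    have he := z.elim
    exact ((((he.mul_const _).const_add _).sub ((hs.mul_const _).const_add _)).mul
      (((hs.mul_const _).const_add _).const_sub _)).sub
      ((((hs.mul_const _).const_add _).const_sub _).mul
      (((he.mul_const _).const_add _).sub ((hs.mul_const _).const_add _)))
  have h3 : 0 ≤ orr (lp c.O c.V (nu c.O c.V)) (lp c.U c.V 1) X :=
    ge_of_tendsto' hlim hA
  have h4 : orr (lp c.O c.V (nu c.O c.V)) (lp c.U c.V 1) X =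
      -((1 - nu c.O c.V) * orr c.O X c.V) := by
    simp only [orr, lp_fst, lp_snd]; ring
  rw [h4] at h3
  have h5 : orr c.O X c.V = 0 := by
    have : 0 < 1 - nu c.O c.V := by linarith
    nlinarith [mul_nonneg this.le h1]
  obtain ⟨t, rfl⟩ := dc_on_OV hw h5
  have h6 : t ≤ 1 := by
    rw [dc_l2_S] at h2
    by_contra hcon
    push Not at hcon
    have := mul_pos_of_neg_of_neg (sub_neg.2 hcon) (neg_lt_zero.2 hw)
    linarith
  have h7 : ∀ k, s k ≤ t := by
    intro k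
    have := hA k
    rw [dc_SES] at this
    by_contra hcon
    push Not at hcon
    have h8 : 0 < (1 - e k) * (s k - t) * orr c.O c.U c.V :=
      mul_pos (mul_pos (by linarith [z.he1 k]) (by linarith)) hw
    linarith
  have h8 : nu c.O c.V ≤ t := le_of_tendsto' z.slim h7
  exact hnot (dc_mem_lrem hα1 h8 h6)

theorem valid_kid (z : ZZ c s e) (hc : Valid c) (n : ℕ) : Valid (dcKid c s e n) := by
  rcases Nat.even_or_odd' n with ⟨k, rfl | rfl⟩
  · rw [dcKid_even]
    exact kidA_valid hc (z.s_nonneg k) (z.hs (Nat.lt_succ_self k)) (z.hsα (k + 1))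
      (z.e_nonneg k) (z.he1 k) (z.D2 k)
  · rw [dcKid_odd]
    exact kidB_valid hc (z.s_pos k) (z.hsα (k + 1)) (z.e_nonneg k) (z.he (Nat.lt_succ_self k))
      (z.he1 (k + 1)) (z.D2 k)

theorem arc_kid (z : ZZ c s e) (n : ℕ) : IsArc (dcArc c s e n) := by
  rcases Nat.even_or_odd' n with ⟨k, rfl | rfl⟩
  · rw [dcArc_even]
    exact isArc_Fa (z.D2 k)
  · rw [dcArc_odd]
    exact isArc_Fa (z.D1 (k + 1))

theorem phi_kid (z : ZZ c s e) (hc : Valid c) (n : ℕ) :
    Phi (dcKid c s e n) ≤ 5 / 6 * Phi c := by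
  obtain ⟨hσ, hτ, hUV, h12, hmon, hw⟩ := valid_facts hc
  have hv := valid_facts (z.valid_kid hc n)
  obtain ⟨gσ, gτ, -⟩ := hv
  have hτ0 : 0 < D c.O c.V := hσ.trans hτ
  have p1 : D c.O c.U ≤ Phi c := le_max_left _ _
  have p2 : 4 / 5 * D c.O c.V ≤ Phi c := le_max_right _ _
  have key : ∀ d : Cell, D d.O d.U < D d.O d.V → 0 < D d.O d.U → D d.O d.V ≤ 2 / 3 * D c.O c.V →
      Phi d ≤ 5 / 6 * Phi c := by
    intro d h1 h2 h3
    refine max_le ?_ ?_
    · linarith
    · linarith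
  rcases Nat.even_or_odd' n with ⟨k, rfl | rfl⟩
  · rw [dcKid_even] at gσ gτ ⊢
    rcases k with _ | k
    · refine max_le ?_ ?_
      · have h3 := z.D3
        rw [D_comm] at h3
        simp only [Nat.zero_add] at gτ ⊢
        linarith
      · simp only [z.s0, z.e0, lp_zero]
        rw [D_comm]
        linarith
    · refine key _ gτ gσ ?_
      have := z.D4 k
      rw [D_comm] at this
      exact this
  · rw [dcKid_odd] at gσ gτ ⊢
    exact key _ gτ gσ (z.D4 k)

theorem S_mem (z : ZZ c s e) (hc : Valid c) (k : ℕ) : lp c.O c.V (s k) ∈ tri c :=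
  tri_lp (O_mem_tri c) (V_mem_tri c) (z.s_nonneg k) ((z.hsα k).trans (nu_lt_one hc)).le

theorem E_mem (z : ZZ c s e) (k : ℕ) : lp c.U c.V (e k) ∈ tri c :=
  tri_lp (U_mem_tri c) (V_mem_tri c) (z.e_nonneg k) (z.he1 k).le

theorem sub_kid (z : ZZ c s e) (hc : Valid c) (n : ℕ) : tri (dcKid c s e n) ⊆ tri c := by
  rcases Nat.even_or_odd' n with ⟨k, rfl | rfl⟩
  · rw [dcKid_even]
    exact tri_sub (z.E_mem k) (z.S_mem hc (k + 1)) (z.S_mem hc k)
  · rw [dcKid_odd]
    exact tri_sub (z.S_mem hc (k + 1)) (z.E_mem k) (z.E_mem (k + 1))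

theorem dis_kid (z : ZZ c s e) (hc : Valid c) (n : ℕ) :
    Disjoint (tri (dcKid c s e n)) (lrem c) := by
  have hw := (valid_facts hc).2.2.2.2.2
  have hα1 := nu_lt_one hc
  rw [Set.disjoint_left]
  intro X hX hX'
  obtain ⟨r, hr, hr1, rfl⟩ := dc_lrem_pos hα1 hX'
  have hl1 := dc_l1_S c r
  have hl3 := dc_l3_S c r
  rcases Nat.even_or_odd' n with ⟨k, rfl | rfl⟩
  · rw [dcKid_even] at hX
    obtain ⟨a, b, ha, hb, hab, hE⟩ := hX
    simp only at hE
    have hlt : s k < s (k + 1) := z.hs (Nat.lt_succ_self k)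
    have i1 : orr c.O (lp c.O c.V r) c.V = (1 - a - b) * ((1 - e k) * orr c.O c.U c.V) := by
      rw [hE]; simp only [orr, lp_fst, lp_snd]; ring
    have i3 : orr c.O c.U (lp c.O c.V r) = ((1 - a - b) * e k + a * s (k + 1) + b * s k) *
        orr c.O c.U c.V := by
      rw [hE]; simp only [orr, lp_fst, lp_snd]; ring
    rw [hl1] at i1
    have h1 : (1 - e k) * orr c.O c.U c.V ≠ 0 :=
      (mul_pos (by linarith [z.he1 k]) hw).ne'
    have h2 : 1 - a - b = 0 := by
      rcases mul_eq_zero.1 i1.symm with h | h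
      · exact h
      · exact absurd h h1
    rw [hl3, h2] at i3
    have h3 := mul_right_cancel₀ hw.ne' i3
    have h4 := z.hsα (k + 1)
    have h5 : b * s k ≤ b * s (k + 1) := mul_le_mul_of_nonneg_left hlt.le hb
    have h6 : a = 1 - b := by linarith
    rw [h6] at h3
    nlinarith
  · rw [dcKid_odd] at hX
    obtain ⟨a, b, ha, hb, hab, hE⟩ := hX
    simp only at hE
    have i1 : orr c.O (lp c.O c.V r) c.V = (a * (1 - e k) + b * (1 - e (k + 1))) *
        orr c.O c.U c.V := by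
      rw [hE]; simp only [orr, lp_fst, lp_snd]; ring
    have i3 : orr c.O c.U (lp c.O c.V r) = ((1 - a - b) * s (k + 1) + a * e k + b * e (k + 1)) *
        orr c.O c.U c.V := by
      rw [hE]; simp only [orr, lp_fst, lp_snd]; ring
    rw [hl1] at i1
    have h2 : a * (1 - e k) + b * (1 - e (k + 1)) = 0 := by
      rcases mul_eq_zero.1 i1.symm with h | h
      · exact h
      · exact absurd h hw.ne'
    have e1 : 0 < 1 - e k := by linarith [z.he1 k]
    have e2 : 0 < 1 - e (k + 1) := by linarith [z.he1 (k + 1)]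
    have h3 := mul_nonneg ha e1.le
    have h4 := mul_nonneg hb e2.le
    have ha0 : a = 0 := by
      have : a * (1 - e k) = 0 := by linarith
      rcases mul_eq_zero.1 this with h | h
      · exact h
      · exact absurd h e1.ne'
    have hb0 : b = 0 := by
      have : b * (1 - e (k + 1)) = 0 := by linarith
      rcases mul_eq_zero.1 this with h | h
      · exact h
      · exact absurd h e2.ne'
    rw [hl3, ha0, hb0] at i3
    have h3 := mul_right_cancel₀ hw.ne' i3
    have h4 := z.hsα (k + 1)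
    linarith

theorem red_kid (z : ZZ c s e) (hc : Valid c) (n : ℕ) :
    tri (dcKid c s e n) \ lrem (dcKid c s e n) ⊆ reg c := by
  obtain ⟨hσ, hτ, hUV, h12, hmon, hw⟩ := valid_facts hc
  have hα1 := nu_lt_one hc
  rintro X ⟨hX, hXl⟩
  refine ⟨z.sub_kid hc n hX, ?_⟩
  rintro (h | h)
  swap
  · exact (Set.disjoint_left.1 (z.dis_kid hc n)) hX h
  -- `X` is on the small wall
  have hUO : 0 < D c.U c.O := by rwa [D_comm]
  have hν0 := (wall hUO).1
  have hν := (wall hUO).2.1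
  have hν' := (wall hσ).1
  obtain ⟨t, ht0, ht1, hXt⟩ := h
  have hXe : X = lp c.O c.U (t * (1 - nu c.U c.O)) := by
    rw [hXt]
    ext <;> simp only [Nn, lp_fst, lp_snd] <;> ring
  have hl3 : orr c.O c.U X = 0 := by
    rw [hXe]; simp only [orr, lp_fst, lp_snd]; ring
  have hl1 : orr c.O X c.V = (t * (1 - nu c.U c.O)) * orr c.O c.U c.V := by
    rw [hXe]; simp only [orr, lp_fst, lp_snd]; ring
  rcases Nat.even_or_odd' n with ⟨k, rfl | rfl⟩
  · rcases k with _ | k
    · rw [dcKid_even] at hXl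
      apply hXl
      have : lrem ⟨lp c.U c.V (e 0), lp c.O c.V (s (0 + 1)), lp c.O c.V (s 0)⟩ =
          seg (Nn c.U c.O) c.O := by
        simp only [lrem, z.s0, z.e0, lp_zero]
      rw [this, seg_comm]
      exact ⟨t, ht0, ht1, hXt⟩
    · rw [dcKid_even] at hX
      obtain ⟨a, b, ha, hb, hab, hE⟩ := hX
      simp only at hE
      have i3 : orr c.O c.U X = ((1 - a - b) * e (k + 1) + a * s (k + 1 + 1) + b * s (k + 1)) *
          orr c.O c.U c.V := by
        rw [hE]; simp only [orr, lp_fst, lp_snd]; ring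
      rw [hl3] at i3
      have h2 : (1 - a - b) * e (k + 1) + a * s (k + 1 + 1) + b * s (k + 1) = 0 := by
        rcases mul_eq_zero.1 i3.symm with h | h
        · exact h
        · exact absurd h hw.ne'
      have q1 := z.e_pos k
      have q2 := z.s_pos k
      have q3 := z.s_pos (k + 1)
      have g1 := mul_nonneg (show 0 ≤ 1 - a - b by linarith) q1.le
      have g2 := mul_nonneg ha q3.le
      have g3 := mul_nonneg hb q2.le
      have a0 : a = 0 := by
        have : a * s (k + 1 + 1) = 0 := by linarith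
        rcases mul_eq_zero.1 this with h | h
        · exact h
        · exact absurd h q3.ne'
      have b0 : b = 0 := by
        have : b * s (k + 1) = 0 := by linarith
        rcases mul_eq_zero.1 this with h | h
        · exact h
        · exact absurd h q2.ne'
      rw [a0, b0] at h2
      linarith
  · rw [dcKid_odd] at hX
    obtain ⟨a, b, ha, hb, hab, hE⟩ := hX
    simp only at hE
    have i3 : orr c.O c.U X = ((1 - a - b) * s (k + 1) + a * e k + b * e (k + 1)) *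
        orr c.O c.U c.V := by
      rw [hE]; simp only [orr, lp_fst, lp_snd]; ring
    have i1 : orr c.O X c.V = (a * (1 - e k) + b * (1 - e (k + 1))) *
        orr c.O c.U c.V := by
      rw [hE]; simp only [orr, lp_fst, lp_snd]; ring
    rw [hl3] at i3
    rw [hl1] at i1
    have h1 := mul_right_cancel₀ hw.ne' i1
    have h2 : (1 - a - b) * s (k + 1) + a * e k + b * e (k + 1) = 0 := by
      rcases mul_eq_zero.1 i3.symm with h | h
      · exact h
      · exact absurd h hw.ne'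
    have q1 := z.e_pos k
    have q2 := z.s_pos k
    have q3 := z.e_nonneg k
    have g1 := mul_nonneg (show 0 ≤ 1 - a - b by linarith) q2.le
    have g2 := mul_nonneg ha q3
    have g3 := mul_nonneg hb q1.le
    have b0 : b = 0 := by
      have : b * e (k + 1) = 0 := by linarith
      rcases mul_eq_zero.1 this with h | h
      · exact h
      · exact absurd h q1.ne'
    have a1 : 1 - a - b = 0 := by
      have : (1 - a - b) * s (k + 1) = 0 := by linarith
      rcases mul_eq_zero.1 this with h | h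
      · exact h
      · exact absurd h q2.ne'
    have a1' : a = 1 := by linarith
    rw [a1', b0] at h1 h2
    have h3 : e k = 0 := by linarith
    rw [h3] at h1
    have : t * (1 - nu c.U c.O) < 1 := by nlinarith
    linarith

end ZZ

theorem cell_step (c : Cell) (hc : Valid c) :
    ∃ (arc : ℕ → Set Pt) (kid : ℕ → Cell), (∀ n, IsArc (arc n)) ∧
      (∀ n, Valid (kid n) ∧ Rel c (kid n)) ∧ reg c = (⋃ n, arc n) ∪ ⋃ n, reg (kid n) ∧
      (∀ m n, m ≠ n → Disjoint (arc m) (arc n)) ∧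
      (∀ m n, m ≠ n → Disjoint (reg (kid m)) (reg (kid n))) ∧
      ∀ m n, Disjoint (arc m) (reg (kid n)) := by
  obtain ⟨s, e, z⟩ := exists_ZZ hc
  have hT := tele_nat (dcA c s e) (fun n => reg (dcKid c s e n) ∪ dcArc c s e n)
    (fun n => (z.step hc n).1)
    (fun n => Disjoint.union_left (z.step hc n).2.2.1 (z.step hc n).2.2.2) (z.A_inter hc)
  rw [z.A_zero hc] at hT
  refine ⟨dcArc c s e, dcKid c s e, z.arc_kid, fun n => ⟨z.valid_kid hc n,
    ⟨z.phi_kid hc n, z.sub_kid hc n, z.dis_kid hc n, z.red_kid hc n⟩⟩, ?_, ?_, ?_, ?_⟩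
  · rw [hT.1, iUnion_union_distrib, union_comm]
  · intro m n hmn
    exact ((hT.2 m n hmn).mono_left subset_union_right).mono_right subset_union_right
  · intro m n hmn
    exact ((hT.2 m n hmn).mono_left subset_union_left).mono_right subset_union_left
  · intro m n
    by_cases hmn : m = n
    · subst hmn
      exact (z.step hc m).2.1.symm
    · exact ((hT.2 m n hmn).mono_left subset_union_right).mono_right subset_union_left

end Pool.Agent.GreatArcs
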