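import Mathlib
import Pool.Agent.GreatArcs.Base

/-! # Module LIMIT: the intersection of a nest of cells is an arc -/

set_option autoImplicit false

open Set Filter Topology

namespace Pool.Agent.GreatArcs

theorem lim_continuous_D : Continuous (fun p : Pt × Pt => D p.1 p.2) := by
  unfold D; fun_prop

/-- the closed triangle is compact -/
theorem lim_tri_compact (c : Cell) : IsCompact (tri c) := by
  have hK : IsCompact {p : ℝ × ℝ | 0 ≤ p.1 ∧ 0 ≤ p.2 ∧ p.1 + p.2 ≤ 1} := by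
    refine IsCompact.of_isClosed_subset (isCompact_Icc (a := ((0 : ℝ), (0 : ℝ))) (b := (1, 1)))
      ?_ ?_
    · refine IsClosed.inter (isClosed_le continuous_const continuous_fst)
        (IsClosed.inter (isClosed_le continuous_const continuous_snd)
          (isClosed_le (continuous_fst.add continuous_snd) continuous_const))
    · rintro ⟨a, b⟩ ⟨h1, h2, h3⟩
      simp only at h1 h2 h3
      exact ⟨⟨h1, h2⟩, ⟨by simp only; linarith, by simp only; linarith⟩⟩
  have hc : Continuous (fun p : ℝ × ℝ =>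
      ((c.O.1 + p.1 * (c.U.1 - c.O.1) + p.2 * (c.V.1 - c.O.1),
        c.O.2 + p.1 * (c.U.2 - c.O.2) + p.2 * (c.V.2 - c.O.2)) : Pt)) := by fun_prop
  have him := hK.image hc
  convert him using 1
  ext X
  constructor
  · rintro ⟨a, b, h1, h2, h3, h4⟩
    exact ⟨(a, b), ⟨h1, h2, h3⟩, h4.symm⟩
  · rintro ⟨⟨a, b⟩, ⟨h1, h2, h3⟩, h4⟩
    exact ⟨a, b, h1, h2, h3, h4.symm⟩

theorem lim_VR_D {c : Cell} (h : VR c) : D c.O c.U ≤ D c.O c.V := by
  obtain ⟨yO, yU, yUV, xO, xOU, xUV, det, ori, sig⟩ := h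
  have key : c.U.2 * (D c.O c.V - D c.O c.U) =
      c.O.1 * ((c.U.1 * c.V.2 - c.V.1 * c.U.2)) + (D c.O c.U + 1) * (c.V.2 - c.U.2) := by
    unfold D; ring
  have h1 : 0 ≤ c.U.2 * (D c.O c.V - D c.O c.U) := by
    rw [key]
    have := mul_nonneg xO det
    have := mul_nonneg (by linarith : (0 : ℝ) ≤ D c.O c.U + 1)
      (by linarith : (0 : ℝ) ≤ c.V.2 - c.U.2)
    linarith
  have := nonneg_of_mul_nonneg_right h1 yU
  linarith

theorem lim_VL_D {c : Cell} (h : VL c) : D c.O c.U ≤ D c.O c.V := by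
  obtain ⟨yVU, yU, yO, xV, xVU, xUO, ori, sig⟩ := h
  have h1 := mul_nonneg (by linarith : (0 : ℝ) ≤ c.O.1) (by linarith : (0 : ℝ) ≤ c.U.1 - c.V.1)
  have h2 := mul_nonneg yO.le (by linarith : (0 : ℝ) ≤ c.U.2 - c.V.2)
  unfold D; linarith

theorem lim_valid_D {c : Cell} (h : Valid c) : 0 < D c.O c.U ∧ D c.O c.U ≤ D c.O c.V := by
  rcases h with h | h
  · exact ⟨h.sig, lim_VR_D h⟩
  · exact ⟨h.sig, lim_VL_D h⟩

/-- closed form of `VR` with both products zero forces `U = V` -/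
theorem lim_VR_eq {O U V : Pt} (yO : O.2 ≤ 0) (yU : 0 ≤ U.2) (yUV : U.2 ≤ V.2) (xO : 0 ≤ O.1)
    (xOU : O.1 ≤ U.1) (xUV : U.1 ≤ V.1) (det : 0 ≤ U.1 * V.2 - V.1 * U.2)
    (h1 : D O U = 0) (h2 : D O V = 0) : U = V := by
  unfold D at h1 h2
  have e1 : O.1 * U.1 + O.2 * U.2 = -1 := by linarith
  have e2 : O.1 * (V.1 - U.1) + O.2 * (V.2 - U.2) = 0 := by linarith
  have hU : 0 ≤ O.1 * U.1 := mul_nonneg xO (by linarith)
  have hyy : O.2 * U.2 ≤ -1 := by linarith
  have hU2 : 0 < U.2 := by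
    rcases yU.lt_or_eq with h | h
    · exact h
    · rw [← h] at hyy; linarith
  have h3 : U.2 * (V.1 - U.1) ≤ U.1 * (V.2 - U.2) := by linarith
  have h4 : O.1 * (U.2 * (V.1 - U.1)) ≤ O.1 * (U.1 * (V.2 - U.2)) :=
    mul_le_mul_of_nonneg_left h3 xO
  have h5 : O.1 * (U.2 * (V.1 - U.1)) = - (O.2 * U.2) * (V.2 - U.2) := by
    have : O.1 * (V.1 - U.1) = - (O.2 * (V.2 - U.2)) := by linarith
    calc O.1 * (U.2 * (V.1 - U.1)) = U.2 * (O.1 * (V.1 - U.1)) := by ring
      _ = U.2 * (- (O.2 * (V.2 - U.2))) := by rw [this]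
      _ = _ := by ring
  have h6 : V.2 - U.2 ≤ 0 := by
    have : - (O.2 * U.2) * (V.2 - U.2) - O.1 * (U.1 * (V.2 - U.2)) = V.2 - U.2 := by
      have : -(O.2 * U.2) - O.1 * U.1 = 1 := by linarith
      calc - (O.2 * U.2) * (V.2 - U.2) - O.1 * (U.1 * (V.2 - U.2))
          = (-(O.2 * U.2) - O.1 * U.1) * (V.2 - U.2) := by ring
        _ = _ := by rw [this, one_mul]
    linarith
  have h7 : U.2 = V.2 := by linarith
  have h8 : U.2 * (V.1 - U.1) ≤ 0 := by
    rw [h7] at h3 ⊢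
    simpa using h3
  have h9 : V.1 - U.1 ≤ 0 := by
    by_contra hcon
    push Not at hcon
    have := mul_pos hU2 hcon
    linarith
  exact Prod.ext (by linarith) h7

theorem lim_VL_eq {O U V : Pt} (yVU : V.2 ≤ U.2) (yU : U.2 ≤ 0) (yO : 0 ≤ O.2) (xV : 0 ≤ V.1)
    (xVU : V.1 ≤ U.1) (xUO : U.1 ≤ O.1)
    (h1 : D O U = 0) (h2 : D O V = 0) : U = V := by
  unfold D at h1 h2
  have e1 : O.1 * U.1 + O.2 * U.2 = -1 := by linarith
  have e2 : O.1 * (U.1 - V.1) + O.2 * (U.2 - V.2) = 0 := by linarith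
  have hU : 0 ≤ O.1 * U.1 := mul_nonneg (by linarith) (by linarith)
  have hO2 : 0 < O.2 := by
    rcases yO.lt_or_eq with h | h
    · exact h
    · rw [← h] at e1; linarith
  have a1 : 0 ≤ O.1 * (U.1 - V.1) := mul_nonneg (by linarith) (by linarith)
  have a2 : 0 ≤ O.2 * (U.2 - V.2) := mul_nonneg yO (by linarith)
  have a3 : O.2 * (U.2 - V.2) = 0 := by linarith
  have a4 : O.1 * (U.1 - V.1) = 0 := by linarith
  have h7 : U.2 = V.2 := by
    rcases mul_eq_zero.1 a3 with h | h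
    · linarith
    · linarith
  have h8 : U.1 = V.1 := by
    rcases mul_eq_zero.1 a4 with h | h
    · linarith
    · linarith
  exact Prod.ext h8 h7

theorem nest_limit (f : ℕ → Cell) (hv : ∀ n, Valid (f n)) (hr : ∀ n, Rel (f n) (f (n + 1))) :
    IsArc (⋂ n, reg (f n)) := by
  -- the regions and the closed triangles have the same intersection
  have hreg : (⋂ n, reg (f n)) = ⋂ n, tri (f n) := by
    apply Set.Subset.antisymm
    · exact Set.iInter_mono fun n => reg_subset_tri (f n)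
    · intro X hX
      rw [Set.mem_iInter] at hX ⊢
      intro n
      apply (hr n).red
      refine ⟨hX (n + 1), fun hl => ?_⟩
      exact Set.disjoint_left.1 (hr (n + 1)).dis (hX (n + 2)) hl
  rw [hreg]
  -- nesting
  have hanti : Antitone fun n => tri (f n) := antitone_nat_of_succ_le fun n => (hr n).sub
  -- the contracting quantity
  have hPhi : ∀ n, Phi (f n) ≤ (5 / 6 : ℝ) ^ n * Phi (f 0) := by
    intro n
    induction n with
    | zero => simp
    | succ n ih =>
      have := (hr n).phi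
      calc Phi (f (n + 1)) ≤ 5 / 6 * Phi (f n) := this
        _ ≤ 5 / 6 * ((5 / 6 : ℝ) ^ n * Phi (f 0)) := by linarith
        _ = _ := by ring
  have hPhi0 : Tendsto (fun n => (5 / 6 : ℝ) ^ n * Phi (f 0)) atTop (𝓝 0) := by
    have := (tendsto_pow_atTop_nhds_zero_of_lt_one (by norm_num : (0 : ℝ) ≤ 5 / 6)
      (by norm_num)).mul_const (Phi (f 0))
    simpa using this
  have hDU : Tendsto (fun n => D (f n).O (f n).U) atTop (𝓝 0) := by
    refine squeeze_zero (fun n => (lim_valid_D (hv n)).1.le) (fun n => ?_) hPhi0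
    exact (le_max_left _ _).trans (hPhi n)
  have hDV : Tendsto (fun n => D (f n).O (f n).V) atTop (𝓝 0) := by
    have h2 : Tendsto (fun n => 5 / 4 * ((5 / 6 : ℝ) ^ n * Phi (f 0))) atTop (𝓝 0) := by
      simpa using hPhi0.const_mul (5 / 4 : ℝ)
    refine squeeze_zero (fun n => (lim_valid_D (hv n)).1.le.trans (lim_valid_D (hv n)).2)
      (fun n => ?_) h2
    have h3 : 4 / 5 * D (f n).O (f n).V ≤ Phi (f n) := le_max_right _ _
    have := hPhi n
    linarith
  -- a subsequence of constant type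
  obtain ⟨φ, hφ, hty⟩ : ∃ φ : ℕ → ℕ, StrictMono φ ∧
      ((∀ n, VR (f (φ n))) ∨ (∀ n, VL (f (φ n)))) := by
    have hfr : (∃ᶠ n in atTop, VR (f n)) ∨ (∃ᶠ n in atTop, VL (f n)) := by
      rw [← frequently_or_distrib]
      exact Frequently.of_forall hv
    rcases hfr with h | h
    · obtain ⟨φ, h1, h2⟩ := extraction_of_frequently_atTop h
      exact ⟨φ, h1, Or.inl h2⟩
    · obtain ⟨φ, h1, h2⟩ := extraction_of_frequently_atTop h
      exact ⟨φ, h1, Or.inr h2⟩
  -- a convergent subsequence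
  have hmem : ∀ n, ((f (φ n)).O, (f (φ n)).U, (f (φ n)).V) ∈
      (tri (f 0)) ×ˢ ((tri (f 0)) ×ˢ (tri (f 0))) := by
    intro n
    have h0 : tri (f (φ n)) ⊆ tri (f 0) := hanti (Nat.zero_le _)
    exact ⟨h0 (O_mem_tri _), h0 (U_mem_tri _), h0 (V_mem_tri _)⟩
  obtain ⟨⟨O, U, V⟩, -, ψ, hψ, hlim⟩ := ((lim_tri_compact (f 0)).prod
    ((lim_tri_compact (f 0)).prod (lim_tri_compact (f 0)))).tendsto_subseq hmem
  set θ : ℕ → ℕ := φ ∘ ψ with hθ
  have hθm : StrictMono θ := hφ.comp hψ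
  have hO : Tendsto (fun n => (f (θ n)).O) atTop (𝓝 O) := (continuous_fst.tendsto _).comp hlim
  have hU : Tendsto (fun n => (f (θ n)).U) atTop (𝓝 U) :=
    ((continuous_fst.comp continuous_snd).tendsto _).comp hlim
  have hV : Tendsto (fun n => (f (θ n)).V) atTop (𝓝 V) :=
    ((continuous_snd.comp continuous_snd).tendsto _).comp hlim
  have hOU : D O U = 0 := by
    have h1 : Tendsto (fun n => D (f (θ n)).O (f (θ n)).U) atTop (𝓝 (D O U)) :=
      (lim_continuous_D.tendsto (O, U)).comp (hO.prodMk_nhds hU)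
    exact tendsto_nhds_unique h1 (hDU.comp hθm.tendsto_atTop)
  have hOV : D O V = 0 := by
    have h1 : Tendsto (fun n => D (f (θ n)).O (f (θ n)).V) atTop (𝓝 (D O V)) :=
      (lim_continuous_D.tendsto (O, V)).comp (hO.prodMk_nhds hV)
    exact tendsto_nhds_unique h1 (hDV.comp hθm.tendsto_atTop)
  have t1 : ∀ {g : ℕ → Pt} {P : Pt}, Tendsto g atTop (𝓝 P) →
      Tendsto (fun n => (g n).1) atTop (𝓝 P.1) := fun h => (continuous_fst.tendsto _).comp h
  have t2 : ∀ {g : ℕ → Pt} {P : Pt}, Tendsto g atTop (𝓝 P) →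
      Tendsto (fun n => (g n).2) atTop (𝓝 P.2) := fun h => (continuous_snd.tendsto _).comp h
  have hUV : U = V := by
    rcases hty with hR | hL
    · have hR' : ∀ n, VR (f (θ n)) := fun n => hR (ψ n)
      refine lim_VR_eq (O := O) ?_ ?_ ?_ ?_ ?_ ?_ ?_ hOU hOV
      · exact le_of_tendsto' (t2 hO) fun n => (hR' n).yO.le
      · exact ge_of_tendsto' (t2 hU) fun n => (hR' n).yU.le
      · exact le_of_tendsto_of_tendsto' (t2 hU) (t2 hV) fun n => (hR' n).yUV.le
      · exact ge_of_tendsto' (t1 hO) fun n => (hR' n).xO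
      · exact le_of_tendsto_of_tendsto' (t1 hO) (t1 hU) fun n => (hR' n).xOU
      · exact le_of_tendsto_of_tendsto' (t1 hU) (t1 hV) fun n => (hR' n).xUV
      · exact ge_of_tendsto' (((t1 hU).mul (t2 hV)).sub ((t1 hV).mul (t2 hU)))
          fun n => (hR' n).det
    · have hL' : ∀ n, VL (f (θ n)) := fun n => hL (ψ n)
      refine lim_VL_eq (O := O) ?_ ?_ ?_ ?_ ?_ ?_ hOU hOV
      · exact le_of_tendsto_of_tendsto' (t2 hV) (t2 hU) fun n => (hL' n).yVU.le
      · exact le_of_tendsto' (t2 hU) fun n => (hL' n).yU.le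
      · exact ge_of_tendsto' (t2 hO) fun n => (hL' n).yO.le
      · exact ge_of_tendsto' (t1 hV) fun n => (hL' n).xV
      · exact le_of_tendsto_of_tendsto' (t1 hV) (t1 hU) fun n => (hL' n).xVU
      · exact le_of_tendsto_of_tendsto' (t1 hU) (t1 hO) fun n => (hL' n).xUO
  subst hUV
  refine ⟨O, U, hOU, ?_⟩
  apply Set.Subset.antisymm
  · -- points of all triangles are on the limit segment
    intro X hX
    rw [Set.mem_iInter] at hX
    have hX' : ∀ n, ∃ a b : ℝ, 0 ≤ a ∧ 0 ≤ b ∧ a + b ≤ 1 ∧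
        X = ((f (θ n)).O.1 + a * ((f (θ n)).U.1 - (f (θ n)).O.1)
              + b * ((f (θ n)).V.1 - (f (θ n)).O.1),
            (f (θ n)).O.2 + a * ((f (θ n)).U.2 - (f (θ n)).O.2)
              + b * ((f (θ n)).V.2 - (f (θ n)).O.2)) := fun n => hX (θ n)
    choose a b ha hb hab hXe using hX'
    have hmem2 : ∀ n, (a n, b n) ∈ Icc ((0 : ℝ), (0 : ℝ)) (1, 1) := by
      intro n
      have := ha n; have := hb n; have := hab n
      exact ⟨⟨ha n, hb n⟩, ⟨by simp only; linarith, by simp only; linarith⟩⟩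
    obtain ⟨⟨a0, b0⟩, hab0, χ, hχ, hlim2⟩ := isCompact_Icc.tendsto_subseq hmem2
    have hA : Tendsto (fun n => a (χ n)) atTop (𝓝 a0) := (continuous_fst.tendsto _).comp hlim2
    have hB : Tendsto (fun n => b (χ n)) atTop (𝓝 b0) := (continuous_snd.tendsto _).comp hlim2
    have hOc := hO.comp hχ.tendsto_atTop
    have hUc := hU.comp hχ.tendsto_atTop
    have hVc := hV.comp hχ.tendsto_atTop
    have ha0 : 0 ≤ a0 := ge_of_tendsto' hA fun n => ha _
    have hb0 : 0 ≤ b0 := ge_of_tendsto' hB fun n => hb _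
    have hab1 : a0 + b0 ≤ 1 := le_of_tendsto' (hA.add hB) fun n => hab _
    refine ⟨a0 + b0, by linarith, hab1, ?_⟩
    have e1 : Tendsto (fun _ : ℕ => X.1) atTop (𝓝 (O.1 + a0 * (U.1 - O.1) + b0 * (U.1 - O.1))) := by
      have : (fun _ : ℕ => X.1) = fun n => (f (θ (χ n))).O.1
          + a (χ n) * ((f (θ (χ n))).U.1 - (f (θ (χ n))).O.1)
          + b (χ n) * ((f (θ (χ n))).V.1 - (f (θ (χ n))).O.1) := by
        funext n
        exact congrArg Prod.fst (hXe (χ n))
      rw [this]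
      exact ((t1 hOc).add (hA.mul ((t1 hUc).sub (t1 hOc)))).add (hB.mul ((t1 hVc).sub (t1 hOc)))
    have e2 : Tendsto (fun _ : ℕ => X.2) atTop (𝓝 (O.2 + a0 * (U.2 - O.2) + b0 * (U.2 - O.2))) := by
      have : (fun _ : ℕ => X.2) = fun n => (f (θ (χ n))).O.2
          + a (χ n) * ((f (θ (χ n))).U.2 - (f (θ (χ n))).O.2)
          + b (χ n) * ((f (θ (χ n))).V.2 - (f (θ (χ n))).O.2) := by
        funext n
        exact congrArg Prod.snd (hXe (χ n))
      rw [this]
      exact ((t2 hOc).add (hA.mul ((t2 hUc).sub (t2 hOc)))).add (hB.mul ((t2 hVc).sub (t2 hOc)))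
    have e1' := tendsto_nhds_unique tendsto_const_nhds e1
    have e2' := tendsto_nhds_unique tendsto_const_nhds e2
    ext
    · simp only [lp_fst]; rw [e1']; ring
    · simp only [lp_snd]; rw [e2']; ring
  · -- the limit segment is in all triangles
    rintro X ⟨t, ht0, ht1, rfl⟩
    rw [Set.mem_iInter]
    intro m
    have hcl : IsClosed (tri (f m)) := (lim_tri_compact (f m)).isClosed
    have hOm : O ∈ tri (f m) := by
      refine hcl.mem_of_tendsto hO ?_
      filter_upwards [eventually_ge_atTop m] with n hn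
      exact hanti (hn.trans (hθm.id_le n)) (O_mem_tri _)
    have hUm : U ∈ tri (f m) := by
      refine hcl.mem_of_tendsto hU ?_
      filter_upwards [eventually_ge_atTop m] with n hn
      exact hanti (hn.trans (hθm.id_le n)) (U_mem_tri _)
    exact tri_lp hOm hUm ht0 ht1

end Pool.Agent.GreatArcs
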