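import Mathlib
import Pool.Agent.GreatArcs.Base
import Pool.Agent.GreatArcs.Nest
import Pool.Agent.GreatArcs.Wall
import Pool.Agent.GreatArcs.Zig
import Pool.Agent.GreatArcs.Decomp
import Pool.Agent.GreatArcs.Limit

/-! # Module STRIP: lunes (vertical strips of the chart) -/

set_option autoImplicit false

open Set

namespace Pool.Agent.GreatArcs

/-- every valid cell splits into arcs -/
theorem cell_splits (c : Cell) (hc : Valid c) : Splits IsArc (reg c) :=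
  nest IsArc Valid Rel reg cell_step nest_limit c hc

/-- cut points on the left side -/
noncomputable def stS (m x0 : ℝ) (k : ℤ) : Pt := (m, -(x0 + (2 : ℝ) ^ (-k)))

/-- cut points on the right side -/
noncomputable def stE (m m' y0 : ℝ) (k : ℤ) : Pt := (m', y0 + 4 * (1 + m * m') * (2 : ℝ) ^ k)

/-- the left boundary line -/
def stL1 (m : ℝ) : ℝ × ℝ × ℝ := (-m, 1, 0)

/-- the right boundary line -/
def stL2 (m' : ℝ) : ℝ × ℝ × ℝ := (m', -1, 0)

/-- the removed part of the left side -/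
def stZ (m x0 : ℝ) : Set Pt := {X : Pt | X.1 = m ∧ -x0 ≤ X.2}

theorem st_aff1 (m : ℝ) (X : Pt) : aff (stL1 m) X = X.1 - m := by
  simp only [aff, stL1]; ring

theorem st_aff2 (m' : ℝ) (X : Pt) : aff (stL2 m') X = m' - X.1 := by
  simp only [aff, stL2]; ring

@[simp] theorem stS_fst (m x0 : ℝ) (k : ℤ) : (stS m x0 k).1 = m := rfl
@[simp] theorem stS_snd (m x0 : ℝ) (k : ℤ) : (stS m x0 k).2 = -(x0 + (2 : ℝ) ^ (-k)) := rfl
@[simp] theorem stE_fst (m m' y0 : ℝ) (k : ℤ) : (stE m m' y0 k).1 = m' := rfl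
@[simp] theorem stE_snd (m m' y0 : ℝ) (k : ℤ) :
    (stE m m' y0 k).2 = y0 + 4 * (1 + m * m') * (2 : ℝ) ^ k := rfl

/-- what remains -/
noncomputable def stA (m m' x0 y0 : ℝ) (n : ℤ) : Set Pt :=
  below (stL1 m) (stL2 m') (stZ m x0) (stS m x0 ((n + 1) / 2)) (stE m m' y0 (n / 2))

/-- the cells -/
noncomputable def stKid (m m' x0 y0 : ℝ) (n : ℤ) : Cell :=
  if Even n then ⟨stE m m' y0 (n / 2), stS m x0 ((n + 1 + 1) / 2), stS m x0 ((n + 1) / 2)⟩
  else ⟨stS m x0 ((n + 1) / 2), stE m m' y0 (n / 2), stE m m' y0 ((n + 1) / 2)⟩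

/-- the arcs -/
noncomputable def stArc (m m' x0 y0 : ℝ) (n : ℤ) : Set Pt :=
  Fa (stS m x0 ((n + 1 + 1) / 2)) (stE m m' y0 ((n + 1) / 2))

theorem stKid_even (m m' x0 y0 : ℝ) (k : ℤ) :
    stKid m m' x0 y0 (2 * k) = ⟨stE m m' y0 k, stS m x0 (k + 1), stS m x0 k⟩ := by
  have h1 : Even (2 * k) := even_two_mul k
  have e1 : (2 * k) / 2 = k := by omega
  have e2 : (2 * k + 1) / 2 = k := by omega
  have e3 : (2 * k + 1 + 1) / 2 = k + 1 := by omega
  simp only [stKid, if_pos h1, e1, e2, e3]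

theorem stKid_odd (m m' x0 y0 : ℝ) (k : ℤ) :
    stKid m m' x0 y0 (2 * k + 1) =
      ⟨stS m x0 (k + 1), stE m m' y0 k, stE m m' y0 (k + 1)⟩ := by
  have h1 : ¬ Even (2 * k + 1) := by
    rw [Int.not_even_iff_odd]; exact odd_two_mul_add_one k
  have e1 : (2 * k + 1) / 2 = k := by omega
  have e3 : (2 * k + 1 + 1) / 2 = k + 1 := by omega
  simp only [stKid, if_neg h1, e1, e3]

theorem stArc_even (m m' x0 y0 : ℝ) (k : ℤ) :
    stArc m m' x0 y0 (2 * k) = Fa (stS m x0 (k + 1)) (stE m m' y0 k) := by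
  have e2 : (2 * k + 1) / 2 = k := by omega
  have e3 : (2 * k + 1 + 1) / 2 = k + 1 := by omega
  simp only [stArc, e2, e3]

theorem stArc_odd (m m' x0 y0 : ℝ) (k : ℤ) :
    stArc m m' x0 y0 (2 * k + 1) = Fa (stS m x0 (k + 1)) (stE m m' y0 (k + 1)) := by
  have e2 : (2 * k + 1 + 1) / 2 = k + 1 := by omega
  have e3 : (2 * k + 1 + 1 + 1) / 2 = k + 1 := by omega
  simp only [stArc, e2, e3]

theorem stA_even (m m' x0 y0 : ℝ) (k : ℤ) :
    stA m m' x0 y0 (2 * k) =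
      below (stL1 m) (stL2 m') (stZ m x0) (stS m x0 k) (stE m m' y0 k) := by
  have e1 : (2 * k) / 2 = k := by omega
  have e2 : (2 * k + 1) / 2 = k := by omega
  simp only [stA, e1, e2]

theorem stA_odd (m m' x0 y0 : ℝ) (k : ℤ) :
    stA m m' x0 y0 (2 * k + 1) =
      below (stL1 m) (stL2 m') (stZ m x0) (stS m x0 (k + 1)) (stE m m' y0 k) := by
  have e2 : (2 * k + 1) / 2 = k := by omega
  have e3 : (2 * k + 1 + 1) / 2 = k + 1 := by omega
  simp only [stA, e2, e3]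

section

variable {m m' x0 y0 : ℝ}

theorem st_orr (k l : ℤ) (X : Pt) :
    orr (stS m x0 k) (stE m m' y0 l) X =
      (m' - m) * X.2 + (m' - X.1) * (x0 + (2 : ℝ) ^ (-k)) -
        (X.1 - m) * (y0 + 4 * (1 + m * m') * (2 : ℝ) ^ l) := by
  simp only [orr, stS_fst, stS_snd, stE_fst, stE_snd]; ring

theorem st_D (hm : 0 ≤ m) (hmm : m < m') (hx : 0 ≤ x0) (hy : 0 ≤ y0) {k l : ℤ}
    (hkl : (1 : ℝ) / 2 ≤ (2 : ℝ) ^ (-k) * (2 : ℝ) ^ l) :
    0 < D (stS m x0 k) (stE m m' y0 l) := by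
  have h1 : (0 : ℝ) < 2 ^ (-k) := by positivity
  have h2 : (0 : ℝ) < 2 ^ l := by positivity
  have h3 : 0 ≤ m * m' := mul_nonneg hm (hm.trans hmm.le)
  have e : D (stS m x0 k) (stE m m' y0 l) =
      x0 * y0 + x0 * (4 * (1 + m * m') * (2 : ℝ) ^ l) + (2 : ℝ) ^ (-k) * y0 +
        4 * (1 + m * m') * ((2 : ℝ) ^ (-k) * (2 : ℝ) ^ l) - (1 + m * m') := by
    simp only [D, stS_fst, stS_snd, stE_fst, stE_snd]; ring
  rw [e]
  have g1 := mul_nonneg hx hy
  have g2 : 0 ≤ x0 * (4 * (1 + m * m') * (2 : ℝ) ^ l) := by positivity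
  have g3 : 0 ≤ (2 : ℝ) ^ (-k) * y0 := by positivity
  have g4 : 4 * (1 + m * m') * (1 / 2) ≤ 4 * (1 + m * m') * ((2 : ℝ) ^ (-k) * (2 : ℝ) ^ l) :=
    mul_le_mul_of_nonneg_left hkl (by linarith)
  linarith

theorem st_pow_same (k : ℤ) : (1 : ℝ) / 2 ≤ (2 : ℝ) ^ (-k) * (2 : ℝ) ^ k := by
  rw [← zpow_add₀ (by norm_num : (2 : ℝ) ≠ 0)]
  simp only [neg_add_cancel, zpow_zero]
  norm_num

theorem st_pow_succ (k : ℤ) : (1 : ℝ) / 2 ≤ (2 : ℝ) ^ (-(k + 1)) * (2 : ℝ) ^ k := by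
  rw [← zpow_add₀ (by norm_num : (2 : ℝ) ≠ 0)]
  rw [show -(k + 1) + k = (-1 : ℤ) by ring]
  norm_num

theorem st_D1 (hm : 0 ≤ m) (hmm : m < m') (hx : 0 ≤ x0) (hy : 0 ≤ y0) (k : ℤ) :
    0 < D (stS m x0 k) (stE m m' y0 k) := st_D hm hmm hx hy (st_pow_same k)

theorem st_D2 (hm : 0 ≤ m) (hmm : m < m') (hx : 0 ≤ x0) (hy : 0 ≤ y0) (k : ℤ) :
    0 < D (stS m x0 (k + 1)) (stE m m' y0 k) := st_D hm hmm hx hy (st_pow_succ k)

theorem st_powS (k : ℤ) : (2 : ℝ) ^ (-(k + 1)) < (2 : ℝ) ^ (-k) :=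
  zpow_lt_zpow_right₀ (by norm_num) (by omega)

theorem st_powE (k : ℤ) : (2 : ℝ) ^ k < (2 : ℝ) ^ (k + 1) :=
  zpow_lt_zpow_right₀ (by norm_num) (by omega)

theorem st_stepE (hm : 0 ≤ m) (hmm : m < m') (hx : 0 ≤ x0) (hy : 0 ≤ y0) (k : ℤ) :
    stA m m' x0 y0 (2 * k) = (reg (stKid m m' x0 y0 (2 * k)) ∪ stArc m m' x0 y0 (2 * k)) ∪
        stA m m' x0 y0 (2 * k + 1) ∧
      Disjoint (reg (stKid m m' x0 y0 (2 * k))) (stArc m m' x0 y0 (2 * k)) ∧
      Disjoint (reg (stKid m m' x0 y0 (2 * k))) (stA m m' x0 y0 (2 * k + 1)) ∧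
      Disjoint (stArc m m' x0 y0 (2 * k)) (stA m m' x0 y0 (2 * k + 1)) := by
  rw [stA_even, stKid_even, stArc_even, stA_odd]
  have hd : 0 < m' - m := sub_pos.2 hmm
  refine stepA _ _ _ _ _ _ ?_ ?_ ?_ ?_ ?_ ?_ ?_ (st_D1 hm hmm hx hy k) (st_D2 hm hmm hx hy k) ?_
  · rw [st_aff1, stS_fst]; ring
  · rw [st_aff1, stS_fst]; ring
  · rw [st_aff1, stE_fst]; exact hd
  · rw [st_aff2, stE_fst]; ring
  · rw [st_aff2, stS_fst]; exact hd
  · rw [st_aff2, stS_fst]; exact hd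
  · rw [st_orr]
    simp only [stS_fst, stS_snd]
    have h := mul_pos hd (sub_pos.2 (st_powS k))
    nlinarith
  · rintro X ⟨h1, h2⟩ _ _
    rw [st_orr, h1]
    have h3 : (0 : ℝ) < 2 ^ (-(k + 1)) := by positivity
    have h := mul_pos hd (show 0 < X.2 + (x0 + (2 : ℝ) ^ (-(k + 1))) by linarith)
    nlinarith

theorem st_stepO (hm : 0 ≤ m) (hmm : m < m') (hx : 0 ≤ x0) (hy : 0 ≤ y0) (k : ℤ) :
    stA m m' x0 y0 (2 * k + 1) =
        (reg (stKid m m' x0 y0 (2 * k + 1)) ∪ stArc m m' x0 y0 (2 * k + 1)) ∪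
        stA m m' x0 y0 (2 * k + 1 + 1) ∧
      Disjoint (reg (stKid m m' x0 y0 (2 * k + 1))) (stArc m m' x0 y0 (2 * k + 1)) ∧
      Disjoint (reg (stKid m m' x0 y0 (2 * k + 1))) (stA m m' x0 y0 (2 * k + 1 + 1)) ∧
      Disjoint (stArc m m' x0 y0 (2 * k + 1)) (stA m m' x0 y0 (2 * k + 1 + 1)) := by
  rw [stA_odd, stKid_odd, stArc_odd, show 2 * k + 1 + 1 = 2 * (k + 1) by ring, stA_even]
  have hd : 0 < m' - m := sub_pos.2 hmm
  have h3 : 0 ≤ m * m' := mul_nonneg hm (hm.trans hmm.le)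
  refine stepB _ _ _ _ _ _ ?_ ?_ ?_ ?_ ?_ ?_ ?_ (st_D2 hm hmm hx hy k)
    (st_D1 hm hmm hx hy (k + 1)) ?_
  · rw [st_aff1, stS_fst]; ring
  · rw [st_aff2, stS_fst]; exact hd
  · rw [st_aff2, stE_fst]; ring
  · rw [st_aff2, stE_fst]; ring
  · rw [st_aff1, stE_fst]; exact hd
  · rw [st_aff1, stE_fst]; exact hd
  · rw [st_orr]
    simp only [stE_fst, stE_snd]
    have h := mul_pos hd (mul_pos (show (0 : ℝ) < 4 * (1 + m * m') by linarith)
      (sub_pos.2 (st_powE k)))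
    nlinarith
  · rintro X ⟨h1, h2⟩ _ _
    rw [st_orr, h1]
    have h3 : (0 : ℝ) < 2 ^ (-(k + 1)) := by positivity
    have h := mul_pos hd (show 0 < X.2 + (x0 + (2 : ℝ) ^ (-(k + 1))) by linarith)
    nlinarith

theorem st_step (hm : 0 ≤ m) (hmm : m < m') (hx : 0 ≤ x0) (hy : 0 ≤ y0) (n : ℤ) :
    stA m m' x0 y0 n = (reg (stKid m m' x0 y0 n) ∪ stArc m m' x0 y0 n) ∪
        stA m m' x0 y0 (n + 1) ∧
      Disjoint (reg (stKid m m' x0 y0 n)) (stArc m m' x0 y0 n) ∧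
      Disjoint (reg (stKid m m' x0 y0 n)) (stA m m' x0 y0 (n + 1)) ∧
      Disjoint (stArc m m' x0 y0 n) (stA m m' x0 y0 (n + 1)) := by
  rcases Int.even_or_odd' n with ⟨k, rfl | rfl⟩
  · exact st_stepE hm hmm hx hy k
  · exact st_stepO hm hmm hx hy k

theorem st_valid (hm : 0 ≤ m) (hmm : m < m') (hx : 0 ≤ x0) (hy : 0 ≤ y0) (n : ℤ) :
    Valid (stKid m m' x0 y0 n) := by
  have hd : 0 < m' - m := sub_pos.2 hmm
  have h3 : 0 ≤ m * m' := mul_nonneg hm (hm.trans hmm.le)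
  rcases Int.even_or_odd' n with ⟨k, rfl | rfl⟩
  · rw [stKid_even]
    right
    have p1 := st_powS k
    have p2 : (0 : ℝ) < 2 ^ (-(k + 1)) := by positivity
    have p3 : (0 : ℝ) < 2 ^ k := by positivity
    have p4 := mul_pos (show (0 : ℝ) < 4 * (1 + m * m') by linarith) p3
    refine ⟨?_, ?_, ?_, ?_, ?_, ?_, ?_, ?_⟩
    · simp only [stS_snd]; linarith
    · simp only [stS_snd]; linarith
    · simp only [stE_snd]; linarith
    · simpa using hm
    · simp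
    · simpa using hmm.le
    · simp only [orr, stS_fst, stS_snd, stE_fst, stE_snd]
      have h := mul_pos hd (sub_pos.2 p1)
      nlinarith
    · simp only
      rw [D_comm]
      exact st_D2 hm hmm hx hy k
  · rw [stKid_odd]
    left
    have p1 := st_powE k
    have p2 : (0 : ℝ) < 2 ^ (-(k + 1)) := by positivity
    have p3 : (0 : ℝ) < 2 ^ k := by positivity
    have p0 : (0 : ℝ) < 4 * (1 + m * m') := by linarith
    have p4 := mul_pos p0 p3
    have p5 := mul_pos p0 (sub_pos.2 p1)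
    have hm' : 0 ≤ m' := hm.trans hmm.le
    refine ⟨?_, ?_, ?_, ?_, ?_, ?_, ?_, ?_, ?_⟩
    · simp only [stS_snd]; linarith
    · simp only [stE_snd]; linarith
    · simp only [stE_snd]; linarith
    · simpa using hm
    · simpa using hmm.le
    · simp
    · simp only [stE_fst, stE_snd]
      have h := mul_nonneg hm' p5.le
      nlinarith
    · simp only [orr, stS_fst, stS_snd, stE_fst, stE_snd]
      have h := mul_pos hd p5
      nlinarith
    · exact st_D2 hm hmm hx hy k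

theorem st_arc (hm : 0 ≤ m) (hmm : m < m') (hx : 0 ≤ x0) (hy : 0 ≤ y0) (n : ℤ) :
    IsArc (stArc m m' x0 y0 n) := by
  rcases Int.even_or_odd' n with ⟨k, rfl | rfl⟩
  · rw [stArc_even]
    exact isArc_Fa (st_D2 hm hmm hx hy k)
  · rw [stArc_odd]
    exact isArc_Fa (st_D1 hm hmm hx hy (k + 1))

/-- powers of two are arbitrarily large -/
theorem st_large (B : ℝ) : ∃ k : ℤ, 0 ≤ k ∧ B < (2 : ℝ) ^ k := by
  obtain ⟨n, hn⟩ := pow_unbounded_of_one_lt B (by norm_num : (1 : ℝ) < 2)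
  exact ⟨n, by positivity, by simpa using hn⟩

theorem st_seg_orr {P Q X : Pt} {t : ℝ} (hX : X ∈ seg P (lp Q P t)) : orr P Q X = 0 := by
  obtain ⟨s, -, -, rfl⟩ := hX
  simp only [orr, lp_fst, lp_snd]; ring

theorem st_union (hm : 0 ≤ m) (hmm : m < m') (hx : 0 ≤ x0) :
    (⋃ n, stA m m' x0 y0 n) = {X : Pt | m < X.1 ∧ X.1 < m'} ∪ {X : Pt | X.1 = m ∧ X.2 < -x0} ∪
      {X : Pt | X.1 = m' ∧ y0 < X.2} := by
  have hd : 0 < m' - m := sub_pos.2 hmm
  have h3 : 0 ≤ m * m' := mul_nonneg hm (hm.trans hmm.le)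
  have p0 : (0 : ℝ) < 4 * (1 + m * m') := by linarith
  apply Set.Subset.antisymm
  · intro X hX
    rw [mem_iUnion] at hX
    obtain ⟨n, hX⟩ := hX
    obtain ⟨⟨h1, h2, h4⟩, h5⟩ := hX
    rw [st_aff1] at h1
    rw [st_aff2] at h2
    rcases lt_or_eq_of_le (sub_nonneg.1 h1) with h6 | h6
    · rcases lt_or_eq_of_le (sub_nonneg.1 h2) with h7 | h7
      · exact Or.inl (Or.inl ⟨h6, h7⟩)
      · refine Or.inr ⟨h7, ?_⟩
        rw [st_orr, h7] at h4
        have h8 : (0 : ℝ) < 2 ^ (n / 2) := by positivity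
        have h9 := mul_pos p0 h8
        have h10 : 0 ≤ (m' - m) * (X.2 - (y0 + 4 * (1 + m * m') * (2 : ℝ) ^ (n / 2))) := by
          nlinarith
        have h11 := nonneg_of_mul_nonneg_right h10 hd
        linarith
    · refine Or.inl (Or.inr ⟨h6.symm, ?_⟩)
      by_contra hcon
      push Not at hcon
      exact h5 (Or.inr ⟨h6.symm, hcon⟩)
  · intro X hX
    -- it is enough to find `k` with `orr > 0`
    have key : m ≤ X.1 → X.1 ≤ m' → X ∉ stZ m x0 →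
        (∃ k : ℤ, 0 < orr (stS m x0 k) (stE m m' y0 k) X) → X ∈ ⋃ n, stA m m' x0 y0 n := by
      rintro g1 g2 g3 ⟨k, hk⟩
      rw [mem_iUnion]
      refine ⟨2 * k, ?_⟩
      rw [stA_even]
      refine ⟨⟨?_, ?_, hk.le⟩, ?_⟩
      · rw [st_aff1]; linarith
      · rw [st_aff2]; linarith
      · rintro (h | h)
        · have := st_seg_orr h
          linarith
        · exact g3 h
    rcases hX with (⟨h1, h2⟩ | ⟨h1, h2⟩) | ⟨h1, h2⟩
    · apply key h1.le h2.le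
      · rintro ⟨g1, -⟩
        linarith
      · obtain ⟨k, hk0, hk⟩ := st_large ((-(m' - m) * X.2 - (m' - X.1) * x0 +
          (X.1 - m) * (y0 + 4 * (1 + m * m'))) / (m' - X.1))
        refine ⟨-k, ?_⟩
        rw [st_orr, neg_neg]
        have g1 : 0 < m' - X.1 := by linarith
        rw [div_lt_iff₀ g1] at hk
        have g2 : (2 : ℝ) ^ (-k) ≤ 1 := by
          rw [← zpow_zero (2 : ℝ)]
          exact zpow_le_zpow_right₀ (by norm_num) (by omega)
        have g3 : 4 * (1 + m * m') * (2 : ℝ) ^ (-k) ≤ 4 * (1 + m * m') * 1 :=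
          mul_le_mul_of_nonneg_left g2 p0.le
        have g4 : (X.1 - m) * (y0 + 4 * (1 + m * m') * (2 : ℝ) ^ (-k)) ≤
            (X.1 - m) * (y0 + 4 * (1 + m * m')) :=
          mul_le_mul_of_nonneg_left (by linarith) (by linarith)
        nlinarith
    · apply key h1.symm.le (h1.le.trans hmm.le)
      · rintro ⟨-, g1⟩
        linarith
      · obtain ⟨k, hk0, hk⟩ := st_large (-X.2)
        refine ⟨-k, ?_⟩
        rw [st_orr, neg_neg, h1]
        have g := mul_pos hd (show 0 < X.2 + (x0 + (2 : ℝ) ^ k) by linarith)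
        nlinarith
    · apply key (hmm.le.trans h1.symm.le) h1.le
      · rintro ⟨g1, -⟩
        linarith
      · obtain ⟨k, hk0, hk⟩ := st_large (4 * (1 + m * m') / (X.2 - y0))
        refine ⟨-k, ?_⟩
        rw [st_orr, h1]
        have g1 : 0 < X.2 - y0 := by linarith
        rw [div_lt_iff₀ g1] at hk
        have g2 : (0 : ℝ) < 2 ^ (-k) := by positivity
        have g3 : (2 : ℝ) ^ k * (2 : ℝ) ^ (-k) = 1 := by
          rw [← zpow_add₀ (by norm_num : (2 : ℝ) ≠ 0)]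
          simp
        have g4 : 4 * (1 + m * m') * (2 : ℝ) ^ (-k) < X.2 - y0 := by
          have := mul_lt_mul_of_pos_right hk g2
          calc 4 * (1 + m * m') * (2 : ℝ) ^ (-k) < (2 : ℝ) ^ k * (X.2 - y0) * (2 : ℝ) ^ (-k) := this
            _ = ((2 : ℝ) ^ k * (2 : ℝ) ^ (-k)) * (X.2 - y0) := by ring
            _ = X.2 - y0 := by rw [g3, one_mul]
        have g := mul_pos hd (show 0 < X.2 - (y0 + 4 * (1 + m * m') * (2 : ℝ) ^ (-k)) by linarith)
        nlinarith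

theorem st_inter (hm : 0 ≤ m) (hmm : m < m') (hy : 0 ≤ y0) :
    (⋂ n, stA m m' x0 y0 n) = ∅ := by
  have hd : 0 < m' - m := sub_pos.2 hmm
  have h3 : 0 ≤ m * m' := mul_nonneg hm (hm.trans hmm.le)
  have p0 : (1 : ℝ) ≤ 4 * (1 + m * m') := by linarith
  rw [eq_empty_iff_forall_notMem]
  intro X hX
  rw [mem_iInter] at hX
  have hA : ∀ k : ℤ, 0 ≤ (m' - m) * X.2 + (m' - X.1) * (x0 + (2 : ℝ) ^ (-k)) -
        (X.1 - m) * (y0 + 4 * (1 + m * m') * (2 : ℝ) ^ k) := by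
    intro k
    have := hX (2 * k)
    rw [stA_even] at this
    have h := this.1.2.2
    rwa [st_orr] at h
  have h1 : m ≤ X.1 := by
    have := (hX 0).1.1
    rw [st_aff1] at this
    linarith
  have h2 : X.1 ≤ m' := by
    have := (hX 0).1.2.1
    rw [st_aff2] at this
    linarith
  have hZ : X ∉ stZ m x0 := fun h => (hX 0).2 (Or.inr h)
  rcases lt_or_eq_of_le h1 with h4 | h4
  · have g1 : 0 < X.1 - m := by linarith
    obtain ⟨k, hk0, hk⟩ := st_large (((m' - m) * X.2 + (m' - X.1) * (x0 + 1)) / (X.1 - m))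
    rw [div_lt_iff₀ g1] at hk
    have g2 : (2 : ℝ) ^ (-k) ≤ 1 := by
      rw [← zpow_zero (2 : ℝ)]
      exact zpow_le_zpow_right₀ (by norm_num) (by omega)
    have g3 : (m' - X.1) * (x0 + (2 : ℝ) ^ (-k)) ≤ (m' - X.1) * (x0 + 1) :=
      mul_le_mul_of_nonneg_left (by linarith) (by linarith)
    have g4 : (0 : ℝ) < 2 ^ k := by positivity
    have g5 : (2 : ℝ) ^ k ≤ 4 * (1 + m * m') * (2 : ℝ) ^ k := by nlinarith
    have g6 : (X.1 - m) * (2 : ℝ) ^ k ≤ (X.1 - m) * (y0 + 4 * (1 + m * m') * (2 : ℝ) ^ k) :=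
      mul_le_mul_of_nonneg_left (by linarith) g1.le
    have := hA k
    nlinarith
  · apply hZ
    refine ⟨h4.symm, ?_⟩
    by_contra hcon
    push Not at hcon
    have g1 : 0 < -x0 - X.2 := by linarith
    obtain ⟨k, hk0, hk⟩ := st_large (1 / (-x0 - X.2))
    rw [div_lt_iff₀ g1] at hk
    have g2 : (0 : ℝ) < 2 ^ (-k) := by positivity
    have g3 : (2 : ℝ) ^ k * (2 : ℝ) ^ (-k) = 1 := by
      rw [← zpow_add₀ (by norm_num : (2 : ℝ) ≠ 0)]
      simp
    have g4 : (2 : ℝ) ^ (-k) < -x0 - X.2 := by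
      have := mul_lt_mul_of_pos_right hk g2
      calc (2 : ℝ) ^ (-k) = 1 * (2 : ℝ) ^ (-k) := by ring
        _ < (2 : ℝ) ^ k * (-x0 - X.2) * (2 : ℝ) ^ (-k) := this
        _ = ((2 : ℝ) ^ k * (2 : ℝ) ^ (-k)) * (-x0 - X.2) := by ring
        _ = -x0 - X.2 := by rw [g3, one_mul]
    have g5 := hA k
    rw [← h4] at g5
    have g6 := mul_pos hd (show 0 < -(X.2 + (x0 + (2 : ℝ) ^ (-k))) by linarith)
    nlinarith

end

/-- an open strip together with the lower part of its left side and the upper part of its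
right side splits into arcs -/
theorem strip {m m' x0 y0 : ℝ} (hm : 0 ≤ m) (hmm : m < m') (hx : 0 ≤ x0) (hy : 0 ≤ y0) :
    Splits IsArc ({X : Pt | m < X.1 ∧ X.1 < m'} ∪ {X : Pt | X.1 = m ∧ X.2 < -x0} ∪
      {X : Pt | X.1 = m' ∧ y0 < X.2}) := by
  have hT := tele_int (stA m m' x0 y0)
    (fun n => reg (stKid m m' x0 y0 n) ∪ stArc m m' x0 y0 n)
    (fun n => (st_step hm hmm hx hy n).1)
    (fun n => Disjoint.union_left (st_step hm hmm hx hy n).2.2.1
      (st_step hm hmm hx hy n).2.2.2) (st_inter hm hmm hy)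
  rw [← st_union hm hmm hx, hT.1]
  refine splits_iUnion _ hT.2 fun n => ?_
  exact splits_union (cell_splits _ (st_valid hm hmm hx hy n))
    (splits_of_mem (st_arc hm hmm hx hy n)) (st_step hm hmm hx hy n).2.1

end Pool.Agent.GreatArcs
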