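import Mathlib
import Pool.Agent.GreatArcs.Base
import Pool.Agent.GreatArcs.Nest
import Pool.Agent.GreatArcs.Strip

/-! # Module PLANAR: the open quadrant of directions -/

set_option autoImplicit false

open Set

namespace Pool.Agent.GreatArcs

/-- vertical arc -/
theorem isArc_vert (m : ℝ) :
    IsArc {X : Pt | X.1 = m ∧ -Real.sqrt (1 + m ^ 2) ≤ X.2 ∧ X.2 ≤ Real.sqrt (1 + m ^ 2)} := by
  have hpos : 0 < 1 + m ^ 2 := by positivity
  set r := Real.sqrt (1 + m ^ 2) with hr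
  have hr0 : 0 < r := Real.sqrt_pos.2 hpos
  have hrr : r ^ 2 = 1 + m ^ 2 := Real.sq_sqrt hpos.le
  refine ⟨(m, -r), (m, r), ?_, ?_⟩
  · simp only [D]
    linarith
  · ext X
    simp only [mem_ofPred_eq, seg]
    constructor
    · rintro ⟨h1, h2, h3⟩
      refine ⟨(X.2 + r) / (2 * r), div_nonneg (by linarith) (by linarith),
        (div_le_one (by linarith)).2 (by linarith), Prod.ext ?_ ?_⟩
      · simp only [lp_fst]
        rw [h1]; ring
      · simp only [lp_snd]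
        field_simp
        ring
    · rintro ⟨t, h0, h1, rfl⟩
      simp only [lp_fst, lp_snd]
      refine ⟨by ring, ?_, ?_⟩
      · nlinarith
      · nlinarith

/-- the `i`-th piece of the half plane -/
private def planarPiece (i : ℤ) : Set Pt :=
  {X : Pt | X.1 = (2 : ℝ) ^ i ∧ -Real.sqrt (1 + ((2 : ℝ) ^ i) ^ 2) ≤ X.2 ∧
      X.2 ≤ Real.sqrt (1 + ((2 : ℝ) ^ i) ^ 2)} ∪
    ({X : Pt | (2 : ℝ) ^ i < X.1 ∧ X.1 < (2 : ℝ) ^ (i + 1)} ∪
      {X : Pt | X.1 = (2 : ℝ) ^ i ∧ X.2 < -Real.sqrt (1 + ((2 : ℝ) ^ i) ^ 2)} ∪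
      {X : Pt | X.1 = (2 : ℝ) ^ (i + 1) ∧ Real.sqrt (1 + ((2 : ℝ) ^ (i + 1)) ^ 2) < X.2})

private theorem planarPiece_splits (i : ℤ) : Splits IsArc (planarPiece i) := by
  have h0 : (0 : ℝ) < (2 : ℝ) ^ i := zpow_pos two_pos i
  have h1 : (2 : ℝ) ^ i < (2 : ℝ) ^ (i + 1) :=
    zpow_lt_zpow_right₀ one_lt_two (by omega)
  apply splits_union (splits_of_mem (isArc_vert _))
    (strip h0.le h1 (Real.sqrt_nonneg _) (Real.sqrt_nonneg _))
  rw [Set.disjoint_left]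
  rintro X ⟨hx, hy, hy'⟩ ((⟨ha, hb⟩ | ⟨ha, hb⟩) | ⟨ha, hb⟩)
  · linarith
  · linarith
  · rw [ha] at hx
    linarith

private theorem planarPiece_le {i : ℤ} {X : Pt} (h : X ∈ planarPiece i) :
    (2 : ℝ) ^ i ≤ X.1 ∧ X.1 ≤ (2 : ℝ) ^ (i + 1) := by
  have h1 : (2 : ℝ) ^ i < (2 : ℝ) ^ (i + 1) :=
    zpow_lt_zpow_right₀ one_lt_two (by omega)
  rcases h with ⟨hx, hy, hy'⟩ | ((⟨ha, hb⟩ | ⟨ha, hb⟩) | ⟨ha, hb⟩) <;>
    constructor <;> linarith

private theorem planarPiece_low {i : ℤ} {X : Pt} (h : X ∈ planarPiece i)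
    (hx : X.1 = (2 : ℝ) ^ i) : X.2 ≤ Real.sqrt (1 + X.1 ^ 2) := by
  have h1 : (2 : ℝ) ^ i < (2 : ℝ) ^ (i + 1) :=
    zpow_lt_zpow_right₀ one_lt_two (by omega)
  have h2 := Real.sqrt_nonneg (1 + ((2 : ℝ) ^ i) ^ 2)
  rw [hx]
  rcases h with ⟨_, hy, hy'⟩ | ((⟨ha, hb⟩ | ⟨ha, hb⟩) | ⟨ha, hb⟩)
  · exact hy'
  · linarith
  · linarith
  · linarith

private theorem planarPiece_high {i : ℤ} {X : Pt} (h : X ∈ planarPiece i)
    (hx : X.1 = (2 : ℝ) ^ (i + 1)) : Real.sqrt (1 + X.1 ^ 2) < X.2 := by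
  have h1 : (2 : ℝ) ^ i < (2 : ℝ) ^ (i + 1) :=
    zpow_lt_zpow_right₀ one_lt_two (by omega)
  rw [hx]
  rcases h with ⟨_, hy, hy'⟩ | ((⟨ha, hb⟩ | ⟨ha, hb⟩) | ⟨ha, hb⟩)
  · linarith
  · linarith
  · linarith
  · exact hb

private theorem planarPiece_lt_disj {i j : ℤ} (hij : i < j) :
    Disjoint (planarPiece i) (planarPiece j) := by
  rw [Set.disjoint_left]
  intro X hi hj
  have h1 := (planarPiece_le hi).2
  have h2 := (planarPiece_le hj).1
  have h3 : (2 : ℝ) ^ (i + 1) ≤ (2 : ℝ) ^ j :=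
    zpow_le_zpow_right₀ one_le_two (by omega)
  have h4 := planarPiece_low hj (by linarith)
  have h5 := planarPiece_high hi (by linarith)
  linarith

/-- the open half plane `x > 0` splits into arcs -/
theorem half_plane : Splits IsArc {X : Pt | 0 < X.1} := by
  have hU : {X : Pt | 0 < X.1} = ⋃ i : ℤ, planarPiece i := by
    ext X
    simp only [mem_ofPred_eq, mem_iUnion]
    constructor
    · intro hX
      obtain ⟨i, hi1, hi2⟩ := exists_mem_Ico_zpow hX (one_lt_two (α := ℝ))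
      rcases hi1.eq_or_lt with he | hl
      · rcases lt_or_ge (Real.sqrt (1 + ((2 : ℝ) ^ i) ^ 2)) X.2 with h | h
        · refine ⟨i - 1, Or.inr (Or.inr ?_)⟩
          simp only [sub_add_cancel, mem_ofPred_eq]
          exact ⟨he.symm, h⟩
        · rcases lt_or_ge X.2 (-Real.sqrt (1 + ((2 : ℝ) ^ i) ^ 2)) with h' | h'
          · exact ⟨i, Or.inr (Or.inl (Or.inr ⟨he.symm, h'⟩))⟩
          · exact ⟨i, Or.inl ⟨he.symm, h', h⟩⟩
      · exact ⟨i, Or.inr (Or.inl (Or.inl ⟨hl, hi2⟩))⟩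
    · rintro ⟨i, hi⟩
      exact lt_of_lt_of_le (zpow_pos two_pos i) (planarPiece_le hi).1
  rw [hU]
  apply splits_iUnion
  · intro i j hij
    rcases lt_or_gt_of_ne hij with h | h
    · exact planarPiece_lt_disj h
    · exact (planarPiece_lt_disj h).symm
  · exact planarPiece_splits

end Pool.Agent.GreatArcs
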