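import Mathlib
import Pool.Agent.GreatArcs.Base
import Pool.Agent.GreatArcs.Nest
import Pool.Agent.GreatArcs.Planar

/-! # Module SPHERE: from the chart to the sphere -/

set_option autoImplicit false

open Set

namespace Pool.Agent.GreatArcs

/-- 3-space -/
abbrev E3 := EuclideanSpace ℝ (Fin 3)

/-- closed arcs of length `π / 2` of great circles -/
def SArc (a : Set E3) : Prop :=
  ∃ u v : E3, ‖u‖ = 1 ∧ ‖v‖ = 1 ∧ inner ℝ u v = (0 : ℝ) ∧
    a = (fun t : ℝ => Real.cos t • u + Real.sin t • v) '' Set.Icc 0 (Real.pi / 2)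

/-- norm of a combination of orthonormal vectors -/
theorem sph_norm_sq (u v : E3) (hu : ‖u‖ = 1) (hv : ‖v‖ = 1) (huv : inner ℝ u v = (0 : ℝ))
    (a b : ℝ) : ‖a • u + b • v‖ ^ 2 = a ^ 2 + b ^ 2 := by
  rw [norm_add_sq_real, norm_smul, norm_smul, hu, hv, real_inner_smul_left, real_inner_smul_right,
    huv, Real.norm_eq_abs, Real.norm_eq_abs]
  simp [sq_abs]

/-- coordinate form of an arc of the sphere: `u`, `v` orthonormal, all points of the sphere which
are nonnegative combinations of `u` and `v` -/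
theorem sarc_of_cone (u v : E3) (hu : ‖u‖ = 1) (hv : ‖v‖ = 1) (huv : inner ℝ u v = (0 : ℝ)) :
    SArc {p : E3 | ‖p‖ = 1 ∧ ∃ a b : ℝ, 0 ≤ a ∧ 0 ≤ b ∧ p = a • u + b • v} := by
  refine ⟨u, v, hu, hv, huv, ?_⟩
  ext p
  constructor
  · rintro ⟨hp, a, b, ha, hb, rfl⟩
    have h1 : a ^ 2 + b ^ 2 = 1 := by
      rw [← sph_norm_sq u v hu hv huv a b, hp]; norm_num
    have hb1 : b ≤ 1 := by nlinarith
    refine ⟨Real.arcsin b, ⟨Real.arcsin_nonneg.2 hb, Real.arcsin_le_pi_div_two b⟩, ?_⟩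
    have hs : Real.sin (Real.arcsin b) = b := Real.sin_arcsin (by linarith) hb1
    have hc : Real.cos (Real.arcsin b) = a := by
      rw [Real.cos_arcsin, show 1 - b ^ 2 = a ^ 2 by linarith, Real.sqrt_sq ha]
    simp only [hs, hc]
  · rintro ⟨t, ⟨h0, h1⟩, rfl⟩
    have hc : 0 ≤ Real.cos t := Real.cos_nonneg_of_mem_Icc ⟨by linarith [Real.pi_pos], h1⟩
    have hs : 0 ≤ Real.sin t := Real.sin_nonneg_of_mem_Icc ⟨h0, by linarith [Real.pi_pos]⟩
    refine ⟨?_, Real.cos t, Real.sin t, hc, hs, rfl⟩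
    have := sph_norm_sq u v hu hv huv (Real.cos t) (Real.sin t)
    rw [Real.cos_sq_add_sin_sq] at this
    have h2 : 0 ≤ ‖Real.cos t • u + Real.sin t • v‖ := norm_nonneg _
    nlinarith

/-- the point of the sphere in direction `(1, x, y)` -/
noncomputable def G (X : Pt) : E3 :=
  (Real.sqrt (1 + X.1 ^ 2 + X.2 ^ 2))⁻¹ • !₂[(1 : ℝ), X.1, X.2]

theorem sph_norm_sq3 (p : E3) : ‖p‖ ^ 2 = p 0 ^ 2 + p 1 ^ 2 + p 2 ^ 2 := by
  rw [EuclideanSpace.norm_sq_eq, Fin.sum_univ_three]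
  simp [sq_abs]

theorem sph_norm_one_iff (p : E3) : ‖p‖ = 1 ↔ p 0 ^ 2 + p 1 ^ 2 + p 2 ^ 2 = 1 := by
  rw [← sph_norm_sq3]
  constructor
  · intro h; rw [h]; norm_num
  · intro h
    have h2 : 0 ≤ ‖p‖ := norm_nonneg _
    nlinarith

theorem sph_inner (p q : E3) : inner ℝ p q = p 0 * q 0 + p 1 * q 1 + p 2 * q 2 := by
  rw [PiLp.inner_apply, Fin.sum_univ_three]
  simp [mul_comm]

/-- the length of `(1,X)` -/
noncomputable def sl (X : Pt) : ℝ := Real.sqrt (1 + X.1 ^ 2 + X.2 ^ 2)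

theorem sl_pos (X : Pt) : 0 < sl X := Real.sqrt_pos.2 (by positivity)

theorem sl_sq (X : Pt) : sl X ^ 2 = 1 + X.1 ^ 2 + X.2 ^ 2 := Real.sq_sqrt (by positivity)

theorem G_apply0 (X : Pt) : G X 0 = (sl X)⁻¹ := by simp [G, sl]
theorem G_apply1 (X : Pt) : G X 1 = (sl X)⁻¹ * X.1 := by simp [G, sl]
theorem G_apply2 (X : Pt) : G X 2 = (sl X)⁻¹ * X.2 := by simp [G, sl]

theorem G_norm (X : Pt) : ‖G X‖ = 1 := by
  rw [sph_norm_one_iff, G_apply0, G_apply1, G_apply2]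
  have h := sl_sq X
  have h0 := (sl_pos X).ne'
  field_simp
  linarith

theorem G_injective : Function.Injective G := by
  intro X Y h
  have h0 : (sl X)⁻¹ = (sl Y)⁻¹ := by rw [← G_apply0, ← G_apply0, h]
  have h1 : (sl X)⁻¹ * X.1 = (sl Y)⁻¹ * Y.1 := by rw [← G_apply1, ← G_apply1, h]
  have h2 : (sl X)⁻¹ * X.2 = (sl Y)⁻¹ * Y.2 := by rw [← G_apply2, ← G_apply2, h]
  have hne : (sl Y)⁻¹ ≠ 0 := inv_ne_zero (sl_pos Y).ne'
  rw [h0] at h1 h2
  exact Prod.ext (mul_left_cancel₀ hne h1) (mul_left_cancel₀ hne h2)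

theorem sph_ext {p q : E3} (h0 : p 0 = q 0) (h1 : p 1 = q 1) (h2 : p 2 = q 2) : p = q := by
  ext i
  fin_cases i
  · exact h0
  · exact h1
  · exact h2

/-- a point of the open half sphere is the image of its chart point -/
theorem G_of_point (p : E3) (hp : ‖p‖ = 1) (h0 : 0 < p 0) :
    G ((p 1 / p 0, p 2 / p 0) : Pt) = p := by
  have h := (sph_norm_one_iff p).1 hp
  have hs : sl ((p 1 / p 0, p 2 / p 0) : Pt) = (p 0)⁻¹ := by
    have : (0:ℝ) ≤ (p 0)⁻¹ := inv_nonneg.2 h0.le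
    rw [sl, Real.sqrt_eq_iff_mul_self_eq (by positivity) this]
    field_simp
    linarith
  refine sph_ext ?_ ?_ ?_
  · rw [G_apply0, hs, inv_inv]
  · rw [G_apply1, hs, inv_inv]; field_simp
  · rw [G_apply2, hs, inv_inv]; field_simp

/-- chart description of the image of `G` -/
theorem G_image (s : Set Pt) :
    G '' s = {p : E3 | ‖p‖ = 1 ∧ 0 < p 0 ∧ ((p 1 / p 0, p 2 / p 0) : Pt) ∈ s} := by
  ext p
  constructor
  · rintro ⟨X, hX, rfl⟩
    refine ⟨G_norm X, ?_, ?_⟩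
    · rw [G_apply0]; exact inv_pos.2 (sl_pos X)
    · have hne : (sl X)⁻¹ ≠ 0 := inv_ne_zero (sl_pos X).ne'
      rw [G_apply0, G_apply1, G_apply2]
      have e1 : (sl X)⁻¹ * X.1 / (sl X)⁻¹ = X.1 := mul_div_cancel_left₀ _ hne
      have e2 : (sl X)⁻¹ * X.2 / (sl X)⁻¹ = X.2 := mul_div_cancel_left₀ _ hne
      rw [e1, e2]
      exact hX
  · rintro ⟨hp, h0, hs⟩
    exact ⟨_, hs, G_of_point p hp h0⟩

theorem sarc_image {a : Set Pt} (ha : IsArc a) : SArc (G '' a) := by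
  obtain ⟨P, Q, hD, rfl⟩ := ha
  have hi : inner ℝ (G P) (G Q) = (0 : ℝ) := by
    rw [sph_inner, G_apply0, G_apply0, G_apply1, G_apply1, G_apply2, G_apply2]
    have : 1 + P.1 * Q.1 + P.2 * Q.2 = 0 := by unfold D at hD; linarith
    calc (sl P)⁻¹ * (sl Q)⁻¹ + (sl P)⁻¹ * P.1 * ((sl Q)⁻¹ * Q.1)
          + (sl P)⁻¹ * P.2 * ((sl Q)⁻¹ * Q.2)
        = (sl P)⁻¹ * (sl Q)⁻¹ * (1 + P.1 * Q.1 + P.2 * Q.2) := by ring
      _ = 0 := by rw [this, mul_zero]
  have key : G '' seg P Q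
      = {p : E3 | ‖p‖ = 1 ∧ ∃ a b : ℝ, 0 ≤ a ∧ 0 ≤ b ∧ p = a • G P + b • G Q} := by
    rw [G_image]
    ext p
    constructor
    · rintro ⟨hp, h0, t, ht0, ht1, ht⟩
      refine ⟨hp, p 0 * (1 - t) * sl P, p 0 * t * sl Q, ?_, ?_, ?_⟩
      · exact mul_nonneg (mul_nonneg h0.le (by linarith)) (sl_pos P).le
      · exact mul_nonneg (mul_nonneg h0.le ht0) (sl_pos Q).le
      · have h1 : p 1 = p 0 * (P.1 + t * (Q.1 - P.1)) := by
          have := congrArg Prod.fst ht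
          simp only [lp_fst] at this
          rw [← this]; field_simp
        have h2 : p 2 = p 0 * (P.2 + t * (Q.2 - P.2)) := by
          have := congrArg Prod.snd ht
          simp only [lp_snd] at this
          rw [← this]; field_simp
        have hP := (sl_pos P).ne'
        have hQ := (sl_pos Q).ne'
        refine sph_ext ?_ ?_ ?_
        · simp only [PiLp.add_apply, PiLp.smul_apply, smul_eq_mul, G_apply0]
          field_simp
          ring
        · simp only [PiLp.add_apply, PiLp.smul_apply, smul_eq_mul, G_apply1]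
          rw [h1]
          field_simp
          ring
        · simp only [PiLp.add_apply, PiLp.smul_apply, smul_eq_mul, G_apply2]
          rw [h2]
          field_simp
          ring
    · rintro ⟨hp, a, b, ha, hb, hpe⟩
      have hP := sl_pos P
      have hQ := sl_pos Q
      have e0 : p 0 = a * (sl P)⁻¹ + b * (sl Q)⁻¹ := by
        rw [hpe]; simp only [PiLp.add_apply, PiLp.smul_apply, smul_eq_mul, G_apply0]
      have e1 : p 1 = a * (sl P)⁻¹ * P.1 + b * (sl Q)⁻¹ * Q.1 := by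
        rw [hpe]; simp only [PiLp.add_apply, PiLp.smul_apply, smul_eq_mul, G_apply1]; ring
      have e2 : p 2 = a * (sl P)⁻¹ * P.2 + b * (sl Q)⁻¹ * Q.2 := by
        rw [hpe]; simp only [PiLp.add_apply, PiLp.smul_apply, smul_eq_mul, G_apply2]; ring
      have hα : 0 ≤ a * (sl P)⁻¹ := mul_nonneg ha (inv_nonneg.2 hP.le)
      have hβ : 0 ≤ b * (sl Q)⁻¹ := mul_nonneg hb (inv_nonneg.2 hQ.le)
      generalize a * (sl P)⁻¹ = α at e0 e1 e2 hα
      generalize b * (sl Q)⁻¹ = β at e0 e1 e2 hβ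
      have hpos : 0 < α + β := by
        rcases hα.lt_or_eq with h | h
        · linarith
        · rcases hβ.lt_or_eq with h' | h'
          · linarith
          · exfalso
            have h1 := (sph_norm_one_iff p).1 hp
            rw [e0, e1, e2, ← h, ← h'] at h1
            norm_num at h1
      refine ⟨hp, by rw [e0]; exact hpos, β / (α + β), div_nonneg hβ hpos.le,
        (div_le_one hpos).2 (by linarith), ?_⟩
      rw [e0, e1, e2]
      have hne := hpos.ne'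
      ext
      · simp only [lp_fst]; field_simp; ring
      · simp only [lp_snd]; field_simp; ring
  rw [key]
  exact sarc_of_cone _ _ (G_norm P) (G_norm Q) hi

/-- linear isometries preserve arcs -/
theorem sarc_isometry (e : E3 ≃ₗᵢ[ℝ] E3) {a : Set E3} (ha : SArc a) : SArc (e '' a) := by
  obtain ⟨u, v, hu, hv, huv, rfl⟩ := ha
  refine ⟨e u, e v, by rw [e.norm_map, hu], by rw [e.norm_map, hv], by
    rw [e.inner_map_map, huv], ?_⟩
  rw [Set.image_image]
  refine Set.image_congr fun t _ => ?_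
  rw [map_add, map_smul, map_smul]

/-- rotation by a quarter turn about the last axis: `(p0,p1,p2) ↦ (-p1,p0,p2)` -/
theorem exists_rot : ∃ e : E3 ≃ₗᵢ[ℝ] E3, ∀ p : E3, e p 0 = -p 1 ∧ e p 1 = p 0 ∧ e p 2 = p 2 := by
  let f : E3 ≃ₗ[ℝ] E3 :=
    { toFun := fun p => !₂[-p 1, p 0, p 2]
      invFun := fun p => !₂[p 1, -p 0, p 2]
      map_add' := fun p q => by
        refine sph_ext ?_ ?_ ?_ <;> simp
        ring
      map_smul' := fun c p => by
        refine sph_ext ?_ ?_ ?_ <;> simp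
      left_inv := fun p => by
        refine sph_ext ?_ ?_ ?_ <;> simp
      right_inv := fun p => by
        refine sph_ext ?_ ?_ ?_ <;> simp }
  refine ⟨⟨f, fun p => ?_⟩, fun p => ?_⟩
  · have h : ‖f p‖ ^ 2 = ‖p‖ ^ 2 := by
      rw [sph_norm_sq3, sph_norm_sq3]
      simp [f]
      ring
    have h1 : 0 ≤ ‖f p‖ := norm_nonneg _
    have h2 : 0 ≤ ‖p‖ := norm_nonneg _
    exact (sq_eq_sq₀ h1 h2).1 h
  · refine ⟨?_, ?_, ?_⟩ <;> simp [f]

/-- half turn `(p0,p1,p2) ↦ (p1,p0,-p2)` -/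
theorem exists_flip : ∃ e : E3 ≃ₗᵢ[ℝ] E3, ∀ p : E3, e p 0 = p 1 ∧ e p 1 = p 0 ∧ e p 2 = -p 2 := by
  let f : E3 ≃ₗ[ℝ] E3 :=
    { toFun := fun p => !₂[p 1, p 0, -p 2]
      invFun := fun p => !₂[p 1, p 0, -p 2]
      map_add' := fun p q => by
        refine sph_ext ?_ ?_ ?_ <;> simp
        ring
      map_smul' := fun c p => by
        refine sph_ext ?_ ?_ ?_ <;> simp
      left_inv := fun p => by
        refine sph_ext ?_ ?_ ?_ <;> simp
      right_inv := fun p => by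
        refine sph_ext ?_ ?_ ?_ <;> simp }
  refine ⟨⟨f, fun p => ?_⟩, fun p => ?_⟩
  · have h : ‖f p‖ ^ 2 = ‖p‖ ^ 2 := by
      rw [sph_norm_sq3, sph_norm_sq3]
      simp [f]
      ring
    have h1 : 0 ≤ ‖f p‖ := norm_nonneg _
    have h2 : 0 ≤ ‖p‖ := norm_nonneg _
    exact (sq_eq_sq₀ h1 h2).1 h
  · refine ⟨?_, ?_, ?_⟩ <;> simp [f]

end Pool.Agent.GreatArcs
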