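import Mathlib
import Pool.Agent.GreatArcs.Base
import Pool.Agent.GreatArcs.Nest
import Pool.Agent.GreatArcs.Strip
import Pool.Agent.GreatArcs.Planar
import Pool.Agent.GreatArcs.Sphere

/-! # Module FINAL: the sphere -/

set_option autoImplicit false

open Set

namespace Pool.Agent.GreatArcs

/-- the open quadrant of the sphere -/
theorem quad_open : Splits SArc {p : E3 | ‖p‖ = 1 ∧ 0 < p 0 ∧ 0 < p 1} := by
  have h := splits_image (B := SArc) G G_injective (fun a ha => sarc_image ha) half_plane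
  have e : G '' {X : Pt | 0 < X.1} = {p : E3 | ‖p‖ = 1 ∧ 0 < p 0 ∧ 0 < p 1} := by
    rw [G_image]
    ext p
    simp only [mem_ofPred_eq]
    constructor
    · rintro ⟨h1, h2, h3⟩
      exact ⟨h1, h2, (div_pos_iff_of_pos_right h2).1 h3⟩
    · rintro ⟨h1, h2, h3⟩
      exact ⟨h1, h2, div_pos h3 h2⟩
  rwa [e] at h

/-- eighth of the sphere with half-open boundary pieces -/
theorem eighth {x0 : ℝ} (hx : 0 ≤ x0) : Splits SArc {p : E3 | ‖p‖ = 1 ∧ 0 < p 0 ∧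
    ((0 < p 1 ∧ p 1 < p 0) ∨ (p 1 = 0 ∧ p 2 < -(x0 * p 0)) ∨
      (p 1 = p 0 ∧ Real.sqrt 2 * p 0 < p 2))} := by
  have h := splits_image (B := SArc) G G_injective (fun a ha => sarc_image ha)
    (strip (le_refl 0) zero_lt_one hx (Real.sqrt_nonneg 2))
  rw [G_image] at h
  refine Eq.mp (congrArg _ ?_) h
  ext p
  simp only [mem_ofPred_eq, mem_union]
  constructor
  · rintro ⟨h1, h2, h3⟩
    refine ⟨h1, h2, ?_⟩
    rcases h3 with (⟨h3, h4⟩ | ⟨h3, h4⟩) | ⟨h3, h4⟩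
    · left
      exact ⟨(div_pos_iff_of_pos_right h2).1 h3, (div_lt_one h2).1 h4⟩
    · right; left
      refine ⟨(div_eq_zero_iff.1 h3).resolve_right h2.ne', ?_⟩
      rw [div_lt_iff₀ h2] at h4
      linarith
    · right; right
      refine ⟨(div_eq_one_iff_eq h2.ne').1 h3, ?_⟩
      rwa [lt_div_iff₀ h2] at h4
  · rintro ⟨h1, h2, h3⟩
    refine ⟨h1, h2, ?_⟩
    rcases h3 with ⟨h3, h4⟩ | ⟨h3, h4⟩ | ⟨h3, h4⟩
    · left; left
      exact ⟨div_pos h3 h2, (div_lt_one h2).2 h4⟩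
    · left; right
      refine ⟨by rw [h3, zero_div], ?_⟩
      rw [div_lt_iff₀ h2]
      linarith
    · right
      refine ⟨by rw [h3, div_self h2.ne'], ?_⟩
      rwa [lt_div_iff₀ h2]

/-- vertical arc of the sphere with `p 1 = m p 0` -/
theorem sarc_vert (m : ℝ) : SArc {p : E3 | ‖p‖ = 1 ∧ 0 < p 0 ∧ p 1 = m * p 0 ∧
    -(Real.sqrt (1 + m ^ 2) * p 0) ≤ p 2 ∧ p 2 ≤ Real.sqrt (1 + m ^ 2) * p 0} := by
  have h := sarc_image (isArc_vert m)
  rw [G_image] at h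
  refine Eq.mp (congrArg _ ?_) h
  ext p
  simp only [mem_ofPred_eq]
  constructor
  · rintro ⟨h1, h2, h3, h4, h5⟩
    rw [div_eq_iff h2.ne'] at h3
    rw [le_div_iff₀ h2] at h4
    rw [div_le_iff₀ h2] at h5
    exact ⟨h1, h2, h3, by linarith, h5⟩
  · rintro ⟨h1, h2, h3, h4, h5⟩
    refine ⟨h1, h2, ?_, ?_, ?_⟩
    · rw [div_eq_iff h2.ne']; exact h3
    · rw [le_div_iff₀ h2]; linarith
    · rw [div_le_iff₀ h2]; exact h5

/-- diagonal arc -/
theorem diag_arc : SArc {p : E3 | ‖p‖ = 1 ∧ 0 < p 0 ∧ p 1 = p 0 ∧ -(Real.sqrt 2 * p 0) ≤ p 2 ∧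
    p 2 ≤ Real.sqrt 2 * p 0} := by
  have h := sarc_vert 1
  have e : (1 : ℝ) + 1 ^ 2 = 2 := by norm_num
  rw [e] at h
  simpa only [one_mul] using h

/-- coordinate description of the image under the quarter turn -/
theorem rot_image {e : E3 ≃ₗᵢ[ℝ] E3} (he : ∀ p : E3, e p 0 = -p 1 ∧ e p 1 = p 0 ∧ e p 2 = p 2)
    (P : ℝ → ℝ → ℝ → Prop) :
    e '' {p : E3 | ‖p‖ = 1 ∧ P (p 0) (p 1) (p 2)} =
      {p : E3 | ‖p‖ = 1 ∧ P (p 1) (-p 0) (p 2)} := by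
  ext p
  constructor
  · rintro ⟨q, ⟨h1, h2⟩, rfl⟩
    obtain ⟨h3, h4, h5⟩ := he q
    refine ⟨by rw [e.norm_map]; exact h1, ?_⟩
    rw [h3, h4, h5, neg_neg]
    exact h2
  · rintro ⟨h1, h2⟩
    obtain ⟨h3, h4, h5⟩ := he (e.symm p)
    rw [e.apply_symm_apply] at h3 h4 h5
    refine ⟨e.symm p, ⟨by rw [e.symm.norm_map]; exact h1, ?_⟩, e.apply_symm_apply p⟩
    rw [← h4, ← h5]
    have : e.symm p 1 = - p 0 := by rw [h3, neg_neg]
    rw [this]
    exact h2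

/-- coordinate description of the image under the half turn -/
theorem flip_image {e : E3 ≃ₗᵢ[ℝ] E3} (he : ∀ p : E3, e p 0 = p 1 ∧ e p 1 = p 0 ∧ e p 2 = -p 2)
    (P : ℝ → ℝ → ℝ → Prop) :
    e '' {p : E3 | ‖p‖ = 1 ∧ P (p 0) (p 1) (p 2)} =
      {p : E3 | ‖p‖ = 1 ∧ P (p 1) (p 0) (-p 2)} := by
  ext p
  constructor
  · rintro ⟨q, ⟨h1, h2⟩, rfl⟩
    obtain ⟨h3, h4, h5⟩ := he q
    refine ⟨by rw [e.norm_map]; exact h1, ?_⟩
    rw [h3, h4, h5, neg_neg]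
    exact h2
  · rintro ⟨h1, h2⟩
    obtain ⟨h3, h4, h5⟩ := he (e.symm p)
    rw [e.apply_symm_apply] at h3 h4 h5
    refine ⟨e.symm p, ⟨by rw [e.symm.norm_map]; exact h1, ?_⟩, e.apply_symm_apply p⟩
    rw [← h3, ← h4]
    have : e.symm p 2 = - p 2 := by rw [h5, neg_neg]
    rw [this]
    exact h2

/-- quadrant of the sphere with half-open boundary pieces -/
theorem quad {x0 y0 : ℝ} (hx : 0 ≤ x0) (hy : 0 ≤ y0) : Splits SArc {p : E3 | ‖p‖ = 1 ∧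
    ((0 < p 0 ∧ 0 < p 1) ∨ (0 < p 0 ∧ p 1 = 0 ∧ p 2 < -(x0 * p 0)) ∨
      (p 0 = 0 ∧ 0 < p 1 ∧ y0 * p 1 < p 2))} := by
  obtain ⟨e, he⟩ := exists_flip
  have h1 := eighth hx
  have h2 := splits_image (B := SArc) e e.injective (fun a ha => sarc_isometry e ha) (eighth hy)
  rw [flip_image he (fun x y z => 0 < x ∧ ((0 < y ∧ y < x) ∨ (y = 0 ∧ z < -(y0 * x)) ∨
      (y = x ∧ Real.sqrt 2 * x < z)))] at h2
  have h3 := splits_of_mem diag_arc
  have hr : 0 ≤ Real.sqrt 2 := Real.sqrt_nonneg 2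
  have h4 := splits_union h1 h3 (by
    rw [Set.disjoint_left]
    rintro p ⟨-, a1, a2⟩ ⟨-, b1, b2, b3, b4⟩
    rcases a2 with ⟨a2, a3⟩ | ⟨a2, a3⟩ | ⟨a2, a3⟩ <;> linarith)
  have h5 := splits_union h4 h2 (by
    rw [Set.disjoint_left]
    rintro p (⟨-, a1, a2⟩ | ⟨-, a1, a2, a3, a4⟩) ⟨-, b1, b2⟩
    · rcases a2 with ⟨a2, a3⟩ | ⟨a2, a3⟩ | ⟨a2, a3⟩ <;>
        rcases b2 with ⟨b2, b3⟩ | ⟨b2, b3⟩ | ⟨b2, b3⟩ <;>
        first
          | linarith
          | (rw [a2] at b3; have := mul_pos (Real.sqrt_pos.2 (by norm_num : (0:ℝ) < 2)) a1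
             linarith)
    · rcases b2 with ⟨b2, b3⟩ | ⟨b2, b3⟩ | ⟨b2, b3⟩
      · linarith
      · linarith
      · rw [a2] at b3; linarith)
  refine Eq.mp (congrArg _ ?_) h5
  ext p
  simp only [mem_ofPred_eq, mem_union]
  constructor
  · rintro ((⟨a0, a1, a2⟩ | ⟨a0, a1, a2, a3, a4⟩) | ⟨b0, b1, b2⟩)
    · refine ⟨a0, ?_⟩
      rcases a2 with ⟨a2, a3⟩ | ⟨a2, a3⟩ | ⟨a2, a3⟩
      · left; exact ⟨a1, a2⟩
      · right; left; exact ⟨a1, a2, a3⟩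
      · left; exact ⟨a1, by linarith⟩
    · exact ⟨a0, Or.inl ⟨a1, by linarith⟩⟩
    · refine ⟨b0, ?_⟩
      rcases b2 with ⟨b2, b3⟩ | ⟨b2, b3⟩ | ⟨b2, b3⟩
      · left; exact ⟨b2, b1⟩
      · right; right; exact ⟨b2, b1, by linarith⟩
      · left; exact ⟨by linarith, b1⟩
  · rintro ⟨a0, ⟨a1, a2⟩ | ⟨a1, a2, a3⟩ | ⟨a1, a2, a3⟩⟩
    · rcases lt_trichotomy (p 1) (p 0) with h | h | h
      · left; left; exact ⟨a0, a1, Or.inl ⟨a2, h⟩⟩
      · rcases lt_or_ge (Real.sqrt 2 * p 0) (p 2) with h' | h'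
        · left; left; exact ⟨a0, a1, Or.inr (Or.inr ⟨h, h'⟩)⟩
        · rcases lt_or_ge (p 2) (-(Real.sqrt 2 * p 0)) with h'' | h''
          · right
            refine ⟨a0, a2, Or.inr (Or.inr ⟨h.symm, ?_⟩)⟩
            rw [h]; linarith
          · left; right
            exact ⟨a0, a1, h, h'', h'⟩
      · right; exact ⟨a0, a2, Or.inl ⟨a1, h⟩⟩
    · left; left; exact ⟨a0, a1, Or.inr (Or.inl ⟨a2, a3⟩)⟩
    · right; exact ⟨a0, a2, Or.inr (Or.inl ⟨a1, by linarith⟩)⟩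

/-- sets of the sphere given by a condition on the coordinates -/
def cset (P : ℝ → ℝ → ℝ → Prop) : Set E3 := {p : E3 | ‖p‖ = 1 ∧ P (p 0) (p 1) (p 2)}

theorem norm_coord {p : E3} (h : ‖p‖ = 1) : p 0 ^ 2 + p 1 ^ 2 + p 2 ^ 2 = 1 := by
  have h1 := EuclideanSpace.norm_sq_eq p
  rw [h, Fin.sum_univ_three] at h1
  simp only [Real.norm_eq_abs, sq_abs, one_pow] at h1
  exact h1.symm

theorem splits_cset_congr {P Q : ℝ → ℝ → ℝ → Prop} (h : Splits SArc (cset P))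
    (hPQ : ∀ x y z, P x y z ↔ Q x y z) : Splits SArc (cset Q) := by
  have : P = Q := by
    funext x y z
    exact propext (hPQ x y z)
  rwa [← this]

theorem splits_cset_rot {P : ℝ → ℝ → ℝ → Prop} (h : Splits SArc (cset P)) :
    Splits SArc (cset fun x y z => P y (-x) z) := by
  obtain ⟨e, he⟩ := exists_rot
  have h2 := splits_image (B := SArc) e e.injective (fun a ha => sarc_isometry e ha) h
  unfold cset at h2
  rw [rot_image he P] at h2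
  exact h2

theorem splits_cset_or {P Q : ℝ → ℝ → ℝ → Prop} (hP : Splits SArc (cset P))
    (hQ : Splits SArc (cset Q))
    (hd : ∀ x y z : ℝ, x ^ 2 + y ^ 2 + z ^ 2 = 1 → P x y z → Q x y z → False) :
    Splits SArc (cset fun x y z => P x y z ∨ Q x y z) := by
  have h := splits_union hP hQ (by
    rw [Set.disjoint_left]
    rintro p ⟨h1, h2⟩ ⟨-, h3⟩
    exact hd _ _ _ (norm_coord h1) h2 h3)
  have e : cset P ∪ cset Q = cset fun x y z => P x y z ∨ Q x y z := by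
    ext p
    simp only [cset, mem_ofPred_eq, mem_union]
    tauto
  rwa [e] at h

theorem arc1 : Splits SArc (cset fun x y z => 0 ≤ x ∧ y = 0 ∧ z ≤ 0) := by
  have h := sarc_of_cone !₂[(1 : ℝ), 0, 0] !₂[(0 : ℝ), 0, -1]
    (by simp [EuclideanSpace.norm_eq, Fin.sum_univ_three])
    (by simp [EuclideanSpace.norm_eq, Fin.sum_univ_three])
    (by simp [PiLp.inner_apply, Fin.sum_univ_three])
  refine splits_of_mem ?_
  refine Eq.mp (congrArg _ ?_) h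
  ext p
  simp only [cset, mem_ofPred_eq]
  constructor
  · rintro ⟨h1, a, b, ha, hb, rfl⟩
    refine ⟨h1, ?_⟩
    simp [ha, hb]
  · rintro ⟨h1, h2, h3, h4⟩
    refine ⟨h1, p 0, -p 2, h2, by linarith, ?_⟩
    ext i
    fin_cases i <;> simp [h3]

theorem arc2 : Splits SArc (cset fun x y z => x = 0 ∧ 0 ≤ y ∧ 0 ≤ z) := by
  have h := sarc_of_cone !₂[(0 : ℝ), 1, 0] !₂[(0 : ℝ), 0, 1]
    (by simp [EuclideanSpace.norm_eq, Fin.sum_univ_three])
    (by simp [EuclideanSpace.norm_eq, Fin.sum_univ_three])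
    (by simp [PiLp.inner_apply, Fin.sum_univ_three])
  refine splits_of_mem ?_
  refine Eq.mp (congrArg _ ?_) h
  ext p
  simp only [cset, mem_ofPred_eq]
  constructor
  · rintro ⟨h1, a, b, ha, hb, rfl⟩
    refine ⟨h1, ?_⟩
    simp [ha, hb]
  · rintro ⟨h1, h2, h3, h4⟩
    refine ⟨h1, p 1, p 2, h3, h4, ?_⟩
    ext i
    fin_cases i <;> simp [h2]

theorem arc0 : Splits SArc (cset fun x y z => 0 < x ∧ y = 0 ∧ -x ≤ z ∧ z ≤ x) := by
  have h := sarc_vert 0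
  refine splits_of_mem ?_
  refine Eq.mp (congrArg _ ?_) h
  ext p
  simp [cset]

theorem quad_cset {x0 y0 : ℝ} (hx : 0 ≤ x0) (hy : 0 ≤ y0) : Splits SArc (cset fun x y z =>
    (0 < x ∧ 0 < y) ∨ (0 < x ∧ y = 0 ∧ z < -(x0 * x)) ∨ (x = 0 ∧ 0 < y ∧ y0 * y < z)) :=
  quad hx hy

theorem piece1 : Splits SArc (cset fun x y z => (x < 0 ∧ 0 < y) ∨ (x = 0 ∧ 0 < y ∧ z < 0) ∨
    (x < 0 ∧ y = 0 ∧ -x < z)) := by
  refine splits_cset_congr (splits_cset_rot (quad_cset (le_refl 0) zero_le_one)) ?_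
  intro x y z
  refine or_congr ?_ (or_congr ?_ ?_)
  · constructor <;> rintro ⟨h1, h2⟩ <;> refine ⟨?_, ?_⟩ <;> linarith
  · constructor <;> rintro ⟨h1, h2, h3⟩ <;> refine ⟨?_, ?_, ?_⟩ <;> linarith
  · constructor <;> rintro ⟨h1, h2, h3⟩ <;> refine ⟨?_, ?_, ?_⟩ <;> linarith

theorem piece2 : Splits SArc (cset fun x y z => (x < 0 ∧ y < 0) ∨ (x < 0 ∧ y = 0 ∧ z < x) ∨
    (x = 0 ∧ y < 0 ∧ -y < z)) := by
  refine splits_cset_congr (splits_cset_rot (splits_cset_rot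
    (quad_cset zero_le_one zero_le_one))) ?_
  intro x y z
  refine or_congr ?_ (or_congr ?_ ?_)
  · constructor <;> rintro ⟨h1, h2⟩ <;> refine ⟨?_, ?_⟩ <;> linarith
  · constructor <;> rintro ⟨h1, h2, h3⟩ <;> refine ⟨?_, ?_, ?_⟩ <;> linarith
  · constructor <;> rintro ⟨h1, h2, h3⟩ <;> refine ⟨?_, ?_, ?_⟩ <;> linarith

theorem piece3 : Splits SArc (cset fun x y z => (0 < x ∧ y < 0) ∨ (x = 0 ∧ y < 0 ∧ z < y) ∨
    (0 < x ∧ y = 0 ∧ 0 < z)) := by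
  refine splits_cset_congr (splits_cset_rot (splits_cset_rot (splits_cset_rot
    (quad_cset zero_le_one (le_refl 0))))) ?_
  intro x y z
  refine or_congr ?_ (or_congr ?_ ?_)
  · constructor <;> rintro ⟨h1, h2⟩ <;> refine ⟨?_, ?_⟩ <;> linarith
  · constructor <;> rintro ⟨h1, h2, h3⟩ <;> refine ⟨?_, ?_, ?_⟩ <;> linarith
  · constructor <;> rintro ⟨h1, h2, h3⟩ <;> refine ⟨?_, ?_, ?_⟩ <;> linarith

theorem arc3 : Splits SArc (cset fun x y z => x < 0 ∧ y = 0 ∧ x ≤ z ∧ z ≤ -x) := by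
  refine splits_cset_congr (splits_cset_rot (splits_cset_rot arc0)) ?_
  intro x y z
  constructor <;> rintro ⟨h1, h2, h3, h4⟩ <;> refine ⟨?_, ?_, ?_, ?_⟩ <;> linarith

theorem arc4 : Splits SArc (cset fun x y z => x = 0 ∧ y < 0 ∧ y ≤ z ∧ z ≤ -y) := by
  refine splits_cset_congr (splits_cset_rot (splits_cset_rot (splits_cset_rot arc0))) ?_
  intro x y z
  constructor <;> rintro ⟨h1, h2, h3, h4⟩ <;> refine ⟨?_, ?_, ?_, ?_⟩ <;> linarith

/-- the points with `p 1 = 0` or `p 0 = 0` or not: all quadrants -/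
theorem sphere_splits : Splits SArc {p : E3 | ‖p‖ = 1} := by
  have q0 : Splits SArc (cset fun x y _ => 0 < x ∧ 0 < y) := quad_open
  have s1 := splits_cset_or q0 piece1 (by
    rintro x y z - ⟨h1, h2⟩ (⟨h3, h4⟩ | ⟨h3, h4, h5⟩ | ⟨h3, h4, h5⟩) <;> linarith)
  have s2 := splits_cset_or s1 piece2 (by
    rintro x y z - (⟨a1, a2⟩ | (⟨a1, a2⟩ | ⟨a1, a2, a3⟩ | ⟨a1, a2, a3⟩))
      (⟨h3, h4⟩ | ⟨h3, h4, h5⟩ | ⟨h3, h4, h5⟩) <;> linarith)
  have s3 := splits_cset_or s2 piece3 (by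
    rintro x y z - ((⟨a1, a2⟩ | (⟨a1, a2⟩ | ⟨a1, a2, a3⟩ | ⟨a1, a2, a3⟩)) |
      (⟨a1, a2⟩ | ⟨a1, a2, a3⟩ | ⟨a1, a2, a3⟩))
      (⟨h3, h4⟩ | ⟨h3, h4, h5⟩ | ⟨h3, h4, h5⟩) <;> linarith)
  have t1 := splits_cset_or arc1 arc2 (by
    rintro x y z h ⟨a1, a2, a3⟩ ⟨b1, b2, b3⟩
    have : z = 0 := by linarith
    rw [a2, b1, this] at h
    norm_num at h)
  have t2 := splits_cset_or arc3 arc4 (by
    rintro x y z - ⟨a1, a2, a3⟩ ⟨b1, b2, b3⟩
    linarith)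
  have t3 := splits_cset_or t1 t2 (by
    rintro x y z - (⟨a1, a2, a3⟩ | ⟨a1, a2, a3⟩) (⟨b1, b2, b3⟩ | ⟨b1, b2, b3⟩) <;> linarith)
  have u := splits_cset_or s3 t3 (by
    rintro x y z - (((⟨a1, a2⟩ | (⟨a1, a2⟩ | ⟨a1, a2, a3⟩ | ⟨a1, a2, a3⟩)) |
      (⟨a1, a2⟩ | ⟨a1, a2, a3⟩ | ⟨a1, a2, a3⟩)) | (⟨a1, a2⟩ | ⟨a1, a2, a3⟩ | ⟨a1, a2, a3⟩))
      ((⟨b1, b2, b3⟩ | ⟨b1, b2, b3⟩) | (⟨b1, b2, b3, b4⟩ | ⟨b1, b2, b3, b4⟩)) <;> linarith)
  refine Eq.mp (congrArg _ ?_) u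
  ext p
  simp only [cset, mem_ofPred_eq]
  constructor
  · rintro ⟨h, -⟩
    exact h
  · intro h
    refine ⟨h, ?_⟩
    generalize p 0 = x
    generalize p 1 = y
    generalize p 2 = z
    rcases lt_trichotomy x 0 with hx | hx | hx
    · rcases lt_trichotomy y 0 with hy | hy | hy
      · left; left; right; left; exact ⟨hx, hy⟩
      · rcases lt_or_ge z x with h1 | h1
        · left; left; right; right; left; exact ⟨hx, hy, h1⟩
        · rcases lt_or_ge (-x) z with h2 | h2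
          · left; left; left; right; right; right; exact ⟨hx, hy, h2⟩
          · right; right; left; exact ⟨hx, hy, h1, h2⟩
      · left; left; left; right; left; exact ⟨hx, hy⟩
    · rcases lt_trichotomy y 0 with hy | hy | hy
      · rcases lt_or_ge z y with h1 | h1
        · left; right; right; left; exact ⟨hx, hy, h1⟩
        · rcases lt_or_ge (-y) z with h2 | h2
          · left; left; right; right; right; exact ⟨hx, hy, h2⟩
          · right; right; right; exact ⟨hx, hy, h1, h2⟩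
      · rcases le_total z 0 with h1 | h1
        · right; left; left; exact ⟨hx.ge, hy, h1⟩
        · right; left; right; exact ⟨hx, hy.ge, h1⟩
      · rcases lt_or_ge z 0 with h1 | h1
        · left; left; left; right; right; left; exact ⟨hx, hy, h1⟩
        · right; left; right; exact ⟨hx, hy.le, h1⟩
    · rcases lt_trichotomy y 0 with hy | hy | hy
      · left; right; left; exact ⟨hx, hy⟩
      · rcases lt_or_ge 0 z with h1 | h1
        · left; right; right; right; exact ⟨hx, hy, h1⟩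
        · right; left; left; exact ⟨hx.le, hy, h1⟩
      · left; left; left; left; exact ⟨hx, hy⟩

end Pool.Agent.GreatArcs
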